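import Pool.Agent.PTP.Defs

/-!
# PTP: targets

Theorem R6 of ideas row 2604 (MP_eac546_co): polygonal bodies with interval difference sets along
the edge directions, and (R5) polygonal bodies with a tiling of finite local complexity.
-/

set_option autoImplicit false

namespace Pool.Agent.PTP

open Pool.Agent.PTR Filter Topology
open Pool.Agent.PTR.OL (V ii dif difs FLC InHull)

/-! ## A. Flags -/

/-- PERT. Perturbation of a flag. For every `h` in the finite set of half planes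
`(hd h u, hd h v) ≠ (0, 0)`; choose `ε₀` with `ε |hd h v| < |hd h u|` whenever `hd h u ≠ 0`. -/
def T_PERT : Prop := ∀ P, PB P → ∀ u v : V, rdet u v ≠ 0 →
  ∃ ε₀ > (0 : ℝ), ∀ ε : ℝ, 0 < ε → ε < ε₀ → ∀ w : V, fset P (u + ε • v) w = fset P u v

/-- SCAL. Scaling of a flag. -/
def T_SCAL : Prop := ∀ (P : Finset (Finset HPl)) (u v : V) (l m k : ℝ), 0 < l → 0 < m →
  fset P (l • u) (m • v + k • u) = fset P u v

/-- LOC. Moving the point along the line of the flag. -/
def T_LOC : Prop := ∀ (P : Finset (Finset HPl)) (u v x : V),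
  ∃ ε₀ > (0 : ℝ), ∀ s : ℝ, 0 < s → s < ε₀ →
  (x + s • u ∈ fset P u v ↔ x ∈ fset P u v) ∧ (x + s • u ∈ fset P (-u) v ↔ x ∈ fset P u v)

/-- DIRF. If no bounding line is parallel to `e` then the sides of the line do not matter. -/
def T_DIRF : Prop := ∀ P, ∀ e n : V, e ≠ 0 → ¬ IsDir P e → fset P e n = fset P e (-n)

/-- LINF. If `x` is in exactly one of the flagged sets `(e, n)`, `(e, -n)`, then `x` is on a
bounding line parallel to `e`: its height is in a finite set. (`hd h` is a multiple of `rdet e` if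
`hd h e = 0`.) -/
def T_LINF : Prop := ∀ P, PB P → ∀ e : V, e ≠ 0 → ∃ O : Finset ℝ, ∀ n x : V,
  ¬ (x ∈ fset P e n ↔ x ∈ fset P e (-n)) → rdet e x ∈ O

/-- INTF. Flags, interior and closure. `x + s u + s^2 v` is in the interior or outside for small
`s > 0` (the form `h.2 - hd h (x + s u + s^2 v)` is a nonzero polynomial in `s` of degree ≤ 2). -/
def T_INTF : Prop := ∀ P, PB P → ∀ u v : V, rdet u v ≠ 0 →
  (∀ x ∈ fset P u v, x ∈ pset P) ∧ (∀ x ∈ interior (pset P), x ∈ fset P u v) ∧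
  (∀ x ∈ fset P u v, ∃ s₀ > (0 : ℝ), ∀ s : ℝ, 0 < s → s < s₀ →
    x + s • u + s ^ 2 • v ∈ interior (pset P)) ∧
  (∀ x ∉ fset P u v, ∃ s₀ > (0 : ℝ), ∀ s : ℝ, 0 < s → s < s₀ → x + s • u + s ^ 2 • v ∉ pset P)

/-- BODY. The body is compact, nonempty and the closure of its interior. -/
def T_BODY : Prop := ∀ P, PB P → IsCompact (pset P) ∧ (interior (pset P)).Nonempty ∧
  closure (interior (pset P)) = pset P

/-- EDGE. If all the bounding lines through `x ∈ C` are parallel to `e` then `x` is in one of the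
two flagged sets `(e, n)`, `(e, -n)`. (If `x ∈ poly S` then the active half planes of `S` have
`hd h e = 0`, and their forms are positive multiples of one form, because `poly S` has an interior
point.) -/
def T_EDGE : Prop := ∀ P, PB P → ∀ e n x : V, rdet e n ≠ 0 → x ∈ pset P →
  (∀ S ∈ P, ∀ h ∈ S, hd h x = h.2 → hd h e = 0) → x ∈ fset P e n ∨ x ∈ fset P e (-n)

/-- WD. Width. -/
def T_WD : Prop := ∀ P, PB P → ∀ e : V, e ≠ 0 → 0 < wd (pset P) e ∧
  (∀ x ∈ pset P, ∀ y ∈ pset P, rdet e x - rdet e y ≤ wd (pset P) e) ∧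
  (∃ x ∈ pset P, ∃ y ∈ pset P, rdet e x - rdet e y = wd (pset P) e) ∧
  (∃ lo : ℝ, ∀ u v : V, 0 < rdet e u → ∀ x ∈ fset P u v,
    lo ≤ rdet e x ∧ rdet e x < lo + wd (pset P) e) ∧
  (Iv (pset P) e → ∀ d : ℝ, |d| < wd (pset P) e →
    ∃ x ∈ interior (pset P), ∃ y ∈ interior (pset P), d = rdet e x - rdet e y)

/-! ## B. Tilings -/

/-- SEP. The translation vectors are uniformly discrete. -/
def T_SEP : Prop := ∀ P, PB P → ∃ ρ > (0 : ℝ), ∀ T : Set V,
  (∀ t ∈ T, ∀ t' ∈ T, ∀ z, z - t ∈ interior (pset P) → z - t' ∈ interior (pset P) → t = t') →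
  (∀ t ∈ T, ∀ t' ∈ T, t ≠ t' → ρ ≤ ‖t - t'‖) ∧ ∀ R : ℝ, {t | t ∈ T ∧ ‖t‖ ≤ R}.Finite

/-- TE. A tiling is an exact cover for every flag. Existence: the points `z + s u + s^2 v`, `s`
small, are in finitely many tiles, one of them contains points with arbitrarily small `s`; INTF.
Uniqueness: the two tiles would have a common interior point. -/
def T_TE : Prop := ∀ P, PB P → ∀ T : Set V, Til (pset P) T → ∀ u v : V, rdet u v ≠ 0 →
  ECov (fset P u v) T

/-- ET. An exact cover for one flag is a tiling. -/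
def T_ET : Prop := ∀ P, PB P → ∀ T : Set V, ∀ u v : V, rdet u v ≠ 0 → ECov (fset P u v) T →
  Til (pset P) T

/-! ## C. Corners -/

/-- CRF. Finitely many crossing points. -/
def T_CRF : Prop := ∀ P : Finset (Finset HPl), (crs P).Finite

/-- KKD. The corner function vanishes outside the crossing points. (All the lines through `x` are
parallel: if to `e` then `(e, ±n)` and `(-e, ±n)` agree, otherwise `(e, n)` and `(e, -n)` agree.) -/
def T_KKD : Prop := ∀ P, PB P → ∀ e n x : V, rdet e n ≠ 0 → kk P e n x ≠ 0 → x ∈ cD P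

/-- NZ. There is a nonzero corner. Choose an interior point `x₀` and `u` such that the line
`x₀ + ℝ u` contains no crossing point; it leaves the body at `x₁`; the lines through `x₁` are
parallel to one direction `e`, and `x₁` is in exactly one of `(e, n)`, `(e, -n)`. If `kk P e n = 0`
everywhere then by LOC the jump `ii (fset P e n) - ii (fset P e (-n))` is constant along
`x₁ + ℝ e`, which is impossible for a bounded body. -/
def T_NZ : Prop := ∀ P, PB P → ∃ e n x : V, rdet e n ≠ 0 ∧ kk P e n x ≠ 0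

/-- SUM. The sum of the corners of the tiles in `K`. -/
def T_SUM : Prop := ∀ P, PB P → ∀ T K : Set V, Til (pset P) T → K ⊆ T → ∀ e n z : V,
  rdet e n ≠ 0 → cs P e n K z =
    ii (cv P e n K) z - ii (cv P e (-n) K) z - ii (cv P (-e) n K) z + ii (cv P (-e) (-n) K) z

/-- REL. The relation (`OL.special`, NZ). -/
def T_REL : Prop := ∀ P, PB P → ∃ L : List V, (∀ w ∈ L, w ≠ 0) ∧
  ∀ K : Set V, Cf P K → difs L (ii K) = 0

/-- CFT. Tilings and half planes are corner free. -/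
def T_CFT : Prop := ∀ P, PB P → ∀ T : Set V, Til (pset P) T →
  Cf P T ∧ ∀ (e : V) (c : ℝ), e ≠ 0 → SF (pset P) e T c → Cf P (Abv (pset P) e T c)

/-- PFLC (theorem R5). REL, CFT, TE, `PTL.T_FLCR`, ET. -/
def T_PFLC : Prop := ∀ P, PB P → ∀ T : Set V, Til (pset P) T → FLC T → TDP (pset P)

/-! ## D. Ultralimits -/

/-- ULT. Limits of tilings are tilings, and there are displacements. -/
def T_ULT : Prop := ∀ P, PB P → ∀ (U : Ultrafilter ℕ) (Tn : ℕ → Set V),
  (∀ n, Til (pset P) (Tn n)) → Til (pset P) (Lim U Tn) ∧ ∃ δ, Ds U Tn δ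

/-- ULB. Bounded sequences of tiles. -/
def T_ULB : Prop := ∀ P, PB P → ∀ (U : Ultrafilter ℕ) (Tn : ℕ → Set V),
  (∀ n, Til (pset P) (Tn n)) → ∀ δ, Ds U Tn δ → ∀ (f : ℕ → V) (R : ℝ),
  (∀ᶠ n in (U : Filter ℕ), f n ∈ Tn n) → (∀ᶠ n in (U : Filter ℕ), ‖f n‖ ≤ R) →
  ∃ t ∈ Lim U Tn, ∀ᶠ n in (U : Filter ℕ), f n = t + δ t n

/-- CLS. Classes of displacements are corner free. For almost all `n`: `z - v` is in the class iff
`z + g n - v ∈ Tn n`, for the finitely many `v ∈ cD P`; CFT for `Tn n`. -/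
def T_CLS : Prop := ∀ P, PB P → ∀ (U : Ultrafilter ℕ) (Tn : ℕ → Set V),
  (∀ n, Til (pset P) (Tn n)) → ∀ δ, Ds U Tn δ → ∀ g : ℕ → V,
  Tendsto g (U : Filter ℕ) (𝓝 0) →
  Cf P {t | t ∈ Lim U Tn ∧ ∀ᶠ n in (U : Filter ℕ), δ t n = g n}

/-- SFL. Faults pass to the limit. -/
def T_SFL : Prop := ∀ P, PB P → ∀ (U : Ultrafilter ℕ) (Tn : ℕ → Set V) (e : V) (c : ℝ),
  e ≠ 0 → (∀ n, SF (pset P) e (Tn n) c) → SF (pset P) e (Lim U Tn) c

/-! ## E. The sliding lemma -/

/-- JD. The jump of the displacement across the direction `e` is parallel to `e`: row 2604 (3).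
Replace `z` by `z + s e`, `s > 0` small and such that all the bounding lines through `z` of the
(finitely many) tiles near `z` are parallel to `e`; then `t`, `t'` are the only tiles containing
`z` (EDGE, TE). In `Tn n` the `(e, -n)`-tile of `z + δ t n` is, by ULB and closedness, the tile
`t'' + δ t'' n` with `t'' = t` or `t'`, hence `t'' = t'`; so `z - t' + (δ t n - δ t' n)` is in
`fset P e (-n)` and not in `fset P e n`; LINF and a limit. -/
def T_JD : Prop := ∀ P, PB P → ∀ (U : Ultrafilter ℕ) (Tn : ℕ → Set V),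
  (∀ n, Til (pset P) (Tn n)) → ∀ δ, Ds U Tn δ → ∀ e n z t t' : V, rdet e n ≠ 0 →
  t ∈ Lim U Tn → t' ∈ Lim U Tn → z - t ∈ fset P e n → z - t' ∈ fset P e (-n) →
  ∀ᶠ m in (U : Filter ℕ), rdet e (δ t m) = rdet e (δ t' m)

/-- FOUR. The four term relation for the classes. SUM and CLS for the class of `t` and the class
of `t'`. -/
def T_FOUR : Prop := ∀ P, PB P → ∀ (U : Ultrafilter ℕ) (Tn : ℕ → Set V),
  (∀ n, Til (pset P) (Tn n)) → ∀ δ, Ds U Tn δ → ∀ e n z t t' s s' : V, rdet e n ≠ 0 →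
  t ∈ Lim U Tn → t' ∈ Lim U Tn → s ∈ Lim U Tn → s' ∈ Lim U Tn →
  z - t ∈ fset P e n → z - t' ∈ fset P e (-n) → z - s ∈ fset P (-e) n →
  z - s' ∈ fset P (-e) (-n) → ¬ Sm U δ t t' → Sm U δ t s ∧ Sm U δ t' s'

/-- FF. The abstract sliding lemma: flag functions. `F u v z` is only used for `rdet u v ≠ 0`. -/
def T_FF : Prop := ∀ (A : Type) (F : V → V → V → A) (Par : V → A → A → Prop) (D : V → Prop),
  (∀ u v, rdet u v ≠ 0 → ∃ ε₀ > (0 : ℝ), ∀ ε : ℝ, 0 < ε → ε < ε₀ →
    ∀ w, rdet (u + ε • v) w ≠ 0 → ∀ z, F (u + ε • v) w z = F u v z) →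
  (∀ u v (l m k : ℝ), 0 < l → 0 < m → rdet u v ≠ 0 → ∀ z,
    F (l • u) (m • v + k • u) z = F u v z) →
  (∀ u v z, rdet u v ≠ 0 → ∃ ε₀ > (0 : ℝ), ∀ s : ℝ, 0 < s → s < ε₀ →
    F u v (z + s • u) = F u v z ∧ F (-u) v (z + s • u) = F u v z) →
  (∀ e n z, rdet e n ≠ 0 → F e n z ≠ F e (-n) z →
    F (-e) n z = F e n z ∧ F (-e) (-n) z = F e (-n) z) →
  (∀ e n z, rdet e n ≠ 0 → Par e (F e n z) (F e (-n) z)) →
  (∀ e, Equivalence (Par e)) → (∀ e (c : ℝ) a b, c ≠ 0 → Par (c • e) a b → Par e a b) →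
  (∀ e e' a b, rdet e e' ≠ 0 → Par e a b → Par e' a b → a = b) →
  (∀ e n z, rdet e n ≠ 0 → F e n z ≠ F e (-n) z → D e) →
  (∀ u v u' v' z z', rdet u v ≠ 0 → rdet u' v' ≠ 0 → F u v z = F u' v' z') ∨
  ∃ e, e ≠ 0 ∧ D e ∧
    (∀ u v u' v' z z', rdet u v ≠ 0 → rdet u' v' ≠ 0 → Par e (F u v z) (F u' v' z')) ∧
    ∀ u v u' v' z z', rdet u v ≠ 0 → rdet u' v' ≠ 0 → rdet e z = rdet e z' →
      (sd e u v ↔ sd e u' v') → F u v z = F u' v' z'

/-- SLIDE. The sliding lemma. `FF` with `A = Germ U V`, `F u v z` the germ of `δ t` for the tile `t`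
of the flag `(u, v)` at `z` (TE), `Par e a b` iff `rdet e` of the two germs agree, `D = IsDir P`;
PERT, SCAL, LOC, FOUR, JD, DIRF. -/
def T_SLIDE : Prop := ∀ P, PB P → ∀ (U : Ultrafilter ℕ) (Tn : ℕ → Set V),
  (∀ n, Til (pset P) (Tn n)) → ∀ δ, Ds U Tn δ →
  (∀ t ∈ Lim U Tn, ∀ t' ∈ Lim U Tn, Sm U δ t t') ∨ ∃ e, IsDir P e ∧ Sl P U Tn δ e

/-- FC. Faults between classes. `a` = supremum of the heights of the tiles of the class of `t` which
are below `t'`; `rdet e t' ≥ a + wd`, no tile has its height in `(a, a + wd)`. -/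
def T_FC : Prop := ∀ P, PB P → ∀ e : V, e ≠ 0 → Iv (pset P) e → ∀ (T : Set V)
  (R : V → V → Prop), (∀ t ∈ T, ∀ t' ∈ T, R t t' → R t' t) →
  (∀ t ∈ T, ∀ t' ∈ T, ∀ t'' ∈ T, R t t' → R t' t'' → R t t'') →
  (∀ t ∈ T, ∀ t' ∈ T, ∀ x ∈ interior (pset P), ∀ y ∈ interior (pset P),
    rdet e (t + x) = rdet e (t' + y) → R t t') →
  ∀ t ∈ T, ∀ t' ∈ T, ¬ R t t' → rdet e t ≤ rdet e t' →
  ∃ c, SF (pset P) e T c ∧ (∀ x ∈ pset P, rdet e (t + x) ≤ c) ∧
    ∀ x ∈ pset P, c ≤ rdet e (t' + x)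

/-- SLF. Sliding gives a fault: FC with `R = Sm U δ`, for tiles whose interiors meet a common line
parallel to `e` (the flag `(u, v)` at an interior point). -/
def T_SLF : Prop := ∀ P, PB P → ∀ (U : Ultrafilter ℕ) (Tn : ℕ → Set V),
  (∀ n, Til (pset P) (Tn n)) → ∀ δ, Ds U Tn δ → ∀ e, e ≠ 0 → Iv (pset P) e → Sl P U Tn δ e →
  ∀ t ∈ Lim U Tn, ∀ t' ∈ Lim U Tn, ¬ Sm U δ t t' →
  (∃ c, SF (pset P) e (Lim U Tn) c ∧ (∀ x ∈ pset P, rdet e (t + x) ≤ c) ∧
    ∀ x ∈ pset P, c ≤ rdet e (t' + x)) ∨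
  ∃ c, SF (pset P) e (Lim U Tn) c ∧ (∀ x ∈ pset P, rdet e (t' + x) ≤ c) ∧
    ∀ x ∈ pset P, c ≤ rdet e (t + x)

/-! ## F. No faults -/

/-- A0. A tiling which is not of finite local complexity gives a tiling with a fault. Infinitely
many differences `d n` (injective), `t n ∈ T`, `t n + d n ∈ T`; `Tn n = {z | z + t n ∈ T}`,
`U = hyperfilter ℕ`; ULB gives the limits `0` and `t'`, `Sm` fails since `d n = t' + δ t' n - δ 0 n`
is injective; SLIDE, SLF. -/
def T_A0 : Prop := ∀ P, PB P → (∀ e, IsDir P e → Iv (pset P) e) → ∀ T : Set V,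
  Til (pset P) T → ¬ FLC T → ∃ e, IsDir P e ∧ ∃ T' c, Til (pset P) T' ∧ SF (pset P) e T' c

/-! ## G. Strips -/

/-- STA. The tiles between two faults. -/
def T_STA : Prop := ∀ P, PB P → ∀ e : V, e ≠ 0 → ∀ (T : Set V) (c c' : ℝ),
  Til (pset P) T → c < c' → SF (pset P) e T c → SF (pset P) e T c' →
  ∃ T', Stp (pset P) e (c' - c) T'

/-- STB. A strip is at least as wide as the body; an inner fault of a strip gives a narrower
strip, with an inner fault at distance at least `wd` from both sides. -/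
def T_STB : Prop := ∀ P, PB P → ∀ e : V, e ≠ 0 → ∀ (T : Set V) (h : ℝ), Stp (pset P) e h T →
  wd (pset P) e ≤ h ∧ ∀ c, 0 < c → c < h → SF (pset P) e T c →
    wd (pset P) e ≤ h - c ∧ ∃ T', Stp (pset P) e c T'

/-- STK. The stack of a strip. -/
def T_STK : Prop := ∀ P, PB P → ∀ e w : V, ∀ (T : Set V) (h : ℝ), Stp (pset P) e h T →
  rdet e w = h → Til (pset P) (Stk w T) ∧ Per w (Stk w T) ∧
    ∀ k : ℤ, SF (pset P) e (Stk w T) (k * h)

/-- STZ. Row 2604 (8), second case. If all the tilings `Tn n` have the faults `k h`, `k ∈ ℤ`, and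
`e'` is a slide direction not parallel to `e`, then all displacements are equal. For `t` in the
limit and an interior point `y` of `t + C` let `y₀` be the point on the line of `y` in the direction `e'`
with height `k h ≤ rdet e y`. The tiles `t₂`, `t₃` of the flags `(e, n)`, `(e, -n)` at `y₀`
(`rdet e n > 0`): the displacement of `t` and of `t₂` agree if `n` is chosen parallel to `e'`
(sides with respect to `e'` of the flags `(e, n)` at `y₀` and at `y` agree: same flag), JD gives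
`rdet e (δ t₂) = rdet e (δ t₃)`, and `rdet e (δ t₂) ≥ 0 ≥ rdet e (δ t₃)` because `t₂ + C` touches
the fault from above (its point `y₀`) and `t₂ + δ + C` stays above it. -/
def T_STZ : Prop := ∀ P, PB P → ∀ (U : Ultrafilter ℕ) (Tn : ℕ → Set V),
  (∀ n, Til (pset P) (Tn n)) → ∀ δ, Ds U Tn δ → ∀ e e' : V, rdet e e' ≠ 0 → ∀ h : ℝ, 0 < h →
  (∀ n, ∀ k : ℤ, SF (pset P) e (Tn n) (k * h)) → Sl P U Tn δ e' →
  ∀ t ∈ Lim U Tn, ∀ t' ∈ Lim U Tn, Sm U δ t t'

/-- STF. A strip of height `h` such that no tiling of a strip of height `h` has an inner fault: the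
stack has finite local complexity. Row 2604 (8). -/
def T_STF : Prop := ∀ P, PB P → (∀ e, IsDir P e → Iv (pset P) e) → ∀ e, IsDir P e →
  ∀ h : ℝ, (∀ T, Stp (pset P) e h T → ∀ c, 0 < c → c < h → ¬ SF (pset P) e T c) →
  ∀ T w, Stp (pset P) e h T → rdet e w = h → FLC (Stk w T)

/-- A1. Two parallel faults: there is a doubly periodic tiling. STA; a strip with `⌊h / wd⌋`
minimal has no inner fault (STB); STF, STK, TE, `per_case`, ET. -/
def T_A1 : Prop := ∀ P, PB P → (∀ e, IsDir P e → Iv (pset P) e) → ∀ e, IsDir P e →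
  ∀ (T : Set V) (c c' : ℝ), Til (pset P) T → c < c' → SF (pset P) e T c → SF (pset P) e T c' →
  TDP (pset P)

/-! ## H. Half planes -/

/-- No tiling has two parallel faults. -/
def NS (P : Finset (Finset HPl)) : Prop := ∀ e, IsDir P e → ∀ (T : Set V) (c c' : ℝ),
  Til (pset P) T → c < c' → SF (pset P) e T c → SF (pset P) e T c' → False

/-- INJ. Differences which are not parallel to `e` are injective on functions supported in a half
plane; the others preserve the half plane (induction on `L` as `PTR.hor_only`, `L'` = filter). -/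
def T_INJ : Prop := ∀ (e : V) (L : List V), e ≠ 0 →
  ∃ L' : List V, (∀ w ∈ L', w ∈ L ∧ rdet e w = 0) ∧
    ∀ f : V → ℤ, (∃ b : ℝ, ∀ z, f z ≠ 0 → b ≤ rdet e z) → difs L f = 0 → difs L' f = 0

/-- HRL. The half plane has a relation in the direction `e` only. CFT, REL, INJ. -/
def T_HRL : Prop := ∀ P, PB P → ∀ (T : Set V) (e : V) (c : ℝ), e ≠ 0 → Til (pset P) T →
  SF (pset P) e T c →
  ∃ L : List V, (∀ w ∈ L, w ≠ 0 ∧ rdet e w = 0) ∧ difs L (ii (Abv (pset P) e T c)) = 0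

/-- HW. Windows of the half plane have finite local complexity. Row 2604 (9)(W). -/
def T_HW : Prop := ∀ P, PB P → (∀ e, IsDir P e → Iv (pset P) e) → NS P → ∀ e, IsDir P e →
  ∀ (T : Set V) (c : ℝ), Til (pset P) T → SF (pset P) e T c → ∀ R : ℝ,
  {d | ‖d‖ ≤ R ∧ |rdet e d| < wd (pset P) e ∧
    ∃ t ∈ Abv (pset P) e T c, t + d ∈ Abv (pset P) e T c}.Finite

/-- HP. The half plane is periodic. As `PTR.core`: every row is periodic with one of finitely many
pairwise incommensurable periods (`one_period`, `inc_list`), rows of heights differing by less than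
`wd` have the same one (`inc_false`), and FC connects all rows (another fault above `c`
contradicts `NS`). -/
def T_HP : Prop := ∀ P, PB P → (∀ e, IsDir P e → Iv (pset P) e) → NS P → ∀ e, IsDir P e →
  ∀ (T : Set V) (c : ℝ), Til (pset P) T → SF (pset P) e T c →
  ∃ p : V, p ≠ 0 ∧ rdet e p = 0 ∧ Per p (Abv (pset P) e T c)

/-- GLU. `PTR.glue_os` with a cover of one band only (same proof). -/
def T_GLU : Prop := ∀ (C T : Set V) (p v : V) (α β f : ℝ), (∀ z, z + p ∈ T ↔ z ∈ T) →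
  (∀ z ∈ C, α ≤ rdet p z ∧ rdet p z < β) → 0 < rdet p v → β - α ≤ rdet p v →
  (∀ w : V, f - β < rdet p w → rdet p w < f - α → (w + v ∈ T ↔ w ∈ T)) →
  (∀ z, f ≤ rdet p z → rdet p z < f + rdet p v → ∃! t, t ∈ T ∧ z - t ∈ C) →
  ∃ T' : Set V, Per p T' ∧ Per v T' ∧ ECov C T'

/-- HG. Pigeonhole and gluing. `C = fset P u₀ v₀` with `rdet e u₀ > 0` (WD, TE; a point of height
`≥ c` is in a tile of `T⁺` for this flag by INTF); `p` replaced by `-p` if necessary. For tiles `t`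
high enough the set `{d | |rdet e d| < wd, t + d ∈ T⁺}` is determined by its part with `‖d‖ ≤ R` (period
`p`): finitely many patterns; two tiles `t`, `t'` with `rdet e (t' - t) ≥ wd` and the same pattern;
`v = t' - t`; GLU with the window `rdet e t - wd < rdet e w < rdet e t + wd` containing the window
of GLU; ET. -/
def T_HG : Prop := ∀ P, PB P → ∀ e : V, e ≠ 0 → ∀ (T : Set V) (c : ℝ), Til (pset P) T →
  SF (pset P) e T c → (∀ R : ℝ, {d | ‖d‖ ≤ R ∧ |rdet e d| < wd (pset P) e ∧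
    ∃ t ∈ Abv (pset P) e T c, t + d ∈ Abv (pset P) e T c}.Finite) →
  ∀ p : V, p ≠ 0 → rdet e p = 0 → Per p (Abv (pset P) e T c) → TDP (pset P)

/-! ## Main theorem -/

/-- R6. If `NS P` fails then A1. Otherwise, if some tiling has a fault then HW, HP, HG; if no tiling
has a fault then A0 and PFLC. -/
def T_R6 : Prop := ∀ P, PB P → (∀ e, IsDir P e → Iv (pset P) e) → (∃ T, Til (pset P) T) →
  TDP (pset P)

end Pool.Agent.PTP
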