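import Pool.Agent.PTP.Targets

/-!
# The abstract sliding lemma
-/

set_option autoImplicit false

namespace Pool.Agent.PTP

open Pool.Agent.PTR Filter Topology
open Pool.Agent.PTR.OL (V ii dif difs FLC InHull)

/-- A locally constant function on the line is constant. -/
lemma lc_const {A : Type} (f : ℝ → A)
    (h : ∀ s : ℝ, ∃ ε > (0 : ℝ), ∀ s' : ℝ, 0 < s' → s' < ε →
      f (s + s') = f s ∧ f (s - s') = f s) (s s' : ℝ) :
    f s = f s' := by
  have hl : IsLocallyConstant f := by
    rw [IsLocallyConstant.iff_eventually_eq]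
    intro x
    obtain ⟨ε, hε, hh⟩ := h x
    filter_upwards [Metric.ball_mem_nhds x hε] with y hy
    rw [Metric.mem_ball, Real.dist_eq] at hy
    rcases lt_trichotomy y x with h1 | h1 | h1
    · have := (hh (x - y) (by linarith) (by
        rw [abs_sub_comm, abs_of_pos (by linarith)] at hy; exact hy)).2
      rwa [sub_sub_cancel] at this
    · rw [h1]
    · have := (hh (y - x) (by linarith) (by rw [abs_of_pos (by linarith)] at hy; exact hy)).1
      rwa [add_sub_cancel] at this
  exact hl.apply_eq_of_preconnectedSpace s s'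

/-- rotation by a right angle -/
def J9 (u : V) : V := (-u.2, u.1)

lemma rdet_J9 {u : V} (hu : u ≠ 0) : 0 < rdet u (J9 u) := by
  have e : rdet u (J9 u) = u.1 ^ 2 + u.2 ^ 2 := by simp only [rdet, J9]; ring
  rw [e]
  rcases eq_or_ne u.1 0 with h | h
  · have h2 : u.2 ≠ 0 := fun h2 => hu (Prod.ext h h2)
    positivity
  · positivity

lemma rdet_smul_l (a : ℝ) (u v : V) : rdet (a • u) v = a * rdet u v := by
  simp only [rdet, Prod.smul_fst, Prod.smul_snd, smul_eq_mul]; ring

lemma rdet_smul_r (a : ℝ) (u v : V) : rdet u (a • v) = a * rdet u v := by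
  simp only [rdet, Prod.smul_fst, Prod.smul_snd, smul_eq_mul]; ring

lemma rdet_neg_l (u v : V) : rdet (-u) v = -rdet u v := by
  simp only [rdet, Prod.fst_neg, Prod.snd_neg]; ring

lemma rdet_neg_r (u v : V) : rdet u (-v) = -rdet u v := by
  simp only [rdet, Prod.fst_neg, Prod.snd_neg]; ring

lemma rdet_add_l (u w v : V) : rdet (u + w) v = rdet u v + rdet w v := by
  simp only [rdet, Prod.fst_add, Prod.snd_add]; ring

lemma rdet_swap (u v : V) : rdet u v = -rdet v u := by simp only [rdet]; ring

lemma ne_of_rdet {u v : V} (h : rdet u v ≠ 0) : u ≠ 0 := by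
  rintro rfl
  apply h
  simp [rdet]

/-- Coordinates with respect to a basis. -/
lemma coords {u v : V} (h : rdet u v ≠ 0) (w : V) :
    w = (rdet w v / rdet u v) • u + (rdet u w / rdet u v) • v := by
  ext
  · simp only [Prod.fst_add, Prod.smul_fst, smul_eq_mul]
    field_simp
    simp only [rdet]; ring
  · simp only [Prod.snd_add, Prod.smul_snd, smul_eq_mul]
    field_simp
    simp only [rdet]; ring

/-- parallel vectors -/
lemma par_of {e w : V} (he : e ≠ 0) (h : rdet e w = 0) : ∃ c : ℝ, w = c • e := by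
  have h1 := coords (rdet_J9 he).ne' w
  rw [h, zero_div, zero_smul, add_zero] at h1
  exact ⟨_, h1⟩

/-- Flag functions. -/
structure FlagF {A : Type} (F : V → V → V → A) : Prop where
  pert : ∀ u v, rdet u v ≠ 0 → ∃ ε₀ > (0 : ℝ), ∀ ε : ℝ, 0 < ε → ε < ε₀ →
    ∀ w, rdet (u + ε • v) w ≠ 0 → ∀ z, F (u + ε • v) w z = F u v z
  scal : ∀ u v (l m k : ℝ), 0 < l → 0 < m → rdet u v ≠ 0 → ∀ z,
    F (l • u) (m • v + k • u) z = F u v z
  loc : ∀ u v z, rdet u v ≠ 0 → ∃ ε₀ > (0 : ℝ), ∀ s : ℝ, 0 < s → s < ε₀ →
    F u v (z + s • u) = F u v z ∧ F (-u) v (z + s • u) = F u v z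

namespace FlagF

variable {A : Type} {F : V → V → V → A}

/-- The second vector matters only through its side. -/
lemma side (hF : FlagF F) {u v w : V} (hv : rdet u v ≠ 0) (hw : rdet u w ≠ 0)
    (hs : 0 < rdet u v * rdet u w) (z : V) : F u v z = F u w z := by
  have h1 := coords hw v
  have hm : 0 < rdet u v / rdet u w := by
    have : rdet u v / rdet u w = (rdet u v * rdet u w) / (rdet u w) ^ 2 := by
      field_simp
    rw [this]
    positivity
  have h2 := hF.scal u w 1 (rdet u v / rdet u w) (rdet v w / rdet u w) one_pos hm hw z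
  rw [one_smul, add_comm, ← h1] at h2
  exact h2

lemma side_or (hF : FlagF F) {u v w : V} (hv : rdet u v ≠ 0) (hw : rdet u w ≠ 0) (z : V) :
    F u v z = F u w z ∨ F u v z = F u (-w) z := by
  rcases lt_or_gt_of_ne (mul_ne_zero hv hw) with h | h
  · right
    exact hF.side hv (by rw [rdet_neg_r]; exact neg_ne_zero.2 hw)
      (by rw [rdet_neg_r]; linarith) z
  · left
    exact hF.side hv hw h z

/-- A flag function without jumps at the direction `u`. -/
lemma nj (hF : FlagF F) {u : V} {z : V} (h : ∀ n, rdet u n ≠ 0 → F u n z = F u (-n) z) {v w : V}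
    (hv : rdet u v ≠ 0) (hw : rdet u w ≠ 0) : F u v z = F u w z := by
  rcases hF.side_or hv hw z with h1 | h1
  · exact h1
  · rw [h1, h w hw]

lemma scal1 (hF : FlagF F) {u v : V} {l : ℝ} (hl : 0 < l) (h : rdet u v ≠ 0) (z : V) :
    F (l • u) v z = F u v z := by
  have := hF.scal u v l 1 0 hl one_pos h z
  rwa [one_smul, zero_smul, add_zero] at this

/-- Without jumps the function is constant on the flags at a point. -/
lemma nj_rot (hF : FlagF F) (h : ∀ e n z, rdet e n ≠ 0 → F e n z = F e (-n) z) (z : V)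
    {u u' v v' : V} (huu : rdet u u' ≠ 0) (hv : rdet u v ≠ 0) (hv' : rdet u' v' ≠ 0) :
    F u v z = F u' v' z := by
  set d : V := u' - u with hd'
  set w : ℝ → V := fun x => u + x • d with hw
  have hwd : ∀ x, rdet (w x) d ≠ 0 := by
    intro x
    have : rdet (w x) d = rdet u u' := by
      simp only [hw, hd', rdet, Prod.fst_add, Prod.snd_add, Prod.smul_fst, Prod.smul_snd,
        smul_eq_mul, Prod.fst_sub, Prod.snd_sub]
      ring
    rw [this]; exact huu
  have hnd : ∀ x, rdet (w x) (-d) ≠ 0 := fun x => by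
    rw [rdet_neg_r]; exact neg_ne_zero.2 (hwd x)
  have key := lc_const (fun x => F (w x) d z) (by
    intro x
    obtain ⟨ε, hε, h1⟩ := hF.pert (w x) d (hwd x)
    obtain ⟨ε', hε', h2⟩ := hF.pert (w x) (-d) (hnd x)
    refine ⟨min ε ε', lt_min hε hε', fun s hs hs' => ⟨?_, ?_⟩⟩
    · have e : w (x + s) = w x + s • d := by simp only [hw]; module
      have := h1 s hs (lt_of_lt_of_le hs' (min_le_left _ _)) d (by rw [← e]; exact hwd _) z
      rw [← e] at this
      exact this
    · have e : w (x - s) = w x + s • (-d) := by simp only [hw]; module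
      have := h2 s hs (lt_of_lt_of_le hs' (min_le_right _ _)) d (by rw [← e]; exact hwd _) z
      rw [← e] at this
      rw [this]
      exact (h _ _ _ (hwd x)).symm) 0 1
  have e0 : w 0 = u := by simp [hw]
  have e1 : w 1 = u' := by simp [hw, hd']
  simp only [e0, e1] at key
  rw [hF.nj (fun n hn => h _ _ _ hn) hv (by rw [← e0]; exact hwd 0), key]
  exact hF.nj (fun n hn => h _ _ _ hn) (by rw [← e1]; exact hwd 1) hv'

lemma nj_pt (hF : FlagF F) (h : ∀ e n z, rdet e n ≠ 0 → F e n z = F e (-n) z) (z : V)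
    {u u' v v' : V} (hv : rdet u v ≠ 0) (hv' : rdet u' v' ≠ 0) :
    F u v z = F u' v' z := by
  by_cases huu : rdet u u' = 0
  · have hu : u ≠ 0 := ne_of_rdet hv
    have h1 := (rdet_J9 hu).ne'
    obtain ⟨c, hc⟩ := par_of hu huu
    have hc0 : c ≠ 0 := by
      rintro rfl
      rw [zero_smul] at hc
      exact ne_of_rdet hv' hc
    have h2 : rdet (J9 u) u' ≠ 0 := by
      rw [hc, rdet_smul_r, rdet_swap]
      exact mul_ne_zero hc0 (neg_ne_zero.2 h1)
    have h3 : rdet (J9 u) u ≠ 0 := by rw [rdet_swap]; exact neg_ne_zero.2 h1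
    rw [hF.nj_rot h z h1 hv h3, hF.nj_rot h z h2 h3 hv']
  · exact hF.nj_rot h z huu hv hv'

/-- Without jumps the function is constant. -/
lemma nj_const (hF : FlagF F) (h : ∀ e n z, rdet e n ≠ 0 → F e n z = F e (-n) z)
    {u u' v v' : V} (z z' : V) (hv : rdet u v ≠ 0) (hv' : rdet u' v' ≠ 0) :
    F u v z = F u' v' z' := by
  rcases eq_or_ne z z' with rfl | hz
  · exact hF.nj_pt h z hv hv'
  · set d : V := z' - z with hd'
    have hd0 : d ≠ 0 := sub_ne_zero.2 hz.symm
    have h1 := (rdet_J9 hd0).ne'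
    have h1' : rdet (-d) (J9 d) ≠ 0 := by rw [rdet_neg_l]; exact neg_ne_zero.2 h1
    have key := lc_const (fun s : ℝ => F d (J9 d) (z + s • d)) (by
      intro s
      obtain ⟨ε, hε, g1⟩ := hF.loc d (J9 d) (z + s • d) h1
      obtain ⟨ε', hε', g2⟩ := hF.loc (-d) (J9 d) (z + s • d) h1'
      refine ⟨min ε ε', lt_min hε hε', fun r hr hr' => ⟨?_, ?_⟩⟩
      · have := (g1 r hr (lt_of_lt_of_le hr' (min_le_left _ _))).1
        rw [← this]
        congr 1
        module
      · have := (g2 r hr (lt_of_lt_of_le hr' (min_le_right _ _))).2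
        rw [neg_neg] at this
        rw [show z + (s - r) • d = z + s • d + r • (-d) by module, this]
        exact hF.nj_pt h _ h1' h1) 0 1
    simp only [zero_smul, add_zero, one_smul] at key
    rw [show z + d = z' by simp [hd']] at key
    rw [hF.nj_pt h z hv h1, key, hF.nj_pt h z' h1 hv']

/-- Jumps are propagated along lines. -/
lemma line (hF : FlagF F)
    (hc : ∀ e n z, rdet e n ≠ 0 → F e n z ≠ F e (-n) z →
      F (-e) n z = F e n z ∧ F (-e) (-n) z = F e (-n) z)
    {e n z : V} {a b : A} (hn : rdet e n ≠ 0) (hab : a ≠ b) (ha : F e n z = a)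
    (hb : F e (-n) z = b) (s : ℝ) :
    F e n (z + s • e) = a ∧ F e (-n) (z + s • e) = b := by
  have hn1 : rdet e (-n) ≠ 0 := by rw [rdet_neg_r]; exact neg_ne_zero.2 hn
  have hn2 : rdet (-e) n ≠ 0 := by rw [rdet_neg_l]; exact neg_ne_zero.2 hn
  have hn3 : rdet (-e) (-n) ≠ 0 := by rw [rdet_neg_l]; exact neg_ne_zero.2 hn1
  have key := lc_const (fun s : ℝ => (F e n (z + s • e) = a ∧ F e (-n) (z + s • e) = b)) (by
    intro s
    obtain ⟨ε1, hε1, g1⟩ := hF.loc e n (z + s • e) hn
    obtain ⟨ε2, hε2, g2⟩ := hF.loc e (-n) (z + s • e) hn1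
    obtain ⟨ε3, hε3, g3⟩ := hF.loc (-e) n (z + s • e) hn2
    obtain ⟨ε4, hε4, g4⟩ := hF.loc (-e) (-n) (z + s • e) hn3
    refine ⟨min (min ε1 ε2) (min ε3 ε4), by positivity, fun r hr hr' => ⟨?_, ?_⟩⟩
    · have k1 := (g1 r hr (lt_of_lt_of_le hr' ((min_le_left _ _).trans (min_le_left _ _)))).1
      have k2 := (g2 r hr (lt_of_lt_of_le hr' ((min_le_left _ _).trans (min_le_right _ _)))).1
      rw [show z + (s + r) • e = z + s • e + r • e by module, k1, k2]
    · have k3 := (g3 r hr (lt_of_lt_of_le hr' ((min_le_right _ _).trans (min_le_left _ _)))).2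
      have k4 := (g4 r hr (lt_of_lt_of_le hr' ((min_le_right _ _).trans (min_le_right _ _)))).2
      rw [neg_neg] at k3 k4
      rw [show z + (s - r) • e = z + s • e + r • (-e) by module, k3, k4]
      apply propext
      constructor
      · rintro ⟨h1, h2⟩
        have := hc (-e) n (z + s • e) hn2 (by rw [h1, h2]; exact hab)
        rw [neg_neg, h1, h2] at this
        exact this
      · rintro ⟨h1, h2⟩
        have := hc e n (z + s • e) hn (by rw [h1, h2]; exact hab)
        rw [h1, h2] at this
        exact this) s 0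
  simp only [zero_smul, add_zero] at key
  rw [key]
  exact ⟨ha, hb⟩

/-- No other jump through a jump point. -/
lemma nocross (hF : FlagF F)
    (hc : ∀ e n z, rdet e n ≠ 0 → F e n z ≠ F e (-n) z →
      F (-e) n z = F e n z ∧ F (-e) (-n) z = F e (-n) z)
    (Par : V → A → A → Prop)
    (hj : ∀ e n z, rdet e n ≠ 0 → Par e (F e n z) (F e (-n) z))
    (hp : ∀ e e' a b, rdet e e' ≠ 0 → Par e a b → Par e' a b → a = b)
    {e n z : V} {a b : A} (hn : rdet e n ≠ 0) (hab : a ≠ b) (ha : F e n z = a)
    (hb : F e (-n) z = b) (x : ℝ) :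
    (F (x • e + n) e z = a ∧ F (x • e + n) (-e) z = a) ∧
      (F (-(x • e + n)) e z = b ∧ F (-(x • e + n)) (-e) z = b) := by
  obtain ⟨ha', hb'⟩ := hc e n z hn (by rw [ha, hb]; exact hab)
  rw [ha] at ha'
  rw [hb] at hb'
  set u : ℝ → V := fun x => x • e + n with hu
  have hue : ∀ x, rdet (u x) e ≠ 0 := by
    intro x
    have : rdet (u x) e = - rdet e n := by
      simp only [hu, rdet, Prod.fst_add, Prod.snd_add, Prod.smul_fst, Prod.smul_snd, smul_eq_mul]
      ring
    rw [this]; exact neg_ne_zero.2 hn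
  have hue' : ∀ x, rdet (u x) (-e) ≠ 0 := fun x => by
    rw [rdet_neg_r]; exact neg_ne_zero.2 (hue x)
  have hnue : ∀ x, rdet (-(u x)) e ≠ 0 := fun x => by
    rw [rdet_neg_l]; exact neg_ne_zero.2 (hue x)
  have hnue' : ∀ x, rdet (-(u x)) (-e) ≠ 0 := fun x => by
    rw [rdet_neg_r]; exact neg_ne_zero.2 (hnue x)
  have heu : ∀ x, rdet e (u x) ≠ 0 := fun x => by
    rw [rdet_swap]; exact neg_ne_zero.2 (hue x)
  set G : ℝ → Prop := fun x => (F (u x) e z = a ∧ F (u x) (-e) z = a) ∧
    (F (-(u x)) e z = b ∧ F (-(u x)) (-e) z = b) with hG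
  have er : ∀ x r : ℝ, u (x + r) = u x + r • e := fun x r => by simp only [hu]; module
  have el : ∀ x r : ℝ, u (x - r) = u x + r • (-e) := fun x r => by simp only [hu]; module
  have er' : ∀ x r : ℝ, -(u (x + r)) = -(u x) + r • (-e) := fun x r => by simp only [hu]; module
  have el' : ∀ x r : ℝ, -(u (x - r)) = -(u x) + r • e := fun x r => by simp only [hu]; module
  -- behaviour near a point
  have near : ∀ x : ℝ, ∃ ε > (0 : ℝ), ∀ r : ℝ, 0 < r → r < ε →
      ((F (u (x + r)) e z = F (u x) e z ∧ F (u (x + r)) (-e) z = F (u x) e z) ∧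
        (F (-(u (x + r))) e z = F (-(u x)) (-e) z ∧
          F (-(u (x + r))) (-e) z = F (-(u x)) (-e) z)) ∧
      ((F (u (x - r)) e z = F (u x) (-e) z ∧ F (u (x - r)) (-e) z = F (u x) (-e) z) ∧
        (F (-(u (x - r))) e z = F (-(u x)) e z ∧
          F (-(u (x - r))) (-e) z = F (-(u x)) e z)) := by
    intro x
    obtain ⟨ε1, hε1, g1⟩ := hF.pert (u x) e (hue x)
    obtain ⟨ε2, hε2, g2⟩ := hF.pert (u x) (-e) (hue' x)
    obtain ⟨ε3, hε3, g3⟩ := hF.pert (-(u x)) e (hnue x)
    obtain ⟨ε4, hε4, g4⟩ := hF.pert (-(u x)) (-e) (hnue' x)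
    refine ⟨min (min ε1 ε2) (min ε3 ε4), by positivity, fun r hr hr' => ?_⟩
    have k1 := lt_of_lt_of_le hr' ((min_le_left _ _).trans (min_le_left _ _))
    have k2 := lt_of_lt_of_le hr' ((min_le_left _ _).trans (min_le_right _ _))
    have k3 := lt_of_lt_of_le hr' ((min_le_right _ _).trans (min_le_left _ _))
    have k4 := lt_of_lt_of_le hr' ((min_le_right _ _).trans (min_le_right _ _))
    refine ⟨⟨⟨?_, ?_⟩, ⟨?_, ?_⟩⟩, ⟨⟨?_, ?_⟩, ⟨?_, ?_⟩⟩⟩
    · rw [er]; exact g1 r hr k1 e (by rw [← er]; exact hue _) z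
    · rw [er]; exact g1 r hr k1 (-e) (by rw [← er]; exact hue' _) z
    · rw [er']; exact g4 r hr k4 e (by rw [← er']; exact hnue _) z
    · rw [er']; exact g4 r hr k4 (-e) (by rw [← er']; exact hnue' _) z
    · rw [el]; exact g2 r hr k2 e (by rw [← el]; exact hue _) z
    · rw [el]; exact g2 r hr k2 (-e) (by rw [← el]; exact hue' _) z
    · rw [el']; exact g3 r hr k3 e (by rw [← el']; exact hnue _) z
    · rw [el']; exact g3 r hr k3 (-e) (by rw [← el']; exact hnue' _) z
  -- far to the right
  have far : ∃ X : ℝ, ∀ x, X ≤ x → G x := by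
    obtain ⟨ε1, hε1, g1⟩ := hF.pert e n hn
    obtain ⟨ε2, hε2, g2⟩ := hF.pert (-e) (-n) (by
      rw [rdet_neg_l, rdet_neg_r, neg_neg]; exact hn)
    refine ⟨1 / min ε1 ε2 + 1, fun x hx => ?_⟩
    have hm : 0 < min ε1 ε2 := lt_min hε1 hε2
    have hx0 : 0 < x := by have : 0 < 1 / min ε1 ε2 := by positivity
                           linarith
    have hx1 : 1 / x < min ε1 ε2 := by
      rw [div_lt_comm₀ hx0 hm]
      linarith
    have hxi : 0 < 1 / x := by positivity
    have e1 : u x = x • (e + (1 / x) • n) := by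
      simp only [hu]
      rw [smul_add, smul_smul, mul_one_div_cancel hx0.ne', one_smul]
    have e2 : -(u x) = x • (-e + (1 / x) • (-n)) := by
      rw [e1]; module
    have r1 : ∀ w, rdet (u x) w ≠ 0 → rdet (e + (1 / x) • n) w ≠ 0 := by
      intro w hw h0
      rw [e1, rdet_smul_l, h0, mul_zero] at hw
      exact hw rfl
    have r2 : ∀ w, rdet (-(u x)) w ≠ 0 → rdet (-e + (1 / x) • (-n)) w ≠ 0 := by
      intro w hw h0
      rw [e2, rdet_smul_l, h0, mul_zero] at hw
      exact hw rfl
    refine ⟨⟨?_, ?_⟩, ⟨?_, ?_⟩⟩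
    · rw [e1, hF.scal1 hx0 (r1 _ (hue x)),
        g1 _ hxi (lt_of_lt_of_le hx1 (min_le_left _ _)) _ (r1 _ (hue x)), ha]
    · rw [e1, hF.scal1 hx0 (r1 _ (hue' x)),
        g1 _ hxi (lt_of_lt_of_le hx1 (min_le_left _ _)) _ (r1 _ (hue' x)), ha]
    · rw [e2, hF.scal1 hx0 (r2 _ (hnue x)),
        g2 _ hxi (lt_of_lt_of_le hx1 (min_le_right _ _)) _ (r2 _ (hnue x)), hb']
    · rw [e2, hF.scal1 hx0 (r2 _ (hnue' x)),
        g2 _ hxi (lt_of_lt_of_le hx1 (min_le_right _ _)) _ (r2 _ (hnue' x)), hb']
  -- the supremum of the bad set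
  by_contra hbad
  change ¬ G x at hbad
  obtain ⟨X, hX⟩ := far
  set S : Set ℝ := {x | ¬ G x} with hS
  have hne : S.Nonempty := ⟨x, hbad⟩
  have hbd : BddAbove S := ⟨X, fun y hy => by
    by_contra h
    exact hy (hX y (not_le.1 h).le)⟩
  set x1 := sSup S with hx1
  have hgt : ∀ y, x1 < y → G y := by
    intro y hy
    by_contra h
    exact absurd (le_csSup hbd h) (not_le.2 hy)
  obtain ⟨ε, hε, hnear⟩ := near x1
  have hx1S : ¬ G x1 := by
    intro hg
    obtain ⟨y, hy, hy1⟩ := exists_lt_of_lt_csSup hne (show x1 - ε < sSup S by linarith)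
    have hy2 : y ≤ x1 := le_csSup hbd hy
    rcases eq_or_lt_of_le hy2 with h | h
    · exact hy (h ▸ hg)
    · obtain ⟨-, ⟨⟨k1, k2⟩, ⟨k3, k4⟩⟩⟩ := hnear (x1 - y) (by linarith) (by linarith)
      rw [sub_sub_cancel] at k1 k2 k3 k4
      exact hy ⟨⟨k1.trans hg.1.2, k2.trans hg.1.2⟩, ⟨k3.trans hg.2.1, k4.trans hg.2.1⟩⟩
  obtain ⟨⟨⟨k1, -⟩, ⟨-, k4⟩⟩, -⟩ := hnear (ε / 2) (by linarith) (by linarith)
  have hg := hgt (x1 + ε / 2) (by linarith)
  have A1 : F (u x1) e z = a := by rw [← k1]; exact hg.1.1
  have B1 : F (-(u x1)) (-e) z = b := by rw [← k4]; exact hg.2.2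
  have pe : Par e a b := by
    have := hj e n z hn
    rwa [ha, hb] at this
  by_cases h1 : F (u x1) (-e) z = a
  · by_cases h2 : F (-(u x1)) e z = b
    · exact hx1S ⟨⟨A1, h1⟩, ⟨h2, B1⟩⟩
    · have h3 := hc (-(u x1)) e z (hnue x1) (by rw [B1]; exact h2)
      rw [neg_neg, A1] at h3
      have h4 := hj (-(u x1)) e z (hnue x1)
      rw [← h3.1, B1] at h4
      exact hab (hp e (-(u x1)) a b (by rw [rdet_neg_r]; exact neg_ne_zero.2 (heu x1)) pe h4)
  · have h3 := hc (u x1) e z (hue x1) (by rw [A1]; exact fun h => h1 h.symm)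
    rw [B1] at h3
    have h4 := hj (u x1) e z (hue x1)
    rw [A1, ← h3.2] at h4
    exact hab (hp e (u x1) a b (heu x1) pe h4)

end FlagF

theorem p_FF : T_FF := by
  intro A F Par D hpert hscal hloc hc hj heq hps hp hD
  have hF : FlagF F := ⟨hpert, hscal, hloc⟩
  by_cases hnj : ∀ e n z, rdet e n ≠ 0 → F e n z = F e (-n) z
  · left
    intro u v u' v' z z' hv hv'
    exact hF.nj_const hnj z z' hv hv'
  · right
    push Not at hnj
    obtain ⟨e, n, z₀, hn, hab⟩ := hnj
    have he0 : e ≠ 0 := ne_of_rdet hn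
    refine ⟨e, he0, hD e n z₀ hn hab, ?_⟩
    have hline := hF.line hc hn hab rfl rfl
    -- all jumps are parallel to e
    have hall : ∀ e' n' z', rdet e' n' ≠ 0 → F e' n' z' ≠ F e' (-n') z' → rdet e e' = 0 := by
      intro e' n' z' hn' hab'
      by_contra hee
      have hline' := hF.line hc hn' hab' rfl rfl
      have hco := coords hee (z' - z₀)
      set α := rdet (z' - z₀) e' / rdet e e' with hα
      set β := rdet e (z' - z₀) / rdet e e' with hβ
      set y : V := z₀ + α • e with hy
      have hy' : y = z' + (-β) • e' := by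
        have : z' = z₀ + (z' - z₀) := by abel
        rw [this, hco, hy]
        module
      have k1 := hline α
      have k2 := hline' (-β)
      rw [← hy] at k1
      rw [← hy'] at k2
      have hne : F e' n' y ≠ F e' (-n') y := by rw [k2.1, k2.2]; exact hab'
      have hcr := hF.nocross hc Par hj hp hn hab k1.1 k1.2
      have hco2 := coords hn e'
      set c := rdet e e' / rdet e n with hc'
      have hc0 : c ≠ 0 := div_ne_zero hee hn
      set x := (rdet e' n / rdet e n) / c with hx
      have he' : e' = c • (x • e + n) := by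
        rw [hco2]
        rw [smul_add, smul_smul, hx, mul_div_cancel₀ _ hc0]
      have hue : rdet (x • e + n) e ≠ 0 := by
        have : rdet (x • e + n) e = - rdet e n := by
          simp only [rdet, Prod.fst_add, Prod.snd_add, Prod.smul_fst, Prod.smul_snd, smul_eq_mul]
          ring
        rw [this]; exact neg_ne_zero.2 hn
      have hnn' : rdet e' (-n') ≠ 0 := by rw [rdet_neg_r]; exact neg_ne_zero.2 hn'
      rcases lt_or_gt_of_ne hc0 with hneg | hpos
      · have he2 : e' = (-c) • (-(x • e + n)) := by rw [he']; module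
        have g : ∀ w, rdet e' w ≠ 0 → F e' w y = F e (-n) z₀ := by
          intro w hw
          have hw2 : rdet (-(x • e + n)) w ≠ 0 := by
            intro h0
            rw [he2, rdet_smul_l, h0, mul_zero] at hw
            exact hw rfl
          rw [he2, hF.scal1 (by linarith) hw2]
          have hq : rdet (-(x • e + n)) e ≠ 0 := by rw [rdet_neg_l]; exact neg_ne_zero.2 hue
          rcases hF.side_or hw2 hq y with h1 | h1
          · rw [h1]; exact (hcr x).2.1
          · rw [h1]; exact (hcr x).2.2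
        exact hne (by rw [g _ hn', g _ hnn'])
      · have g : ∀ w, rdet e' w ≠ 0 → F e' w y = F e n z₀ := by
          intro w hw
          have hw2 : rdet (x • e + n) w ≠ 0 := by
            intro h0
            rw [he', rdet_smul_l, h0, mul_zero] at hw
            exact hw rfl
          rw [he', hF.scal1 hpos hw2]
          rcases hF.side_or hw2 hue y with h1 | h1
          · rw [h1]; exact (hcr x).1.1
          · rw [h1]; exact (hcr x).1.2
        exact hne (by rw [g _ hn', g _ hnn'])
    have hnoj : ∀ e' n' z', rdet e e' ≠ 0 → rdet e' n' ≠ 0 → F e' n' z' = F e' (-n') z' := by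
      intro e' n' z' h1 h2
      by_contra h3
      exact h1 (hall e' n' z' h2 h3)
    constructor
    · -- all values are related
      let St : Setoid A := ⟨Par e, heq e⟩
      let F' : V → V → V → Quotient St := fun u v z => Quotient.mk St (F u v z)
      have hF' : FlagF F' := by
        refine ⟨fun u v huv => ?_, fun u v l m k hl hm huv z => ?_, fun u v z huv => ?_⟩
        · obtain ⟨ε, hε, h⟩ := hpert u v huv
          exact ⟨ε, hε, fun r hr hr' w hw z => congrArg (Quotient.mk St) (h r hr hr' w hw z)⟩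
        · exact congrArg (Quotient.mk St) (hscal u v l m k hl hm huv z)
        · obtain ⟨ε, hε, h⟩ := hloc u v z huv
          exact ⟨ε, hε, fun r hr hr' => ⟨congrArg (Quotient.mk St) (h r hr hr').1,
            congrArg (Quotient.mk St) (h r hr hr').2⟩⟩
      have hn' : ∀ e' n' z', rdet e' n' ≠ 0 → F' e' n' z' = F' e' (-n') z' := by
        intro e' n' z' h1
        by_cases h2 : F e' n' z' = F e' (-n') z'
        · exact congrArg (Quotient.mk St) h2
        · apply Quotient.sound
          obtain ⟨c, hc'⟩ := par_of he0 (hall e' n' z' h1 h2)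
          have hc0 : c ≠ 0 := by
            rintro rfl
            rw [zero_smul] at hc'
            exact ne_of_rdet h1 hc'
          have h3 := hj e' n' z' h1
          refine hps e c _ _ hc0 ?_
          rw [← hc']
          exact h3
      intro u v u' v' z z' h1 h2
      exact Quotient.exact (hF'.nj_const hn' z z' h1 h2)
    · -- dependence on height and side
      -- a general statement for both sides
      have main : ∀ e : V, e ≠ 0 → (∀ e' n' z', rdet e e' ≠ 0 → rdet e' n' ≠ 0 →
          F e' n' z' = F e' (-n') z') → ∀ u v z, rdet u v ≠ 0 → sd e u v →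
          F u v z = F e (J9 e) z := by
        intro e he hno
        have hJ := rdet_J9 he
        set u : ℝ → V := fun x => x • e + J9 e with hu
        have heu : ∀ x, rdet e (u x) = rdet e (J9 e) := by
          intro x
          simp only [hu, rdet, Prod.fst_add, Prod.snd_add, Prod.smul_fst, Prod.smul_snd,
            smul_eq_mul]
          ring
        have heu0 : ∀ x, rdet e (u x) ≠ 0 := fun x => by rw [heu]; exact hJ.ne'
        have hue : ∀ x, rdet (u x) e ≠ 0 := fun x => by
          rw [rdet_swap, heu]; exact neg_ne_zero.2 hJ.ne'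
        have hue' : ∀ x, rdet (u x) (-e) ≠ 0 := fun x => by
          rw [rdet_neg_r]; exact neg_ne_zero.2 (hue x)
        have hcon : ∀ z x y, F (u x) e z = F (u y) e z := by
          intro z
          refine lc_const (fun x => F (u x) e z) ?_
          intro x
          obtain ⟨ε1, hε1, g1⟩ := hF.pert (u x) e (hue x)
          obtain ⟨ε2, hε2, g2⟩ := hF.pert (u x) (-e) (hue' x)
          refine ⟨min ε1 ε2, lt_min hε1 hε2, fun r hr hr' => ⟨?_, ?_⟩⟩
          · have e1 : u (x + r) = u x + r • e := by simp only [hu]; module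
            rw [e1]
            exact g1 r hr (lt_of_lt_of_le hr' (min_le_left _ _)) e (by rw [← e1]; exact hue _) z
          · have e1 : u (x - r) = u x + r • (-e) := by simp only [hu]; module
            rw [e1, g2 r hr (lt_of_lt_of_le hr' (min_le_right _ _)) e
              (by rw [← e1]; exact hue _) z]
            exact (hno _ _ _ (heu0 x) (hue x)).symm
        -- flags strictly above
        have hup : ∀ w v z, 0 < rdet e w → rdet w v ≠ 0 → F w v z = F (u 0) e z := by
          intro w v z hw hwv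
          have hco := coords hJ.ne' w
          set c := rdet e w / rdet e (J9 e) with hc'
          have hc0 : 0 < c := div_pos hw hJ
          set x := (rdet w (J9 e) / rdet e (J9 e)) / c with hx
          have hw' : w = c • u x := by
            rw [hco]
            simp only [hu]
            rw [smul_add, smul_smul, hx, mul_div_cancel₀ _ hc0.ne']
          have h1 : rdet (u x) v ≠ 0 := by
            intro h0
            rw [hw', rdet_smul_l, h0, mul_zero] at hwv
            exact hwv rfl
          rw [hw', hF.scal1 hc0 h1, hF.nj (fun n hn' => hno _ _ _ (heu0 x) hn') h1 (hue x)]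
          exact hcon z x 0
        have hup2 : ∀ w v z, rdet w v ≠ 0 → sd e w v → F w v z = F (u 0) e z := by
          intro w v z hwv hs
          rcases hs with h | ⟨h, h'⟩
          · exact hup w v z h hwv
          · obtain ⟨ε, hε, g⟩ := hF.pert w v hwv
            have h1 : 0 < rdet e (w + (ε / 2) • v) := by
              rw [rdet_add, rdet_smul_r, h, zero_add]
              positivity
            have h2 : rdet (w + (ε / 2) • v) e ≠ 0 := by
              rw [rdet_swap]; exact neg_ne_zero.2 h1.ne'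
            rw [← g (ε / 2) (by positivity) (by linarith) e h2 z]
            exact hup _ _ _ h1 h2
        intro w v z hwv hs
        have hself : rdet e e = 0 := rdet_self e
        rw [hup2 w v z hwv hs, hup2 e (J9 e) z hJ.ne' (Or.inr ⟨hself, hJ⟩)]
      have along : ∀ e : V, e ≠ 0 → (∀ e' n' z', rdet e e' ≠ 0 → rdet e' n' ≠ 0 →
          F e' n' z' = F e' (-n') z') → ∀ z z', rdet e z = rdet e z' →
          F e (J9 e) z = F e (J9 e) z' := by
        intro e he hno z z' hzz
        have hJ := (rdet_J9 he).ne'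
        have hJ' : rdet (-e) (J9 e) ≠ 0 := by rw [rdet_neg_l]; exact neg_ne_zero.2 hJ
        obtain ⟨c, hc'⟩ := par_of he (show rdet e (z' - z) = 0 by rw [rdet_sub]; linarith)
        have key := lc_const (fun s : ℝ => F e (J9 e) (z + s • e)) (by
          intro s
          obtain ⟨ε1, hε1, g1⟩ := hF.loc e (J9 e) (z + s • e) hJ
          obtain ⟨ε2, hε2, g2⟩ := hF.loc (-e) (J9 e) (z + s • e) hJ'
          refine ⟨min ε1 ε2, lt_min hε1 hε2, fun r hr hr' => ⟨?_, ?_⟩⟩
          · have k1 := (g1 r hr (lt_of_lt_of_le hr' (min_le_left _ _))).1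
            rw [show z + (s + r) • e = z + s • e + r • e by module, k1]
          · have k2 := (g2 r hr (lt_of_lt_of_le hr' (min_le_right _ _))).2
            rw [neg_neg] at k2
            rw [show z + (s - r) • e = z + s • e + r • (-e) by module, k2]
            refine main e he hno (-e) (J9 e) _ hJ' (Or.inr ⟨?_, rdet_J9 he⟩)
            rw [rdet_neg_r, rdet_self, neg_zero]) 0 c
        simp only [zero_smul, add_zero] at key
        rw [key, ← hc', add_sub_cancel]
      intro u v u' v' z z' h1 h2 hz hs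
      by_cases hsd : sd e u v
      · rw [main e he0 hnoj u v z h1 hsd, main e he0 hnoj u' v' z' h2 (hs.1 hsd)]
        exact along e he0 hnoj z z' hz
      · have hsd' : ¬ sd e u' v' := fun h => hsd (hs.2 h)
        have hne : (-e) ≠ 0 := neg_ne_zero.2 he0
        have hno' : ∀ e' n' z', rdet (-e) e' ≠ 0 → rdet e' n' ≠ 0 →
            F e' n' z' = F e' (-n') z' := by
          intro e' n' z' g1 g2
          exact hnoj e' n' z' (by rw [rdet_neg_l] at g1; exact neg_ne_zero.1 g1) g2
        have conv : ∀ u v, rdet u v ≠ 0 → ¬ sd e u v → sd (-e) u v := by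
          intro u v huv hns
          unfold sd at hns ⊢
          rw [rdet_neg_l, rdet_neg_l]
          rw [not_or, not_and, not_lt, not_lt] at hns
          rcases eq_or_lt_of_le hns.1 with h0 | h0
          · right
            refine ⟨by rw [h0, neg_zero], ?_⟩
            have h3 := hns.2 h0
            rcases eq_or_lt_of_le h3 with h4 | h4
            · exfalso
              obtain ⟨c1, hc1⟩ := par_of he0 h0
              obtain ⟨c2, hc2⟩ := par_of he0 h4
              apply huv
              rw [hc1, hc2, rdet_smul_l, rdet_smul_r, rdet_self, mul_zero, mul_zero]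
            · linarith
          · left; linarith
        rw [main (-e) hne hno' u v z h1 (conv u v h1 hsd),
          main (-e) hne hno' u' v' z' h2 (conv u' v' h2 hsd')]
        refine along (-e) hne hno' z z' ?_
        rw [rdet_neg_l, rdet_neg_l, hz]

end Pool.Agent.PTP
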