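import Pool.Agent.PTP.Targets
import Pool.Agent.PTR.Core

/-!
# PTP: differences transversal to a direction are injective on half plane functions
-/

set_option autoImplicit false

namespace Pool.Agent.PTP

open Pool.Agent.PTR Filter Topology
open Pool.Agent.PTR.OL (V ii dif difs FLC InHull)

theorem inj_aux (e : V) (L : List V) : ∀ f : V → ℤ, (∃ h0 : ℝ, ∀ z : V, rdet e z < h0 → f z = 0) →
    difs L f = 0 → difs (L.filter (fun w => rdet e w = 0)) f = 0 := by
  induction L with
  | nil => intro f _ h; exact h
  | cons w L ih =>
    intro f hb h
    by_cases hw : rdet e w = 0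
    · rw [List.filter_cons_of_pos (by simpa using hw), OL.difs_cons, ← difs_dif']
      refine ih (dif w f) ?_ (by rw [difs_dif']; exact h)
      obtain ⟨h0, hh⟩ := hb
      refine ⟨h0, fun z hz => ?_⟩
      unfold dif
      rw [hh z hz, hh (z - w) (by rw [rdet_sub, hw, sub_zero]; exact hz), sub_zero]
    · rw [List.filter_cons_of_neg (by simpa using hw)]
      refine ih f hb ?_
      -- `difs L f` vanishes below some height and is `w`-periodic
      have hb' : ∃ h0 : ℝ, ∀ z : V, rdet e z < h0 → difs L f z = 0 := by
        clear ih h
        induction L with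
        | nil => exact hb
        | cons v L ih2 =>
          obtain ⟨h0, hh⟩ := ih2
          refine ⟨h0 - |rdet e v|, fun z hz => ?_⟩
          rw [OL.difs_cons]
          unfold dif
          rw [hh z (by linarith [abs_nonneg (rdet e v)]), hh (z - v) (by
            rw [rdet_sub]; linarith [neg_abs_le (rdet e v)]), sub_zero]
      obtain ⟨h0, hh⟩ := hb'
      have hper : ∀ z, difs L f (z - w) = difs L f z := by
        intro z
        have := congrFun h z
        rw [OL.difs_cons] at this
        simp only [dif, Pi.zero_apply] at this
        omega
      have hper' : ∀ (n : ℕ) (z : V), difs L f (z - (n : ℤ) • w) = difs L f z ∧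
          difs L f (z + (n : ℤ) • w) = difs L f z := by
        intro n
        induction n with
        | zero => intro z; simp
        | succ n ihn =>
          intro z
          constructor
          · have e : z - ((n + 1 : ℕ) : ℤ) • w = (z - w) - (n : ℤ) • w := by
              push_cast; rw [add_smul, one_smul]; abel
            rw [e, (ihn (z - w)).1, hper]
          · have e : z + ((n + 1 : ℕ) : ℤ) • w = (z + w) + (n : ℤ) • w := by
              push_cast; rw [add_smul, one_smul]; abel
            have h3 := hper (z + w)
            rw [add_sub_cancel_right] at h3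
            rw [e, (ihn (z + w)).2, ← h3]
      funext z
      rw [Pi.zero_apply]
      rcases lt_or_gt_of_ne hw with hw' | hw'
      · obtain ⟨n, hn⟩ := exists_nat_gt ((rdet e z - h0) / (-rdet e w))
        rw [div_lt_iff₀ (by linarith)] at hn
        rw [← (hper' n z).2]
        apply hh
        rw [rdet_add, rdet_zsmul, Int.cast_natCast]
        linarith
      · obtain ⟨n, hn⟩ := exists_nat_gt ((rdet e z - h0) / rdet e w)
        rw [div_lt_iff₀ hw'] at hn
        rw [← (hper' n z).1]
        apply hh
        rw [rdet_sub, rdet_zsmul, Int.cast_natCast]
        linarith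

theorem p_INJ : T_INJ := by
  classical
  intro e L _
  refine ⟨L.filter (fun w => rdet e w = 0), fun w hw => ?_, fun f hf h => inj_aux e L f ?_ h⟩
  · have := List.mem_filter.1 hw
    exact ⟨this.1, by simpa using this.2⟩
  · obtain ⟨b, hb⟩ := hf
    refine ⟨b, fun z hz => ?_⟩
    by_contra hne
    exact absurd (hb z hne) (not_le.2 hz)

end Pool.Agent.PTP
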