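import Pool.Agent.PTP.P_BODY
import Pool.Agent.PTP.P_SEP

/-!
# PTP: the stack of a strip (STK)
-/

set_option autoImplicit false

namespace Pool.Agent.PTP

open Pool.Agent.PTR Filter Topology
open Pool.Agent.PTR.OL (V ii dif difs FLC InHull)

namespace STKx

lemma stk_add (e a b : V) : rdet e (a + b) = rdet e a + rdet e b := by
  unfold rdet
  simp only [Prod.fst_add, Prod.snd_add]
  ring

lemma stk_smul (e a : V) (s : ℝ) : rdet e (s • a) = s * rdet e a := by
  unfold rdet
  simp only [Prod.smul_fst, Prod.smul_snd, smul_eq_mul]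
  ring

lemma stk_zsmul (e a : V) (k : ℤ) : rdet e (k • a) = k * rdet e a := by
  rw [← Int.cast_smul_eq_zsmul ℝ k a, stk_smul]

lemma stk_push {C : Set V} {x w : V} (hx : x ∈ interior C) :
    ∃ s > (0 : ℝ), x + s • w ∈ C ∧ x + (-s) • w ∈ C := by
  have h1 : Tendsto (fun s : ℝ => x + s • w) (𝓝 0) (𝓝 (x + (0 : ℝ) • w)) := by
    apply Continuous.tendsto
    fun_prop
  rw [zero_smul, add_zero] at h1
  have h2 : ∀ᶠ s in 𝓝 (0 : ℝ), x + s • w ∈ interior C :=
    h1.eventually (isOpen_interior.mem_nhds hx)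
  obtain ⟨ε, hε, hs⟩ := Metric.eventually_nhds_iff.1 h2
  have h3 : dist (ε / 2) 0 < ε := by
    rw [dist_zero_right, Real.norm_eq_abs, abs_of_pos (by linarith)]
    linarith
  have h4 : dist (-(ε / 2)) 0 < ε := by
    rw [dist_zero_right, Real.norm_eq_abs, abs_neg, abs_of_pos (by linarith)]
    linarith
  exact ⟨ε / 2, by linarith, interior_subset (hs h3), interior_subset (hs h4)⟩

/-- The stack of a strip of a general closed bounded set. -/
theorem stk_core {C T : Set V} {e w : V} {h : ℝ} (hcl : IsClosed C)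
    (hbd : ∃ r : ℝ, ∀ x ∈ C, ‖x‖ ≤ r) (hfin : ∀ R : ℝ, {t | t ∈ T ∧ ‖t‖ ≤ R}.Finite)
    (hS : Stp C e h T) (hw : rdet e w = h) :
    Til C (Stk w T) ∧ Per w (Stk w T) ∧ ∀ k : ℤ, SF C e (Stk w T) (k * h) := by
  obtain ⟨hh, hcov, hdis, hin⟩ := hS
  -- interior points have height strictly between `0` and `h`
  have hint : ∀ t ∈ T, ∀ x ∈ interior C, 0 < rdet e (t + x) ∧ rdet e (t + x) < h := by
    intro t ht x hx
    obtain ⟨s, hs, h1, h2⟩ := stk_push (w := w) hx
    have h3 := hin t ht _ h1
    have h4 := hin t ht _ h2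
    rw [← add_assoc, stk_add, stk_smul, hw] at h3 h4
    have h5 : 0 < s * h := mul_pos hs hh
    constructor <;> nlinarith [h3.1, h3.2, h4.1, h4.2]
  -- points of height in `[0, h)` are covered
  have hcov0 : ∀ z, 0 ≤ rdet e z → rdet e z < h → ∃ t ∈ T, z - t ∈ C := by
    intro z hz0 hzh
    rcases lt_or_eq_of_le hz0 with hpos | hzero
    · exact hcov z hpos hzh
    · obtain ⟨r, hr⟩ := hbd
      set F : Set V := {t | t ∈ T ∧ ‖t‖ ≤ ‖z‖ + ‖w‖ + r} with hF
      have hFfin : F.Finite := hfin _
      have hK : IsClosed (⋃ t ∈ F, {y : V | y - t ∈ C}) := by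
        refine hFfin.isClosed_biUnion fun t _ => ?_
        exact hcl.preimage (continuous_id.sub continuous_const)
      have hlim : Tendsto (fun n : ℕ => z + ((1 : ℝ) / ((n : ℝ) + 2)) • w) atTop
          (𝓝 (z + (0 : ℝ) • w)) := by
        refine tendsto_const_nhds.add (Tendsto.smul_const ?_ w)
        have h1 : Tendsto (fun n : ℕ => (n : ℝ) + 2) atTop atTop :=
          tendsto_atTop_add_const_right _ _ tendsto_natCast_atTop_atTop
        have h2 := h1.inv_tendsto_atTop
        refine h2.congr fun n => ?_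
        simp
      rw [zero_smul, add_zero] at hlim
      have hmem : ∀ n : ℕ, z + ((1 : ℝ) / ((n : ℝ) + 2)) • w ∈ ⋃ t ∈ F, {y : V | y - t ∈ C} := by
        intro n
        have hn : (0 : ℝ) < (n : ℝ) + 2 := by positivity
        have hc1 : (1 : ℝ) / ((n : ℝ) + 2) < 1 := by
          rw [div_lt_one hn]
          have : (0 : ℝ) ≤ n := Nat.cast_nonneg n
          linarith
        have hc0 : 0 < (1 : ℝ) / ((n : ℝ) + 2) := by positivity
        have e1 : rdet e (z + ((1 : ℝ) / ((n : ℝ) + 2)) • w) = (1 : ℝ) / ((n : ℝ) + 2) * h := by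
          rw [stk_add, stk_smul, hw, ← hzero, zero_add]
        obtain ⟨t, ht, hzt⟩ := hcov (z + ((1 : ℝ) / ((n : ℝ) + 2)) • w)
          (by rw [e1]; exact mul_pos hc0 hh) (by rw [e1]; nlinarith)
        refine Set.mem_biUnion (x := t) ⟨ht, ?_⟩ hzt
        have e2 : t = (z + ((1 : ℝ) / ((n : ℝ) + 2)) • w)
            - (z + ((1 : ℝ) / ((n : ℝ) + 2)) • w - t) := by abel
        rw [e2]
        refine (norm_sub_le _ _).trans ?_
        have h3 := hr _ hzt
        have h4 : ‖z + ((1 : ℝ) / ((n : ℝ) + 2)) • w‖ ≤ ‖z‖ + ‖w‖ := by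
          refine (norm_add_le _ _).trans ?_
          rw [norm_smul, Real.norm_eq_abs, abs_of_pos hc0]
          have := norm_nonneg w
          nlinarith
        linarith
      have hzK := hK.mem_of_tendsto hlim (Eventually.of_forall hmem)
      rw [Set.mem_iUnion₂] at hzK
      obtain ⟨t, ht, hzt⟩ := hzK
      exact ⟨t, ht.1, hzt⟩
  refine ⟨⟨?_, ?_⟩, ?_, ?_⟩
  · intro z
    set k : ℤ := ⌊rdet e z / h⌋ with hk
    have h1 : (k : ℝ) * h ≤ rdet e z := by
      have := Int.floor_le (rdet e z / h)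
      rw [← hk, le_div_iff₀ hh] at this
      exact this
    have h2 : rdet e z < (k + 1) * h := by
      have := Int.lt_floor_add_one (rdet e z / h)
      rw [← hk, div_lt_iff₀ hh] at this
      exact this
    have h3 : rdet e (z + (-k) • w) = rdet e z - k * h := by
      rw [stk_add, stk_zsmul, hw]
      push_cast
      ring
    obtain ⟨t, ht, hzt⟩ := hcov0 (z + (-k) • w) (by rw [h3]; linarith) (by rw [h3]; linarith)
    refine ⟨t + k • w, ⟨-k, ?_⟩, ?_⟩
    · rw [add_assoc, neg_smul, add_neg_cancel, add_zero]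
      exact ht
    · have e1 : z - (t + k • w) = z + (-k) • w - t := by
        rw [neg_smul]
        abel
      rw [e1]
      exact hzt
  · rintro t ⟨k, ht⟩ t' ⟨k', ht'⟩ z hz hz'
    have h1 := hint _ ht _ hz
    have h2 := hint _ ht' _ hz'
    have e1 : t + k • w + (z - t) = z + k • w := by abel
    have e2 : t' + k' • w + (z - t') = z + k' • w := by abel
    rw [e1, stk_add, stk_zsmul, hw] at h1
    rw [e2, stk_add, stk_zsmul, hw] at h2
    have hkk : k = k' := by
      have h3 : ((k : ℝ) - k') * h < 1 * h := by linarith [h1.2, h2.1]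
      have h4 : ((k' : ℝ) - k) * h < 1 * h := by linarith [h1.1, h2.2]
      have h5 : (k : ℝ) - k' < 1 := lt_of_mul_lt_mul_right h3 hh.le
      have h6 : (k' : ℝ) - k < 1 := lt_of_mul_lt_mul_right h4 hh.le
      have h7 : k < k' + 1 := by
        have : (k : ℝ) < ((k' + 1 : ℤ) : ℝ) := by push_cast; linarith
        exact_mod_cast this
      have h8 : k' < k + 1 := by
        have : (k' : ℝ) < ((k + 1 : ℤ) : ℝ) := by push_cast; linarith
        exact_mod_cast this
      omega
    subst hkk
    have h9 := hdis _ ht _ ht' (z + k • w)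
      (by rw [show z + k • w - (t + k • w) = z - t by abel]; exact hz)
      (by rw [show z + k • w - (t' + k • w) = z - t' by abel]; exact hz')
    exact add_right_cancel h9
  · intro z
    constructor
    · rintro ⟨k, hk⟩
      refine ⟨k + 1, ?_⟩
      have e1 : z + (k + 1) • w = z + w + k • w := by
        rw [add_smul, one_smul]
        abel
      rw [e1]
      exact hk
    · rintro ⟨k, hk⟩
      refine ⟨k - 1, ?_⟩
      have e1 : z + w + (k - 1) • w = z + k • w := by
        rw [sub_smul, one_smul]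
        abel
      rw [e1]
      exact hk
  · rintro k t ⟨j, ht⟩
    have key : ∀ x ∈ C, 0 ≤ rdet e (t + x) + j * h ∧ rdet e (t + x) + j * h ≤ h := by
      intro x hx
      have h1 := hin _ ht x hx
      have e1 : t + j • w + x = t + x + j • w := by abel
      rw [e1, stk_add, stk_zsmul, hw] at h1
      exact h1
    rcases lt_or_ge (-j) k with hlt | hge
    · left
      intro x hx
      have h1 := (key x hx).2
      have h2 : (1 : ℝ) - j ≤ k := by
        have : (-j + 1 : ℤ) ≤ k := hlt
        have h3 : ((-j + 1 : ℤ) : ℝ) ≤ (k : ℝ) := by exact_mod_cast this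
        push_cast at h3
        linarith
      nlinarith
    · right
      intro x hx
      have h1 := (key x hx).1
      have h2 : (k : ℝ) ≤ -j := by
        have h3 : (k : ℝ) ≤ ((-j : ℤ) : ℝ) := by exact_mod_cast hge
        push_cast at h3
        linarith
      nlinarith

end STKx

theorem p_STK : T_STK := by
  intro P hP e w T h hS hw
  obtain ⟨hc, -, -⟩ := p_BODY P hP
  obtain ⟨ρ, hρ, hsep⟩ := p_SEP_of p_BODY P hP
  have hbd : ∃ r : ℝ, ∀ x ∈ pset P, ‖x‖ ≤ r := hc.isBounded.exists_norm_le
  exact STKx.stk_core hc.isClosed hbd (hsep T hS.2.2.1).2 hS hw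

end Pool.Agent.PTP
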