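import Pool.Agent.PTP.Targets

/-!
# PTP: GLU, gluing with a one-sided window and the cover of one band
-/

set_option autoImplicit false

namespace Pool.Agent.PTP

open Pool.Agent.PTR Filter Topology
open Pool.Agent.PTR.OL (V ii dif difs FLC InHull)

theorem p_GLU : T_GLU := by
  intro C T p v α β f hp hC hv hκ hag hcov
  set c : ℝ × ℝ := ((f - α) / rdet p v) • v with hc
  have hcd : rdet p c = f - α := by
    have : rdet p c = (f - α) / rdet p v * rdet p v := by
      simp only [hc, rdet, Prod.smul_fst, Prod.smul_snd, smul_eq_mul]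
      ring
    rw [this, div_mul_cancel₀ _ hv.ne']
  set T' := glued T p v c with hT'
  have hvv : ∀ z, z + v ∈ T' ↔ z ∈ T' := glued_v T p v c hv
  have hvz : ∀ (n : ℤ) (z : ℝ × ℝ), z + n • v ∈ T' ↔ z ∈ T' := mem_zsmul hvv
  have heq : ∀ t : ℝ × ℝ, f - β < rdet p t → rdet p t < f - α + rdet p v →
      (t ∈ T' ↔ t ∈ T) := by
    intro t h1 h2
    simp only [hT', glued, Set.mem_ofPred_eq]
    rcases lt_or_ge (rdet p t) (f - α) with h | h
    · have hf : ⌊(rdet p t - rdet p c) / rdet p v⌋ = -1 := by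
        rw [Int.floor_eq_iff, hcd]
        push_cast
        constructor
        · rw [le_div_iff₀ hv]; linarith
        · rw [div_lt_iff₀ hv]; linarith
      rw [hf, neg_smul, one_smul, sub_neg_eq_add]
      exact hag t h1 h
    · have hf : ⌊(rdet p t - rdet p c) / rdet p v⌋ = 0 := by
        rw [Int.floor_eq_iff, hcd]
        push_cast
        constructor
        · rw [le_div_iff₀ hv]; linarith
        · rw [div_lt_iff₀ hv]; linarith
      rw [hf, zero_smul, sub_zero]
  have key : ∀ z, f ≤ rdet p z → rdet p z < f + rdet p v → ∀ t, z - t ∈ C →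
      (t ∈ T' ↔ t ∈ T) := by
    intro z hz1 hz2 t ht
    obtain ⟨h3, h4⟩ := hC _ ht
    rw [rdet_sub] at h3 h4
    exact heq t (by linarith) (by linarith)
  have band : ∀ z, ∃ n : ℤ, f ≤ rdet p (z - n • v) ∧ rdet p (z - n • v) < f + rdet p v := by
    intro z
    refine ⟨⌊(rdet p z - f) / rdet p v⌋, ?_, ?_⟩
    · have := Int.floor_le ((rdet p z - f) / rdet p v)
      rw [le_div_iff₀ hv] at this
      rw [rdet_sub, rdet_zsmul]
      linarith
    · have := Int.lt_floor_add_one ((rdet p z - f) / rdet p v)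
      rw [div_lt_iff₀ hv] at this
      rw [rdet_sub, rdet_zsmul]
      linarith
  refine ⟨T', glued_p T p v c hp, hvv, ?_⟩
  intro z
  obtain ⟨n, hn1, hn2⟩ := band z
  obtain ⟨t, ⟨ht1, ht2⟩, ht3⟩ := hcov (z - n • v) hn1 hn2
  refine ⟨t + n • v, ⟨(hvz n t).2 ((key _ hn1 hn2 t ht2).2 ht1), ?_⟩, ?_⟩
  · rw [show z - (t + n • v) = z - n • v - t by abel]
    exact ht2
  · rintro s ⟨hs1, hs2⟩
    have e : z - n • v - (s - n • v) = z - s := by abel
    have h4 : s - n • v ∈ T' := by
      have := hvz n (s - n • v)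
      rw [sub_add_cancel] at this
      exact this.1 hs1
    have h5 := (key _ hn1 hn2 (s - n • v) (by rw [e]; exact hs2)).1 h4
    have h6 := ht3 (s - n • v) ⟨h5, by rw [e]; exact hs2⟩
    rw [← h6]
    abel

end Pool.Agent.PTP
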