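import Pool.Agent.PTP.Targets
import Pool.Agent.PSQ.Main

/-!
# Polygonal bodies: the final statements from the targets
-/

set_option autoImplicit false

namespace Pool.Agent.PTP

open Pool.Agent.PTR Filter Topology
open Pool.Agent.PTR.OL (V ii dif difs FLC InHull)

lemma interior_tr (C : Set V) (t : V) : interior (PSQ.tr C t) = PSQ.tr (interior C) t :=
  ((Homeomorph.addRight t).image_interior C).symm

lemma mem_tr {C : Set V} {t z : V} : z ∈ PSQ.tr C t ↔ z - t ∈ C := by
  unfold PSQ.tr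
  constructor
  · rintro ⟨w, hw, rfl⟩
    rwa [add_sub_cancel_right]
  · intro h
    exact ⟨z - t, h, sub_add_cancel _ _⟩

lemma til_iff (C T : Set V) : PSQ.Tiling C T ↔ Til C T := by
  constructor
  · rintro ⟨h1, h2⟩
    refine ⟨?_, ?_⟩
    · intro z
      have h3 : z ∈ ⋃ t ∈ T, PSQ.tr C t := by rw [h2]; exact Set.mem_univ _
      simp only [Set.mem_iUnion, exists_prop] at h3
      obtain ⟨t, ht, hz⟩ := h3
      exact ⟨t, ht, mem_tr.1 hz⟩
    · intro t ht t' ht' z hz hz'
      by_contra hne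
      have h3 := h1 t ht t' ht' hne
      rw [interior_tr, interior_tr, Set.disjoint_left] at h3
      exact h3 (mem_tr.2 hz) (mem_tr.2 hz')
  · rintro ⟨h1, h2⟩
    refine ⟨?_, ?_⟩
    · intro s hs t ht hne
      rw [interior_tr, interior_tr, Set.disjoint_left]
      intro z hz hz'
      exact hne (h2 s hs t ht z (mem_tr.1 hz) (mem_tr.1 hz'))
    · rw [Set.eq_univ_iff_forall]
      intro z
      obtain ⟨t, ht, hz⟩ := h1 z
      simp only [Set.mem_iUnion, exists_prop]
      exact ⟨t, ht, mem_tr.2 hz⟩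

lemma per_tr {p : V} {T : Set V} (h : Per p T) : PSQ.tr T p = T := by
  ext z
  rw [mem_tr, ← h (z - p), sub_add_cancel]

lemma tdp_periodic {C : Set V} (h : TDP C) : ∃ T, PSQ.Tiling C T ∧ PSQ.Periodic T := by
  obtain ⟨T, hT, p, v, hpv, hp, hv⟩ := h
  exact ⟨T, (til_iff C T).2 hT, p, v, hpv, per_tr hp, per_tr hv⟩

lemma rdet_cont (e : V) : Continuous (rdet e) := by
  unfold rdet
  fun_prop

/-- `rdet e` takes all values near `rdet e x` near `x`. -/
lemma rdet_open {e : V} (he : e ≠ 0) {O : Set V} (hO : IsOpen O) {x : V} (hx : x ∈ O) :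
    ∃ ε > 0, ∀ η : ℝ, |η| < ε → ∃ y ∈ O, rdet e y = rdet e x + η := by
  obtain ⟨n, hn⟩ : ∃ n : V, rdet e n = 1 := by
    by_cases h1 : e.1 = 0
    · have h2 : e.2 ≠ 0 := fun h2 => he (Prod.ext h1 h2)
      exact ⟨(-1 / e.2, 0), by simp only [rdet]; field_simp; ring⟩
    · exact ⟨(0, 1 / e.1), by simp only [rdet]; field_simp; ring⟩
  have hc : Continuous (fun s : ℝ => x + s • n) := by fun_prop
  have h0 : (fun s : ℝ => x + s • n) 0 ∈ O := by simpa using hx
  have h1 := hc.continuousAt.preimage_mem_nhds (hO.mem_nhds h0)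
  obtain ⟨ε, hε, hb⟩ := Metric.mem_nhds_iff.1 h1
  refine ⟨ε, hε, fun η hη => ⟨x + η • n, hb ?_, ?_⟩⟩
  · rw [Metric.mem_ball, Real.dist_eq, sub_zero]
    exact hη
  · have h2 : rdet e (η • n) = η * rdet e n := by
      simp only [rdet, Prod.smul_fst, Prod.smul_snd, smul_eq_mul]
      ring
    rw [rdet_add, h2, hn, mul_one]

/-- If the projection of the body along `e` is an interval then the interval condition holds. -/
theorem iv_of_proj {C : Set V} (hC : C ⊆ closure (interior C)) {e : V} (he : e ≠ 0)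
    (h : (rdet e '' C).OrdConnected) : Iv C e := by
  -- every value between two values is a limit of values at interior points
  have key : ∀ d : ℝ, 0 ≤ d → (∃ x ∈ interior C, ∃ y ∈ interior C, d ≤ rdet e x - rdet e y) →
      ∃ x ∈ interior C, ∃ y ∈ interior C, d = rdet e x - rdet e y := by
    rintro d hd ⟨x, hx, y, hy, hxy⟩
    rcases hxy.eq_or_lt with h0 | h0
    · exact ⟨x, hx, y, hy, h0⟩
    · obtain ⟨ε, hε, hb⟩ := rdet_open he isOpen_interior hy
      have h1 : rdet e y + d ∈ rdet e '' C :=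
        h.out ⟨y, interior_subset hy, rfl⟩ ⟨x, interior_subset hx, rfl⟩
          ⟨by linarith, by linarith⟩
      obtain ⟨z, hz, hze⟩ := h1
      have h2 : ∃ z' ∈ interior C, |rdet e z' - rdet e z| < ε := by
        have h3 := hC hz
        rw [mem_closure_iff_nhds] at h3
        have h4 : {w | |rdet e w - rdet e z| < ε} ∈ 𝓝 z := by
          have h5 : Continuous (fun w => |rdet e w - rdet e z|) :=
            ((rdet_cont e).sub continuous_const).abs
          refine (isOpen_lt h5 continuous_const).mem_nhds ?_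
          simpa using hε
        obtain ⟨z', h5, h6⟩ := h3 _ h4
        exact ⟨z', h6, h5⟩
      obtain ⟨z', hz', h3⟩ := h2
      obtain ⟨y', hy', h4⟩ := hb (rdet e z' - rdet e z) h3
      exact ⟨z', hz', y', hy', by rw [h4, hze]; ring⟩
  refine ⟨?_⟩
  rintro _ ⟨x, hx, y, hy, rfl⟩ _ ⟨x', hx', y', hy', rfl⟩ d ⟨h1, h2⟩
  rcases le_total 0 d with h0 | h0
  · exact key d h0 ⟨x', hx', y', hy', h2⟩
  · obtain ⟨z, hz, w, hw, h3⟩ := key (-d) (by linarith) ⟨y, hy, x, hx, by linarith⟩
    exact ⟨w, hw, z, hz, by linarith⟩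

theorem iv_of_conn {C : Set V} (hC : C ⊆ closure (interior C)) (h : IsPreconnected C) {e : V}
    (he : e ≠ 0) : Iv C e :=
  iv_of_proj hC he (h.image _ (rdet_cont e).continuousOn).ordConnected

/-- Final statement, polygonal bodies. -/
theorem final_R6 (hBODY : T_BODY) (hR6 : T_R6) (P : Finset (Finset HPl)) (hP : PB P) :
    PSQ.IsBody (pset P) ∧
      (((∀ e, IsDir P e → Iv (pset P) e) ∨ IsPreconnected (pset P)) →
        (∃ T, PSQ.Tiling (pset P) T) → ∃ T, PSQ.Tiling (pset P) T ∧ PSQ.Periodic T) := by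
  obtain ⟨h1, h2, h3⟩ := hBODY P hP
  refine ⟨⟨h1, h3⟩, ?_⟩
  rintro h ⟨T, hT⟩
  refine tdp_periodic (hR6 P hP ?_ ⟨T, (til_iff _ T).1 hT⟩)
  rcases h with h | h
  · exact h
  · exact fun e he => iv_of_conn h3.symm.subset h he.1

/-- Final statement, finite local complexity. -/
theorem final_R5 (hPFLC : T_PFLC) (P : Finset (Finset HPl)) (hP : PB P) (T : Set V)
    (hT : PSQ.Tiling (pset P) T)
    (hF : ∀ R : ℝ, {d : ℝ × ℝ | ‖d‖ ≤ R ∧ ∃ t ∈ T, t + d ∈ T}.Finite) :
    ∃ T', PSQ.Tiling (pset P) T' ∧ PSQ.Periodic T' :=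
  tdp_periodic (hPFLC P hP T ((til_iff _ T).1 hT) hF)

end Pool.Agent.PTP
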