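import Pool.Agent.PTP.J_JD

/-!
# PTP: SLIDE, the sliding lemma for ultralimits of tilings
-/

set_option autoImplicit false

namespace Pool.Agent.PTP

open Pool.Agent.PTR Filter Topology
open Pool.Agent.PTR.OL (V ii dif difs FLC InHull)

/-- SLIDE. -/
theorem SLIDE_of (hFF : T_FF) (hULT : T_ULT) (hTE : T_TE) (hPERT : T_PERT) (hSCAL : T_SCAL)
    (hLOC : T_LOC) (hFOUR : T_FOUR) (hJD : T_JD) (hDIRF : T_DIRF) (hINTF : T_INTF)
    (hBODY : T_BODY) : T_SLIDE := by
  classical
  intro P hP U Tn hTn δ hδ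
  have hT := (hULT P hP U Tn hTn).1
  -- the tile of a flag
  have hex : ∀ u v z : V, ∃ t, rdet u v ≠ 0 → t ∈ Lim U Tn ∧ z - t ∈ fset P u v := by
    intro u v z
    by_cases h : rdet u v ≠ 0
    · obtain ⟨t, ht, -⟩ := hTE P hP _ hT u v h z
      exact ⟨t, fun _ => ht⟩
    · exact ⟨0, fun h' => absurd h' h⟩
  choose tl htl using hex
  have huniq : ∀ (u v z t : V), rdet u v ≠ 0 → t ∈ Lim U Tn → z - t ∈ fset P u v →
      tl u v z = t := fun u v z t h ht hz =>
    (hTE P hP _ hT u v h z).unique (htl u v z h) ⟨ht, hz⟩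
  -- the flag function
  set F : V → V → V → Germ (U : Filter ℕ) V := fun u v z => (δ (tl u v z) : Germ (U : Filter ℕ) V)
    with hF
  have hFe : ∀ u v z u' v' z' : V, (F u v z = F u' v' z' ↔
      Sm U δ (tl u v z) (tl u' v' z')) := fun u v z u' v' z' => Germ.coe_eq
  set Par : V → Germ (U : Filter ℕ) V → Germ (U : Filter ℕ) V → Prop :=
    fun e a b => a.map (rdet e) = b.map (rdet e) with hPar
  have hParc : ∀ (e : V) (f g : ℕ → V), (Par e (f : Germ (U : Filter ℕ) V) g ↔
      ∀ᶠ n in (U : Filter ℕ), rdet e (f n) = rdet e (g n)) := by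
    intro e f g
    simp only [hPar, Germ.map_coe]
    exact Germ.coe_eq
  have hFpar : ∀ e u v z u' v' z' : V, (Par e (F u v z) (F u' v' z') ↔
      ∀ᶠ n in (U : Filter ℕ), rdet e (δ (tl u v z) n) = rdet e (δ (tl u' v' z') n)) :=
    fun e u v z u' v' z' => hParc e _ _
  have hmain := hFF (Germ (U : Filter ℕ) V) F Par (IsDir P) ?_ ?_ ?_ ?_ ?_ ?_ ?_ ?_ ?_
  · -- conclusion
    have htile : ∀ t ∈ Lim U Tn, ∃ u v z : V, rdet u v ≠ 0 ∧ tl u v z = t := by
      intro t ht
      obtain ⟨x, hx⟩ := (hBODY P hP).2.1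
      have h0 : rdet (1, 0) (0, 1) ≠ 0 := by simp [rdet]
      refine ⟨(1, 0), (0, 1), t + x, h0, huniq _ _ _ _ h0 ht ?_⟩
      rw [add_sub_cancel_left]
      exact (hINTF P hP _ _ h0).2.1 x hx
    rcases hmain with h | ⟨e, he, hD, h1, h2⟩
    · left
      intro t ht t' ht'
      obtain ⟨u, v, z, huv, e1⟩ := htile t ht
      obtain ⟨u', v', z', huv', e2⟩ := htile t' ht'
      have h3 := (hFe _ _ _ _ _ _).1 (h u v u' v' z z' huv huv')
      rwa [e1, e2] at h3
    · right
      refine ⟨e, hD, ?_, ?_⟩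
      · intro t ht t' ht'
        obtain ⟨u, v, z, huv, e1⟩ := htile t ht
        obtain ⟨u', v', z', huv', e2⟩ := htile t' ht'
        have h3 := (hFpar _ _ _ _ _ _ _).1 (h1 u v u' v' z z' huv huv')
        rwa [e1, e2] at h3
      · intro u v u' v' z z' t t' ht ht' huv huv' hz hsd hzt hzt'
        have h3 := (hFe _ _ _ _ _ _).1 (h2 u v u' v' z z' huv huv' hz hsd)
        rwa [huniq u v z t huv ht hzt, huniq u' v' z' t' huv' ht' hzt'] at h3
  · -- perturbation
    intro u v huv
    obtain ⟨ε₀, hε₀, h⟩ := hPERT P hP u v huv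
    refine ⟨ε₀, hε₀, fun ε h1 h2 w hw z => ?_⟩
    rw [hFe]
    have h3 := htl u v z huv
    rw [← h ε h1 h2 w] at h3
    rw [huniq _ _ _ _ hw h3.1 h3.2]
    exact Filter.Eventually.of_forall fun _ => rfl
  · -- scaling
    intro u v l m k hl hm huv z
    rw [hFe]
    have h3 := htl u v z huv
    rw [← hSCAL P u v l m k hl hm] at h3
    have hw : rdet (l • u) (m • v + k • u) ≠ 0 := by
      have : rdet (l • u) (m • v + k • u) = (l * m) * rdet u v := by
        simp only [rdet, Prod.smul_fst, Prod.smul_snd, Prod.fst_add, Prod.snd_add, smul_eq_mul]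
        ring
      rw [this]
      exact mul_ne_zero (mul_pos hl hm).ne' huv
    rw [huniq _ _ _ _ hw h3.1 h3.2]
    exact Filter.Eventually.of_forall fun _ => rfl
  · -- moving along the line
    intro u v z huv
    have h3 := htl u v z huv
    obtain ⟨ε₀, hε₀, h⟩ := hLOC P u v (z - tl u v z)
    refine ⟨ε₀, hε₀, fun s h1 h2 => ?_⟩
    have huv' : rdet (-u) v ≠ 0 := by rw [rdet_neg_left]; exact neg_ne_zero.2 huv
    have h4 := h s h1 h2
    have e1 : z + s • u - tl u v z = z - tl u v z + s • u := by abel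
    constructor
    · rw [hFe, huniq _ _ _ _ huv h3.1 (by rw [e1]; exact h4.1.2 h3.2)]
      exact Filter.Eventually.of_forall fun _ => rfl
    · rw [hFe, huniq _ _ _ _ huv' h3.1 (by rw [e1]; exact h4.2.2 h3.2)]
      exact Filter.Eventually.of_forall fun _ => rfl
  · -- the four term relation
    intro e n z hen hne
    have hen' : rdet e (-n) ≠ 0 := by rw [rdet_neg_right]; exact neg_ne_zero.2 hen
    have hne1 : rdet (-e) n ≠ 0 := by rw [rdet_neg_left]; exact neg_ne_zero.2 hen
    have hne2 : rdet (-e) (-n) ≠ 0 := by rw [rdet_neg_left]; exact neg_ne_zero.2 hen'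
    rw [Ne, hFe] at hne
    have h1 := htl e n z hen
    have h2 := htl e (-n) z hen'
    have h3 := htl (-e) n z hne1
    have h4 := htl (-e) (-n) z hne2
    have h5 := hFOUR P hP U Tn hTn δ hδ e n z _ _ _ _ hen h1.1 h2.1 h3.1 h4.1 h1.2 h2.2 h3.2 h4.2
      hne
    rw [hFe, hFe]
    exact ⟨h5.1.symm, h5.2.symm⟩
  · -- the jump direction
    intro e n z hen
    have hen' : rdet e (-n) ≠ 0 := by rw [rdet_neg_right]; exact neg_ne_zero.2 hen
    have h1 := htl e n z hen
    have h2 := htl e (-n) z hen'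
    rw [hFpar]
    exact hJD P hP U Tn hTn δ hδ e n z _ _ hen h1.1 h2.1 h1.2 h2.2
  · -- equivalence
    intro e
    exact ⟨fun _ => rfl, fun h => h.symm, fun h h' => h.trans h'⟩
  · -- multiples
    intro e c a b hc
    induction a, b using Germ.inductionOn₂ with
    | h f g =>
      rw [hParc, hParc]
      intro h
      filter_upwards [h] with n hn
      have e1 : ∀ x : V, rdet (c • e) x = c * rdet e x := by
        intro x
        simp only [rdet, Prod.smul_fst, Prod.smul_snd, smul_eq_mul]
        ring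
      rw [e1, e1] at hn
      exact mul_left_cancel₀ hc hn
  · -- two directions
    intro e e' a b hee
    induction a, b using Germ.inductionOn₂ with
    | h f g =>
      rw [hParc, hParc]
      intro h1 h2
      refine Germ.coe_eq.2 ?_
      filter_upwards [h1, h2] with n k1 k2
      simp only [rdet] at k1 k2 hee
      ext
      · have e1 : ((f n).1 - (g n).1) * (e.1 * e'.2 - e.2 * e'.1) = 0 := by
          linear_combination e'.1 * k1 - e.1 * k2
        have := (mul_eq_zero.1 e1).resolve_right hee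
        linarith
      · have e1 : ((f n).2 - (g n).2) * (e.1 * e'.2 - e.2 * e'.1) = 0 := by
          linear_combination e'.2 * k1 - e.2 * k2
        have := (mul_eq_zero.1 e1).resolve_right hee
        linarith
  · -- directions
    intro e n z hen hne
    by_contra hD
    apply hne
    have he : e ≠ 0 := by
      rintro rfl
      apply hen
      simp [rdet]
    have hen' : rdet e (-n) ≠ 0 := by rw [rdet_neg_right]; exact neg_ne_zero.2 hen
    have h1 := htl e n z hen
    rw [hDIRF P e n he hD] at h1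
    rw [hFe, huniq _ _ _ _ hen' h1.1 h1.2]
    exact Filter.Eventually.of_forall fun _ => rfl

end Pool.Agent.PTP
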