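import Pool.Agent.PTP.Targets
import Pool.Agent.PTR.FLCThm

/-!
# PTP: A1
-/

set_option autoImplicit false

namespace Pool.Agent.PTP

open Pool.Agent.PTR Filter Topology
open Pool.Agent.PTR.OL (V ii dif difs FLC InHull)

namespace A1

/-- A strip without inner faults (for all the strips of the same height). -/
theorem base (hSTF : T_STF) (hSTK : T_STK) (hTE : T_TE) (hET : T_ET) (hBODY : T_BODY)
    (hINTF : T_INTF) (P : Finset (Finset HPl)) (hP : PB P)
    (hIv : ∀ e, IsDir P e → Iv (pset P) e) (e : V) (he : IsDir P e) (h : ℝ)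
    (hno : ∀ T, Stp (pset P) e h T → ∀ c, 0 < c → c < h → ¬ SF (pset P) e T c)
    (T : Set V) (hT : Stp (pset P) e h T) : TDP (pset P) := by
  have he0 : e ≠ 0 := he.1
  have hh : 0 < h := hT.1
  have hn : 0 < e.1 ^ 2 + e.2 ^ 2 := by
    rcases eq_or_ne e.1 0 with h1 | h1
    · have h2 : e.2 ≠ 0 := fun h2 => he0 (Prod.ext h1 h2)
      positivity
    · positivity
  set w : V := (h / (e.1 ^ 2 + e.2 ^ 2)) • ((-e.2, e.1) : V) with hw
  have hwd : rdet e w = h := by
    simp only [hw, rdet, Prod.smul_fst, Prod.smul_snd, smul_eq_mul]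
    field_simp
    ring
  have hw0 : w ≠ 0 := by
    intro hcon
    rw [hcon] at hwd
    simp only [rdet, Prod.fst_zero, Prod.snd_zero, mul_zero, sub_zero] at hwd
    exact hh.ne hwd
  have hFLC := hSTF P hP hIv e he h hno T w hT hwd
  obtain ⟨hTil, hPer, _⟩ := hSTK P hP e w T h hT hwd
  have huv : rdet e w ≠ 0 := by rw [hwd]; exact hh.ne'
  have hcov := hTE P hP (Stk w T) hTil e w huv
  obtain ⟨hin, _, _, _⟩ := hINTF P hP e w huv
  obtain ⟨hcpt, _, _⟩ := hBODY P hP
  have hbd : ∃ r : ℝ, ∀ z ∈ fset P e w, ‖z‖ ≤ r := by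
    obtain ⟨r, hr⟩ := hcpt.isBounded.exists_norm_le
    exact ⟨r, fun z hz => hr z (hin z hz)⟩
  obtain ⟨T', v, hv, hcov', hp1, hp2⟩ :=
    per_case (fset P e w) (Stk w T) hbd hcov hFLC w hw0 hPer
  exact ⟨T', hET P hP T' e w huv hcov', w, v, li_of_rdet hv, hp1, hp2⟩

end A1

theorem p_A1_of (hSTA : T_STA) (hSTB : T_STB) (hSTF : T_STF) (hSTK : T_STK) (hTE : T_TE)
    (hET : T_ET) (hWD : T_WD) (hBODY : T_BODY) (hINTF : T_INTF) : T_A1 := by
  intro P hP hIv e he T c c' hTil hcc hc hc'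
  obtain ⟨T0, hT0⟩ := hSTA P hP e he.1 T c c' hTil hcc hc hc'
  have hw : 0 < wd (pset P) e := (hWD P hP e he.1).1
  have key : ∀ n : ℕ, ∀ (h : ℝ) (T : Set V), Stp (pset P) e h T → h < n * wd (pset P) e →
      TDP (pset P) := by
    intro n
    induction n with
    | zero =>
      intro h T hT hlt
      exfalso
      have := hT.1
      simp only [Nat.cast_zero, zero_mul] at hlt
      linarith
    | succ n ih =>
      intro h T hT hlt
      by_cases hno : ∀ T, Stp (pset P) e h T → ∀ c, 0 < c → c < h → ¬ SF (pset P) e T c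
      · exact A1.base hSTF hSTK hTE hET hBODY hINTF P hP hIv e he h hno T hT
      · push Not at hno
        obtain ⟨T1, hT1, c1, hc1, hc1h, hSF⟩ := hno
        obtain ⟨_, h2⟩ := hSTB P hP e he.1 T1 h hT1
        obtain ⟨h3, T2, hT2⟩ := h2 c1 hc1 hc1h hSF
        refine ih c1 T2 hT2 ?_
        push_cast at hlt
        linarith
  obtain ⟨n, hn⟩ := exists_nat_gt ((c' - c) / wd (pset P) e)
  exact key n (c' - c) T0 hT0 ((div_lt_iff₀ hw).1 hn)

end Pool.Agent.PTP
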