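import Pool.Agent.PTP.P_INTF

/-! PTP, section A: BODY. -/

set_option autoImplicit false

namespace Pool.Agent.PTP

open Pool.Agent.PTR Filter Topology
open Pool.Agent.PTR.OL (V ii dif difs FLC InHull)

open Flg

lemma poly_closed (S : Finset HPl) : IsClosed (poly S) := by
  have : poly S = ⋂ h ∈ S, {y : V | hd h y ≤ h.2} := by
    ext y
    simp [poly]
  rw [this]
  exact isClosed_biInter fun h _ => isClosed_le (hd_cont h) continuous_const

lemma pset_eq (P : Finset (Finset HPl)) : pset P = ⋃ S ∈ P, poly S := by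
  ext y
  simp [pset]

theorem p_BODY : T_BODY := by
  intro P hP
  have hcl : IsClosed (pset P) := by
    rw [pset_eq]
    exact isClosed_biUnion_finset fun S _ => poly_closed S
  refine ⟨?_, ?_, ?_⟩
  · rw [pset_eq]
    apply P.isCompact_biUnion
    intro S hS
    obtain ⟨r, hr⟩ := hP.bd S hS
    apply Metric.isCompact_of_isClosed_isBounded (poly_closed S)
    exact (Metric.isBounded_closedBall (x := (0 : V)) (r := r)).subset fun x hx => by
      rw [mem_closedBall_zero_iff]
      exact hr x hx
  · obtain ⟨S, hS⟩ := hP.ne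
    obtain ⟨x, hx⟩ := hP.ip S hS
    exact ⟨x, strict_int hS hx⟩
  · apply Set.Subset.antisymm
    · exact closure_minimal interior_subset hcl
    · rintro x ⟨S, hS, hx⟩
      obtain ⟨y, hy⟩ := hP.ip S hS
      have h1 : Tendsto (fun s : ℝ => x + s • (y - x)) (𝓝[>] (0 : ℝ)) (𝓝 x) := by
        have h1 : Tendsto (fun s : ℝ => x + s • (y - x)) (𝓝 0) (𝓝 (x + (0 : ℝ) • (y - x))) := by
          apply Continuous.tendsto
          fun_prop
        rw [zero_smul, add_zero] at h1
        exact h1.mono_left nhdsWithin_le_nhds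
      apply mem_closure_of_tendsto h1
      have h2 : ∀ᶠ s in 𝓝[>] (0 : ℝ), s < 1 := by
        have : Set.Ioo (0 : ℝ) 1 ∈ 𝓝[>] (0 : ℝ) := Ioo_mem_nhdsGT one_pos
        filter_upwards [this] with s hs
        exact hs.2
      filter_upwards [ev_pos, h2] with s hs hs'
      apply strict_int hS
      intro h hh
      have h3 := hx h hh
      have h4 := hy h hh
      have e : hd h (x + s • (y - x)) = (1 - s) * hd h x + s * hd h y := by
        rw [hd_add, hd_smul, sub_eq_add_neg, hd_add, hd_neg]
        ring
      rw [e]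
      have h5 : (1 - s) * hd h x ≤ (1 - s) * h.2 :=
        mul_le_mul_of_nonneg_left h3 (by linarith)
      have h6 : s * hd h y < s * h.2 := mul_lt_mul_of_pos_left h4 hs
      linarith

end Pool.Agent.PTP
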