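import Pool.Agent.PTP.Targets

/-!
# PTP: finitely many crossing points, support of the corner function
-/

set_option autoImplicit false

namespace Pool.Agent.PTP

open Pool.Agent.PTR Filter Topology
open Pool.Agent.PTR.OL (V ii dif difs FLC InHull)

/-- Two crossing lines meet in at most one point. -/
theorem crf_one (h h' : HPl) :
    {x : V | hd h x = h.2 ∧ hd h' x = h'.2 ∧ h.1.1 * h'.1.2 - h.1.2 * h'.1.1 ≠ 0}.Subsingleton := by
  rintro x ⟨hx, hx', hd0⟩ y ⟨hy, hy', -⟩
  simp only [hd] at hx hx' hy hy'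
  have e1 : h.1.1 * (x.1 - y.1) + h.1.2 * (x.2 - y.2) = 0 := by linarith
  have e2 : h'.1.1 * (x.1 - y.1) + h'.1.2 * (x.2 - y.2) = 0 := by linarith
  have f1 : (h.1.1 * h'.1.2 - h.1.2 * h'.1.1) * (x.1 - y.1) = 0 := by
    linear_combination h'.1.2 * e1 - h.1.2 * e2
  have f2 : (h.1.1 * h'.1.2 - h.1.2 * h'.1.1) * (x.2 - y.2) = 0 := by
    linear_combination h.1.1 * e2 - h'.1.1 * e1
  have g1 := (mul_eq_zero.mp f1).resolve_left hd0
  have g2 := (mul_eq_zero.mp f2).resolve_left hd0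
  exact Prod.ext (sub_eq_zero.mp g1) (sub_eq_zero.mp g2)

theorem p_CRF : T_CRF := by
  classical
  intro P
  have hf : (⋃ h ∈ P.biUnion id, ⋃ h' ∈ P.biUnion id,
      {x : V | hd h x = h.2 ∧ hd h' x = h'.2 ∧
        h.1.1 * h'.1.2 - h.1.2 * h'.1.1 ≠ 0}).Finite := by
    refine Set.Finite.biUnion (Finset.finite_toSet _) ?_
    intro h _
    refine Set.Finite.biUnion (Finset.finite_toSet _) ?_
    intro h' _
    exact (crf_one h h').finite
  refine hf.subset ?_
  rintro x ⟨S, hS, h, hh, S', hS', h', hh', h1, h2, h3⟩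
  simp only [Set.mem_iUnion, Set.mem_ofPred_eq]
  exact ⟨h, Finset.mem_biUnion.mpr ⟨S, hS, hh⟩, h', Finset.mem_biUnion.mpr ⟨S', hS', hh'⟩,
    h1, h2, h3⟩

theorem mem_cD (P : Finset (Finset HPl)) (x : V) : x ∈ cD P ↔ x ∈ crs P := by
  classical
  unfold cD
  rw [dif_pos (p_CRF P)]
  simp

theorem hd_neg (h : HPl) (x : V) : hd h (-x) = -hd h x := by
  simp only [hd, Prod.fst_neg, Prod.snd_neg]
  ring

theorem kk_zero_of_left {P : Finset (Finset HPl)} {e n x : V}
    (h1 : x ∈ fset P e n ↔ x ∈ fset P (-e) n) (h2 : x ∈ fset P e (-n) ↔ x ∈ fset P (-e) (-n)) :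
    kk P e n x = 0 := by
  have a1 : ii (fset P e n) x = ii (fset P (-e) n) x := OL.ii_congr h1
  have a2 : ii (fset P e (-n)) x = ii (fset P (-e) (-n)) x := OL.ii_congr h2
  unfold kk
  rw [a1, a2]
  ring

theorem kk_zero_of_right {P : Finset (Finset HPl)} {e n x : V}
    (h1 : x ∈ fset P e n ↔ x ∈ fset P e (-n)) (h2 : x ∈ fset P (-e) n ↔ x ∈ fset P (-e) (-n)) :
    kk P e n x = 0 := by
  have a1 : ii (fset P e n) x = ii (fset P e (-n)) x := OL.ii_congr h1
  have a2 : ii (fset P (-e) n) x = ii (fset P (-e) (-n)) x := OL.ii_congr h2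
  unfold kk
  rw [a1, a2]
  ring

theorem fset_congr {P : Finset (Finset HPl)} {u v u' v' x : V}
    (H : ∀ S ∈ P, ∀ h ∈ S, lx (h.2 - hd h x) (-hd h u) (-hd h v) ↔
      lx (h.2 - hd h x) (-hd h u') (-hd h v')) :
    x ∈ fset P u v ↔ x ∈ fset P u' v' := by
  constructor
  · rintro ⟨S, hS, hx⟩
    exact ⟨S, hS, fun h hh => (H S hS h hh).mp (hx h hh)⟩
  · rintro ⟨S, hS, hx⟩
    exact ⟨S, hS, fun h hh => (H S hS h hh).mpr (hx h hh)⟩

theorem lx_of_ne {p q r q' r' : ℝ} (hp : p ≠ 0) : lx p q r ↔ lx p q' r' := by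
  unfold lx
  constructor
  · rintro (h | ⟨h, -⟩)
    · exact Or.inl h
    · exact absurd h hp
  · rintro (h | ⟨h, -⟩)
    · exact Or.inl h
    · exact absurd h hp

theorem lx_of_ne2 {p q r r' : ℝ} (hq : q ≠ 0) : lx p q r ↔ lx p q r' := by
  unfold lx
  constructor
  · rintro (h | ⟨h, h' | ⟨h', -⟩⟩)
    · exact Or.inl h
    · exact Or.inr ⟨h, Or.inl h'⟩
    · exact absurd h' hq
  · rintro (h | ⟨h, h' | ⟨h', -⟩⟩)
    · exact Or.inl h
    · exact Or.inr ⟨h, Or.inl h'⟩
    · exact absurd h' hq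

theorem p_KKD : T_KKD := by
  intro P hP e n x hen hk
  by_contra hx
  rw [mem_cD] at hx
  apply hk
  by_cases hA : ∀ S ∈ P, ∀ h ∈ S, hd h x = h.2 → hd h e = 0
  · have key : ∀ w : V, (x ∈ fset P e w ↔ x ∈ fset P (-e) w) := by
      intro w
      apply fset_congr
      intro S hS h hh
      by_cases hact : hd h x = h.2
      · have h0 := hA S hS h hh hact
        rw [hd_neg, h0, neg_zero, neg_zero]
      · exact lx_of_ne (sub_ne_zero.mpr (Ne.symm hact))
    exact kk_zero_of_left (key n) (key (-n))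
  · push Not at hA
    obtain ⟨S₀, hS₀, h₀, hh₀, hact₀, he₀⟩ := hA
    have key : ∀ u : V, (∀ h : HPl, hd h u = 0 → hd h e = 0) →
        (x ∈ fset P u n ↔ x ∈ fset P u (-n)) := by
      intro u hu
      apply fset_congr
      intro S hS h hh
      by_cases hact : hd h x = h.2
      · apply lx_of_ne2
        intro hq
        have h0 : hd h e = 0 := hu h (by linarith)
        have hne : h.1 ≠ 0 := hP.nz S hS h hh
        apply hx
        refine ⟨S₀, hS₀, h₀, hh₀, S, hS, h, hh, hact₀, hact, ?_⟩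
        intro hdet
        apply he₀
        simp only [hd] at h0 ⊢
        -- h parallel to h₀ : both components
        have f1 : h.1.1 * (h₀.1.1 * e.1 + h₀.1.2 * e.2) = 0 := by
          linear_combination h₀.1.1 * h0 - e.2 * hdet
        have f2 : h.1.2 * (h₀.1.1 * e.1 + h₀.1.2 * e.2) = 0 := by
          linear_combination h₀.1.2 * h0 + e.1 * hdet
        by_contra hc
        have g1 := (mul_eq_zero.mp f1).resolve_right hc
        have g2 := (mul_eq_zero.mp f2).resolve_right hc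
        exact hne (Prod.ext g1 g2)
      · exact lx_of_ne (sub_ne_zero.mpr (Ne.symm hact))
    refine kk_zero_of_right (key e fun h hh => hh) (key (-e) fun h hh => ?_)
    rw [hd_neg] at hh
    linarith

end Pool.Agent.PTP
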