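import Pool.Agent.PTP.P_INTF

/-! PTP, section A: EDGE. -/

set_option autoImplicit false

namespace Pool.Agent.PTP

open Pool.Agent.PTR Filter Topology
open Pool.Agent.PTR.OL (V ii dif difs FLC InHull)

open Flg

theorem p_EDGE : T_EDGE := by
  intro P hP e n x hen hx hact
  obtain ⟨S, hS, hxS⟩ := hx
  obtain ⟨y, hy⟩ := hP.ip S hS
  -- coordinates of `y - x`
  set d : V := y - x with hd0
  set β : ℝ := rdet e d with hβ
  have hform : ∀ h ∈ S, hd h x = h.2 → rdet e n * hd h d = β * hd h n := by
    intro h hh h1
    have h2 := hact S hS h hh h1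
    simp only [hβ, rdet]
    simp only [hd] at h2 ⊢
    linear_combination (n.2 * d.1 - n.1 * d.2) * h2
  have hneg : ∀ h ∈ S, hd h x = h.2 → hd h d < 0 := by
    intro h hh h1
    have h2 := hy h hh
    have e1 : hd h d = hd h y - hd h x := by
      rw [hd0, sub_eq_add_neg, hd_add, hd_neg]
      ring
    rw [e1]
    linarith
  -- the sign of `hd h n` for the active half planes
  rcases lt_or_ge 0 (β * rdet e n) with hs | hs
  · left
    refine ⟨S, hS, fun h hh => ?_⟩
    rcases lt_or_eq_of_le (hxS h hh) with h1 | h1
    · exact lx_pos (by linarith)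
    · have h2 := hact S hS h hh h1
      have h3 := hform h hh h1
      have h4 := hneg h hh h1
      have h5 : hd h n < 0 := by
        by_contra hcon
        push Not at hcon
        have h6 : 0 < rdet e n ^ 2 := by positivity
        have h7 : rdet e n ^ 2 * hd h d = (β * rdet e n) * hd h n := by
          linear_combination rdet e n * h3
        have h8 : rdet e n ^ 2 * hd h d < 0 := mul_neg_of_pos_of_neg h6 h4
        have h9 : 0 ≤ (β * rdet e n) * hd h n := mul_nonneg hs.le hcon
        linarith
      refine Or.inr ⟨by linarith, Or.inr ⟨by linarith, by linarith⟩⟩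
  · right
    refine ⟨S, hS, fun h hh => ?_⟩
    rcases lt_or_eq_of_le (hxS h hh) with h1 | h1
    · exact lx_pos (by linarith)
    · have h2 := hact S hS h hh h1
      have h3 := hform h hh h1
      have h4 := hneg h hh h1
      have h5 : 0 < hd h n := by
        by_contra hcon
        push Not at hcon
        have h6 : 0 < rdet e n ^ 2 := by positivity
        have h7 : rdet e n ^ 2 * hd h d = (β * rdet e n) * hd h n := by
          linear_combination rdet e n * h3
        have h8 : rdet e n ^ 2 * hd h d < 0 := mul_neg_of_pos_of_neg h6 h4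
        have h9 : 0 ≤ (β * rdet e n) * hd h n := mul_nonneg_of_nonpos_of_nonpos hs hcon
        linarith
      refine Or.inr ⟨by linarith, Or.inr ⟨by linarith, ?_⟩⟩
      rw [hd_neg]
      linarith

end Pool.Agent.PTP
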