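import Pool.Agent.PTP.Targets

/-! PTP, section A: PERT, SCAL, LOC, DIRF, LINF. -/

set_option autoImplicit false

namespace Pool.Agent.PTP

open Pool.Agent.PTR Filter Topology
open Pool.Agent.PTR.OL (V ii dif difs FLC InHull)

namespace Flg

lemma hd_add (h : HPl) (x y : V) : hd h (x + y) = hd h x + hd h y := by
  simp only [hd, Prod.fst_add, Prod.snd_add]; ring

lemma hd_smul (h : HPl) (s : ℝ) (x : V) : hd h (s • x) = s * hd h x := by
  simp only [hd, Prod.smul_fst, Prod.smul_snd, smul_eq_mul]; ring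

lemma hd_neg (h : HPl) (x : V) : hd h (-x) = -hd h x := by
  simp only [hd, Prod.fst_neg, Prod.snd_neg]; ring

lemma lx_pos {p q r : ℝ} (h : 0 < p) : lx p q r := Or.inl h

lemma lx_neg {p q r : ℝ} (h : p < 0) : ¬ lx p q r := by
  rintro (h1 | ⟨h1, -⟩) <;> linarith

lemma lx_zero {q r : ℝ} : lx 0 q r ↔ (0 < q ∨ (q = 0 ∧ 0 < r)) := by
  unfold lx
  constructor
  · rintro (h | ⟨-, h⟩)
    · exact absurd h (lt_irrefl 0)
    · exact h
  · intro h
    exact Or.inr ⟨rfl, h⟩

/-- the third component does not matter if the first or the second is not zero -/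
lemma lx_third {p q r r' : ℝ} (h : p ≠ 0 ∨ q ≠ 0) : lx p q r ↔ lx p q r' := by
  unfold lx
  constructor <;>
  · rintro (h1 | ⟨h1, h2 | ⟨h2, h3⟩⟩)
    · exact Or.inl h1
    · exact Or.inr ⟨h1, Or.inl h2⟩
    · rcases h with h | h
      · exact absurd h1 h
      · exact absurd h2 h

lemma fset_congr {P : Finset (Finset HPl)} {u v u' v' x x' : V}
    (H : ∀ S ∈ P, ∀ h ∈ S, (lx (h.2 - hd h x) (-hd h u) (-hd h v) ↔
      lx (h.2 - hd h x') (-hd h u') (-hd h v'))) : x ∈ fset P u v ↔ x' ∈ fset P u' v' := by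
  constructor
  · rintro ⟨S, hS, hx⟩
    exact ⟨S, hS, fun h hh => (H S hS h hh).1 (hx h hh)⟩
  · rintro ⟨S, hS, hx⟩
    exact ⟨S, hS, fun h hh => (H S hS h hh).2 (hx h hh)⟩

lemma ev_all {P : Finset (Finset HPl)} {Q : HPl → ℝ → Prop}
    (H : ∀ S ∈ P, ∀ h ∈ S, ∀ᶠ s in 𝓝[>] (0 : ℝ), Q h s) :
    ∃ ε₀ > 0, ∀ s, 0 < s → s < ε₀ → ∀ S ∈ P, ∀ h ∈ S, Q h s := by
  have h1 : ∀ᶠ s in 𝓝[>] (0 : ℝ), ∀ S ∈ P, ∀ h ∈ S, Q h s := by
    rw [Filter.eventually_all_finset]
    intro S hS
    rw [Filter.eventually_all_finset]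
    exact H S hS
  obtain ⟨u, hu, hsub⟩ := mem_nhdsGT_iff_exists_Ioo_subset.1 h1
  exact ⟨u, hu, fun s hs hs' => hsub ⟨hs, hs'⟩⟩

lemma ev_small (A : ℝ) {c : ℝ} (hc : 0 < c) : ∀ᶠ s in 𝓝[>] (0 : ℝ), s * |A| < c := by
  have h1 : Tendsto (fun s : ℝ => s * |A|) (𝓝 0) (𝓝 (0 * |A|)) :=
    (continuous_id.mul continuous_const).tendsto 0
  rw [zero_mul] at h1
  exact (h1.mono_left nhdsWithin_le_nhds).eventually (gt_mem_nhds hc)

lemma ev_pos : ∀ᶠ s in 𝓝[>] (0 : ℝ), 0 < s := self_mem_nhdsWithin

lemma small_le {s A c : ℝ} (hs : 0 < s) (h : s * |A| < c) : s * A < c ∧ -c < s * A := by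
  have h1 : |s * A| < c := by rw [abs_mul, abs_of_pos hs]; exact h
  exact ⟨(abs_lt.1 h1).2, (abs_lt.1 h1).1⟩

end Flg

open Flg

theorem p_SCAL : T_SCAL := by
  intro P u v l m k hl hm
  ext x
  apply fset_congr
  intro S hS h hh
  rw [hd_smul, hd_add, hd_smul, hd_smul]
  rcases lt_trichotomy (h.2 - hd h x) 0 with hp | hp | hp
  · exact iff_of_false (lx_neg hp) (lx_neg hp)
  · rw [hp, lx_zero, lx_zero]
    have e1 : (0 < -(l * hd h u)) ↔ 0 < -hd h u := by
      constructor
      · intro h1
        by_contra h2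
        have : 0 ≤ hd h u := by linarith
        have := mul_nonneg hl.le this
        linarith
      · intro h1
        have : 0 < l * (-hd h u) := mul_pos hl h1
        linarith
    have e2 : (-(l * hd h u) = 0) ↔ -hd h u = 0 := by
      constructor
      · intro h1
        have : l * hd h u = 0 := by linarith
        rcases mul_eq_zero.1 this with h2 | h2
        · exact absurd h2 hl.ne'
        · rw [h2, neg_zero]
      · intro h1
        have : hd h u = 0 := by linarith
        rw [this, mul_zero, neg_zero]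
    rw [e1, e2]
    refine or_congr Iff.rfl (and_congr_right fun h0 => ?_)
    have h00 : hd h u = 0 := by linarith
    rw [h00, mul_zero, add_zero]
    constructor
    · intro h1
      by_contra h2
      have : 0 ≤ hd h v := by linarith
      have := mul_nonneg hm.le this
      linarith
    · intro h1
      have : 0 < m * (-hd h v) := mul_pos hm h1
      linarith
  · exact iff_of_true (lx_pos hp) (lx_pos hp)

theorem p_PERT : T_PERT := by
  intro P hP u v huv
  have key : ∀ S ∈ P, ∀ h ∈ S, ∀ᶠ ε in 𝓝[>] (0 : ℝ), ∀ w : V, ∀ p : ℝ,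
      (lx p (-hd h (u + ε • v)) (-hd h w) ↔ lx p (-hd h u) (-hd h v)) := by
    intro S hS h hh
    have hne : hd h u ≠ 0 ∨ hd h v ≠ 0 := by
      by_contra hcon
      push Not at hcon
      obtain ⟨h1, h2⟩ := hcon
      have h3 := hP.nz S hS h hh
      apply h3
      simp only [hd] at h1 h2
      simp only [rdet] at huv
      have ha : h.1.1 = 0 := by
        have : h.1.1 * (u.1 * v.2 - u.2 * v.1) = 0 := by
          linear_combination v.2 * h1 - u.2 * h2
        rcases mul_eq_zero.1 this with h4 | h4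
        · exact h4
        · exact absurd h4 huv
      have hb : h.1.2 = 0 := by
        have : h.1.2 * (u.1 * v.2 - u.2 * v.1) = 0 := by
          linear_combination (-v.1) * h1 + u.1 * h2
        rcases mul_eq_zero.1 this with h4 | h4
        · exact h4
        · exact absurd h4 huv
      exact Prod.ext ha hb
    by_cases hA : hd h u = 0
    · have hB : hd h v ≠ 0 := by
        rcases hne with h1 | h1
        · exact absurd hA h1
        · exact h1
      filter_upwards [ev_pos] with ε hε w p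
      rw [hd_add, hd_smul, hA, zero_add, neg_zero]
      rcases lt_trichotomy p 0 with hp | hp | hp
      · exact iff_of_false (lx_neg hp) (lx_neg hp)
      · rw [hp, lx_zero, lx_zero]
        rcases lt_or_gt_of_ne hB with h1 | h1
        · have h2 : ε * hd h v < 0 := mul_neg_of_pos_of_neg hε h1
          exact iff_of_true (Or.inl (by linarith)) (Or.inr ⟨rfl, by linarith⟩)
        · have h2 : 0 < ε * hd h v := mul_pos hε h1
          apply iff_of_false
          · rintro (h3 | ⟨h3, -⟩) <;> linarith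
          · rintro (h3 | ⟨-, h3⟩)
            · exact absurd h3 (lt_irrefl 0)
            · linarith
      · exact iff_of_true (lx_pos hp) (lx_pos hp)
    · filter_upwards [ev_pos, ev_small (hd h v) (abs_pos.2 hA)] with ε hε hs w p
      obtain ⟨h1, h2⟩ := small_le hε hs
      rw [hd_add, hd_smul]
      rcases lt_trichotomy p 0 with hp | hp | hp
      · exact iff_of_false (lx_neg hp) (lx_neg hp)
      · rw [hp, lx_zero, lx_zero]
        rcases lt_or_gt_of_ne hA with h3 | h3
        · rw [abs_of_neg h3] at h1 h2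
          exact iff_of_true (Or.inl (by linarith)) (Or.inl (by linarith))
        · rw [abs_of_pos h3] at h1 h2
          apply iff_of_false
          · rintro (h4 | ⟨h4, -⟩) <;> linarith
          · rintro (h4 | ⟨h4, -⟩) <;> linarith
      · exact iff_of_true (lx_pos hp) (lx_pos hp)
  obtain ⟨ε₀, h0, H⟩ := ev_all key
  refine ⟨ε₀, h0, fun ε hε hε' w => ?_⟩
  ext x
  apply fset_congr
  intro S hS h hh
  exact H ε hε hε' S hS h hh w _

theorem p_LOC : T_LOC := by
  intro P u v x
  have key : ∀ S ∈ P, ∀ h ∈ S, ∀ᶠ s in 𝓝[>] (0 : ℝ),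
      (lx (h.2 - hd h (x + s • u)) (-hd h u) (-hd h v) ↔
        lx (h.2 - hd h x) (-hd h u) (-hd h v)) ∧
      (lx (h.2 - hd h (x + s • u)) (-hd h (-u)) (-hd h v) ↔
        lx (h.2 - hd h x) (-hd h u) (-hd h v)) := by
    intro S hS h hh
    by_cases hA : hd h u = 0
    · filter_upwards with s
      rw [hd_add, hd_smul, hd_neg, hA, mul_zero, add_zero, neg_zero]
      simp
    · rcases lt_trichotomy (h.2 - hd h x) 0 with hp | hp | hp
      · filter_upwards [ev_pos, ev_small (hd h u) (show (0 : ℝ) < -(h.2 - hd h x) by linarith)]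
          with s hs hs'
        obtain ⟨h1, h2⟩ := small_le hs hs'
        have h3 : h.2 - hd h (x + s • u) < 0 := by
          rw [hd_add, hd_smul]; linarith
        exact ⟨iff_of_false (lx_neg h3) (lx_neg hp), iff_of_false (lx_neg h3) (lx_neg hp)⟩
      · filter_upwards [ev_pos] with s hs
        rw [hp, hd_neg]
        have e : h.2 - hd h (x + s • u) = -(s * hd h u) := by
          rw [hd_add, hd_smul]; linarith
        rw [e]
        rcases lt_or_gt_of_ne hA with h3 | h3
        · have h4 : s * hd h u < 0 := mul_neg_of_pos_of_neg hs h3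
          have h5 : 0 < -(s * hd h u) := by linarith
          exact ⟨iff_of_true (lx_pos h5) (lx_zero.2 (Or.inl (by linarith))),
            iff_of_true (lx_pos h5) (lx_zero.2 (Or.inl (by linarith)))⟩
        · have h4 : 0 < s * hd h u := mul_pos hs h3
          have h5 : -(s * hd h u) < 0 := by linarith
          have h6 : ¬ lx 0 (-hd h u) (-hd h v) := by
            rw [lx_zero]
            rintro (h7 | ⟨h7, -⟩) <;> linarith
          exact ⟨iff_of_false (lx_neg h5) h6, iff_of_false (lx_neg h5) h6⟩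
      · filter_upwards [ev_pos, ev_small (hd h u) hp] with s hs hs'
        obtain ⟨h1, h2⟩ := small_le hs hs'
        have h3 : 0 < h.2 - hd h (x + s • u) := by
          rw [hd_add, hd_smul]; linarith
        exact ⟨iff_of_true (lx_pos h3) (lx_pos hp), iff_of_true (lx_pos h3) (lx_pos hp)⟩
  obtain ⟨ε₀, h0, H⟩ := ev_all key
  refine ⟨ε₀, h0, fun s hs hs' => ⟨?_, ?_⟩⟩
  · apply fset_congr
    intro S hS h hh
    exact (H s hs hs' S hS h hh).1
  · apply fset_congr
    intro S hS h hh
    exact (H s hs hs' S hS h hh).2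

theorem p_DIRF : T_DIRF := by
  intro P e n he hd'
  ext x
  apply fset_congr
  intro S hS h hh
  apply lx_third
  right
  intro h0
  exact hd' ⟨he, S, hS, h, hh, by linarith⟩

theorem p_LINF : T_LINF := by
  classical
  intro P hP e he
  refine ⟨(P.biUnion id).image (fun h => (e.1 ^ 2 + e.2 ^ 2) * h.2 /
    (e.1 * h.1.2 - e.2 * h.1.1)), ?_⟩
  intro n x hx
  by_contra hO
  apply hx
  apply fset_congr
  intro S hS h hh
  apply lx_third
  by_contra hcon
  push Not at hcon
  obtain ⟨h1, h2⟩ := hcon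
  have h2' : hd h e = 0 := by linarith
  have h1' : hd h x = h.2 := by linarith
  apply hO
  rw [Finset.mem_image]
  refine ⟨h, Finset.mem_biUnion.2 ⟨S, hS, hh⟩, ?_⟩
  have hn := hP.nz S hS h hh
  have he2 : 0 < e.1 ^ 2 + e.2 ^ 2 := by
    rcases eq_or_ne e.1 0 with h3 | h3
    · have h4 : e.2 ≠ 0 := fun h4 => he (Prod.ext h3 h4)
      have := pow_pos (abs_pos.2 h4) 2
      rw [sq_abs] at this
      nlinarith [sq_nonneg e.1]
    · have := pow_pos (abs_pos.2 h3) 2
      rw [sq_abs] at this
      nlinarith [sq_nonneg e.2]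
  simp only [hd] at h2' h1'
  have hmu : e.1 * h.1.2 - e.2 * h.1.1 ≠ 0 := by
    intro h3
    apply hn
    have ha : h.1.1 = 0 := by
      have : h.1.1 * (e.1 ^ 2 + e.2 ^ 2) = 0 := by
        linear_combination e.1 * h2' - e.2 * h3
      rcases mul_eq_zero.1 this with h4 | h4
      · exact h4
      · exact absurd h4 he2.ne'
    have hb : h.1.2 = 0 := by
      have : h.1.2 * (e.1 ^ 2 + e.2 ^ 2) = 0 := by
        linear_combination e.2 * h2' + e.1 * h3
      rcases mul_eq_zero.1 this with h4 | h4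
      · exact h4
      · exact absurd h4 he2.ne'
    exact Prod.ext ha hb
  show (e.1 ^ 2 + e.2 ^ 2) * h.2 / (e.1 * h.1.2 - e.2 * h.1.1) = rdet e x
  rw [div_eq_iff hmu, ← h1']
  simp only [rdet]
  linear_combination (e.1 * x.1 + e.2 * x.2) * h2'

end Pool.Agent.PTP
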