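import Pool.Agent.PTP.Targets

/-! # PTP: target HG

Pigeonhole and gluing: a half plane above a fault with one period and finite local complexity of
the windows gives a doubly periodic tiling.
-/

set_option autoImplicit false

namespace Pool.Agent.PTP

open Pool.Agent.PTR Filter Topology
open Pool.Agent.PTR.OL (V ii dif difs FLC InHull)

namespace HGx

theorem rdet_smul_l (l : ℝ) (e z : V) : rdet (l • e) z = l * rdet e z := by
  simp only [rdet, Prod.smul_fst, Prod.smul_snd, smul_eq_mul]; ring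

theorem rdet_smul_r (l : ℝ) (e z : V) : rdet e (l • z) = l * rdet e z := by
  simp only [rdet, Prod.smul_fst, Prod.smul_snd, smul_eq_mul]; ring

theorem nrm_pos {e : V} (he : e ≠ 0) : 0 < e.1 ^ 2 + e.2 ^ 2 := by
  by_contra hcon
  push Not at hcon
  apply he
  have h1 : e.1 = 0 := by nlinarith [sq_nonneg e.1, sq_nonneg e.2]
  have h2 : e.2 = 0 := by nlinarith [sq_nonneg e.1, sq_nonneg e.2]
  exact Prod.ext h1 h2

theorem par {e p : V} (he : e ≠ 0) (h : rdet e p = 0) : ∃ l : ℝ, p = l • e := by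
  have hn := nrm_pos he
  refine ⟨(p.1 * e.1 + p.2 * e.2) / (e.1 ^ 2 + e.2 ^ 2), ?_⟩
  have h' : e.1 * p.2 = e.2 * p.1 := by
    simp only [rdet] at h
    linarith
  refine Prod.ext ?_ ?_
  · simp only [Prod.smul_fst, smul_eq_mul]
    rw [div_mul_eq_mul_div, eq_div_iff hn.ne']
    linear_combination (-e.2) * h'
  · simp only [Prod.smul_snd, smul_eq_mul]
    rw [div_mul_eq_mul_div, eq_div_iff hn.ne']
    linear_combination e.1 * h'

/-- the period in the direction of `e` -/
theorem pos_per {e p : V} {T : Set V} (he : e ≠ 0) (hp : p ≠ 0) (h : rdet e p = 0)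
    (hper : Per p T) : ∃ l : ℝ, 0 < l ∧ Per (l • e) T := by
  obtain ⟨l, hl⟩ := par he h
  have hl0 : l ≠ 0 := by
    rintro rfl
    rw [zero_smul] at hl
    exact hp hl
  rcases lt_or_gt_of_ne hl0 with h1 | h1
  · refine ⟨-l, by linarith, ?_⟩
    intro z
    have h2 := hper (z + (-l) • e)
    rw [hl, add_assoc, neg_smul, neg_add_cancel, add_zero] at h2
    rw [neg_smul]
    exact h2.symm
  · exact ⟨l, h1, by rw [← hl]; exact hper⟩

theorem li_of {a b : ℝ × ℝ} (h : rdet a b ≠ 0) : LinearIndependent ℝ ![a, b] := by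
  rw [LinearIndependent.pair_iff]
  intro s t hst
  have h1 := congrArg Prod.fst hst
  have h2 := congrArg Prod.snd hst
  simp only [Prod.fst_add, Prod.snd_add, Prod.smul_fst, Prod.smul_snd, smul_eq_mul, Prod.fst_zero,
    Prod.snd_zero] at h1 h2
  simp only [rdet] at h
  constructor
  · have e : s * (a.1 * b.2 - a.2 * b.1) = 0 := by linear_combination b.2 * h1 - b.1 * h2
    exact (mul_eq_zero.1 e).resolve_right h
  · have e : t * (a.1 * b.2 - a.2 * b.1) = 0 := by linear_combination a.1 * h2 - a.2 * h1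
    exact (mul_eq_zero.1 e).resolve_right h

end HGx

open HGx

theorem p_HG_of (hGLU : T_GLU) (hTE : T_TE) (hET : T_ET) (hWD : T_WD) (hINTF : T_INTF) :
    T_HG := by
  intro P hP e he T c hT hc hfin p hp hpe hper
  obtain ⟨l, hl, hper'⟩ := pos_per he hp hpe hper
  set T0 : Set V := Abv (pset P) e T c with hT0
  set q : V := l • e with hq
  have hqe : ∀ z, rdet q z = l * rdet e z := fun z => rdet_smul_l l e z
  have hq0 : q ≠ 0 := smul_ne_zero hl.ne' he
  -- the flag
  set u0 : V := (-e.2, e.1) with hu0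
  have hn := nrm_pos he
  have hu1 : rdet e u0 = e.1 ^ 2 + e.2 ^ 2 := by simp only [rdet, hu0]; ring
  have hu2 : 0 < rdet e u0 := by rw [hu1]; exact hn
  have hu3 : rdet u0 e ≠ 0 := by
    have : rdet u0 e = -(e.1 ^ 2 + e.2 ^ 2) := by simp only [rdet, hu0]; ring
    rw [this]
    exact neg_ne_zero.2 hn.ne'
  obtain ⟨hw0, -, -, ⟨lo, hlo⟩, -⟩ := hWD P hP e he
  set w : ℝ := wd (pset P) e with hw
  have hloC : ∀ x ∈ fset P u0 e, lo ≤ rdet e x ∧ rdet e x < lo + w := hlo u0 e hu2
  obtain ⟨-, -, hint, -⟩ := hINTF P hP u0 e hu3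
  have hcov := hTE P hP T hT u0 e hu3
  -- points above the fault are covered once by `T0`
  have hcov0 : ∀ z, c ≤ rdet e z → ∃! t, t ∈ T0 ∧ z - t ∈ fset P u0 e := by
    intro z hz
    obtain ⟨t, ⟨ht, htC⟩, huniq⟩ := hcov z
    have htT0 : t ∈ T0 := by
      refine ⟨ht, ?_⟩
      rcases hc t ht with h | h
      · exfalso
        obtain ⟨s0, hs0, hs⟩ := hint _ htC
        have hx := interior_subset (hs (s0 / 2) (by linarith) (by linarith))
        have h1 := h _ hx
        have h2 : rdet e (t + (z - t + (s0 / 2) • u0 + (s0 / 2) ^ 2 • e)) =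
            rdet e z + (s0 / 2) * rdet e u0 := by
          rw [rdet_add, rdet_add, rdet_add, rdet_sub, rdet_smul_r, rdet_smul_r, rdet_self]
          ring
        rw [h2] at h1
        have h3 : 0 < (s0 / 2) * rdet e u0 := mul_pos (by linarith) hu2
        linarith
      · exact h
    exact ⟨t, ⟨htT0, htC⟩, fun t' ht' => huniq t' ⟨ht'.1.1, ht'.2⟩⟩
  -- base tiles
  set H : ℕ → ℝ := fun n => c + n * (2 * w) with hH
  have hHc : ∀ n, c ≤ H n := fun n => by
    have : 0 ≤ (n : ℝ) * (2 * w) := by positivity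
    simp only [hH]
    linarith
  have hbase : ∀ n : ℕ, ∃ t ∈ T0, H n - lo - w < rdet e t ∧ rdet e t ≤ H n - lo := by
    intro n
    have hz : rdet e ((H n / (e.1 ^ 2 + e.2 ^ 2)) • u0) = H n := by
      rw [rdet_smul_r, hu1, div_mul_cancel₀ _ hn.ne']
    obtain ⟨t, ⟨ht, htC⟩, -⟩ := hcov0 ((H n / (e.1 ^ 2 + e.2 ^ 2)) • u0) (by
      rw [hz]; exact hHc n)
    obtain ⟨h1, h2⟩ := hloC _ htC
    rw [rdet_sub, hz] at h1 h2
    exact ⟨t, ht, by linarith, by linarith⟩
  choose t ht1 ht2 ht3 using hbase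
  obtain ⟨R, hR⟩ := mod_p q hq0 (l * w)
  have hSf := hfin R
  set S : Set V := {d | ‖d‖ ≤ R ∧ |rdet e d| < w ∧ ∃ t ∈ T0, t + d ∈ T0} with hS
  set Q : ℕ → Set V := fun n => {d | ‖d‖ ≤ R ∧ |rdet e d| < w ∧ t n + d ∈ T0} with hQ
  obtain ⟨n1, _, n2, _, hne, heq⟩ := Set.Infinite.exists_ne_map_eq_of_mapsTo
    (s := (Set.univ : Set ℕ)) (t := 𝒫 S) (f := Q) Set.infinite_univ
    (fun n _ d hd => ⟨hd.1, hd.2.1, t n, ht1 n, hd.2.2⟩) hSf.finite_subsets
  wlog hlt : n1 < n2 generalizing n1 n2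
  · exact this n2 trivial n1 trivial hne.symm heq.symm (by omega)
  set v : V := t n2 - t n1 with hv
  have hvdet : w ≤ rdet e v := by
    rw [hv, rdet_sub]
    have a1 := ht3 n1
    have a2 := ht2 n2
    have a3 : (n1 : ℝ) + 1 ≤ n2 := by exact_mod_cast hlt
    have a4 : ((n1 : ℝ) + 1) * (2 * w) ≤ n2 * (2 * w) :=
      mul_le_mul_of_nonneg_right a3 (by linarith)
    simp only [hH] at a1 a2
    nlinarith
  have hqe0 : ∀ k : ℤ, rdet e (k • q) = 0 := by
    intro k
    rw [rdet_zsmul, hq, rdet_smul_r, rdet_self, mul_zero, mul_zero]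
  have hag : ∀ x : V, |rdet e (x - t n1)| < w → (x + v ∈ T0 ↔ x ∈ T0) := by
    intro x hx
    obtain ⟨k, hk⟩ := hR (x - t n1) (by
      rw [hqe, abs_mul, abs_of_pos hl]
      exact mul_le_mul_of_nonneg_left hx.le hl.le)
    have e1 : ∀ n : ℕ, (x - t n1 + k • q ∈ Q n ↔ t n + (x - t n1) ∈ T0) := by
      intro n
      constructor
      · rintro ⟨_, _, h2⟩
        rw [← add_assoc, mem_zsmul hper'] at h2
        exact h2
      · intro h2
        refine ⟨hk, ?_, ?_⟩
        · rw [rdet_add, hqe0, add_zero]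
          exact hx
        · rw [← add_assoc, mem_zsmul hper']
          exact h2
    have e2 := e1 n1
    have e3 := e1 n2
    rw [← heq, e2] at e3
    rw [show x + v = t n2 + (x - t n1) by rw [hv]; abel]
    conv_rhs => rw [show x = t n1 + (x - t n1) by abel]
    exact e3.symm
  have hvq : 0 < rdet q v := by
    rw [hqe]
    exact mul_pos hl (by linarith)
  have g1 : ∀ z ∈ fset P u0 e, l * lo ≤ rdet q z ∧ rdet q z < l * (lo + w) := by
    intro z hz
    obtain ⟨h1, h2⟩ := hloC z hz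
    rw [hqe]
    exact ⟨mul_le_mul_of_nonneg_left h1 hl.le, mul_lt_mul_of_pos_left h2 hl⟩
  have g2 : l * (lo + w) - l * lo ≤ rdet q v := by
    rw [hqe]
    have := mul_le_mul_of_nonneg_left hvdet hl.le
    linarith
  have g3 : ∀ x : V, l * (lo + rdet e (t n1) + w) - l * (lo + w) < rdet q x →
      rdet q x < l * (lo + rdet e (t n1) + w) - l * lo → (x + v ∈ T0 ↔ x ∈ T0) := by
    intro x h1 h2
    rw [hqe] at h1 h2
    have h3 : l * rdet e (t n1) < l * rdet e x := by linarith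
    have h4 : l * rdet e x < l * (rdet e (t n1) + w) := by linarith
    have h5 := lt_of_mul_lt_mul_left h3 hl.le
    have h6 := lt_of_mul_lt_mul_left h4 hl.le
    refine hag x ?_
    rw [rdet_sub, abs_lt]
    constructor <;> linarith
  have g4 : ∀ z, l * (lo + rdet e (t n1) + w) ≤ rdet q z →
      rdet q z < l * (lo + rdet e (t n1) + w) + rdet q v →
      ∃! t, t ∈ T0 ∧ z - t ∈ fset P u0 e := by
    intro z h1 _
    rw [hqe] at h1
    have h3 := le_of_mul_le_mul_left h1 hl
    have h4 := ht2 n1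
    have h5 := hHc n1
    exact hcov0 z (by linarith)
  obtain ⟨T', b1, b2, b3⟩ := hGLU (fset P u0 e) T0 q v (l * lo) (l * (lo + w))
    (l * (lo + rdet e (t n1) + w)) hper' g1 hvq g2 g3 g4
  exact ⟨T', hET P hP T' u0 e hu3 b3, q, v, li_of hvq.ne', b1, b2⟩

end Pool.Agent.PTP
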