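import Pool.Agent.PTP.P_FLAGS

/-! PTP, section A: INTF. -/

set_option autoImplicit false

namespace Pool.Agent.PTP

open Pool.Agent.PTR Filter Topology
open Pool.Agent.PTR.OL (V ii dif difs FLC InHull)

namespace Flg

/-- the form is not zero at both vectors of the flag -/
lemma hd_ne {h : HPl} (hn : h.1 ≠ 0) {u v : V} (huv : rdet u v ≠ 0) :
    hd h u ≠ 0 ∨ hd h v ≠ 0 := by
  by_contra hcon
  push Not at hcon
  obtain ⟨h1, h2⟩ := hcon
  apply hn
  simp only [hd] at h1 h2
  simp only [rdet] at huv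
  have ha : h.1.1 = 0 := by
    have : h.1.1 * (u.1 * v.2 - u.2 * v.1) = 0 := by
      linear_combination v.2 * h1 - u.2 * h2
    rcases mul_eq_zero.1 this with h4 | h4
    · exact h4
    · exact absurd h4 huv
  have hb : h.1.2 = 0 := by
    have : h.1.2 * (u.1 * v.2 - u.2 * v.1) = 0 := by
      linear_combination (-v.1) * h1 + u.1 * h2
    rcases mul_eq_zero.1 this with h4 | h4
    · exact h4
    · exact absurd h4 huv
  exact Prod.ext ha hb

lemma hd_cont (h : HPl) : Continuous (hd h) := by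
  unfold hd
  exact (continuous_const.mul continuous_fst).add (continuous_const.mul continuous_snd)

/-- a polynomial with lexicographically positive coefficients is positive for small `s > 0` -/
lemma lx_ev {p q r : ℝ} (h : lx p q r) : ∀ᶠ s in 𝓝[>] (0 : ℝ), 0 < p + s * q + s ^ 2 * r := by
  rcases h with h | ⟨h, h' | ⟨h', h''⟩⟩
  · have h1 : Tendsto (fun s : ℝ => p + s * q + s ^ 2 * r) (𝓝 0) (𝓝 (p + 0 * q + 0 ^ 2 * r)) := by
      apply Continuous.tendsto
      fun_prop
    have h2 : p + 0 * q + 0 ^ 2 * r = p := by ring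
    rw [h2] at h1
    exact (h1.mono_left nhdsWithin_le_nhds).eventually (lt_mem_nhds h)
  · filter_upwards [ev_pos, ev_small r h'] with s hs hs'
    obtain ⟨-, h2⟩ := small_le hs hs'
    have h3 : 0 < s * (q + s * r) := mul_pos hs (by linarith)
    rw [h]
    nlinarith [h3]
  · filter_upwards [ev_pos] with s hs
    have h3 : 0 < s ^ 2 * r := mul_pos (pow_pos hs 2) h''
    rw [h, h']
    linarith

lemma not_lx_ev {p q r : ℝ} (h : ¬ lx p q r) (hqr : q ≠ 0 ∨ r ≠ 0) :
    ∀ᶠ s in 𝓝[>] (0 : ℝ), p + s * q + s ^ 2 * r < 0 := by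
  have h1 : lx (-p) (-q) (-r) := by
    unfold lx at h ⊢
    push Not at h
    obtain ⟨h1, h2⟩ := h
    rcases lt_or_eq_of_le h1 with h3 | h3
    · exact Or.inl (by linarith)
    · right
      refine ⟨by linarith, ?_⟩
      obtain ⟨h4, h5⟩ := h2 h3
      rcases lt_or_eq_of_le h4 with h6 | h6
      · exact Or.inl (by linarith)
      · right
        refine ⟨by linarith, ?_⟩
        have h7 := h5 h6
        rcases hqr with h8 | h8
        · exact absurd h6 h8
        · rcases lt_or_eq_of_le h7 with h9 | h9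
          · linarith
          · exact absurd h9 h8
  filter_upwards [lx_ev h1] with s hs
  have e : -p + s * -q + s ^ 2 * -r = -(p + s * q + s ^ 2 * r) := by ring
  rw [e] at hs
  linarith

lemma form_eq (h : HPl) (x u v : V) (s : ℝ) :
    (h.2 - hd h x) + s * (-hd h u) + s ^ 2 * (-hd h v) = h.2 - hd h (x + s • u + s ^ 2 • v) := by
  rw [hd_add, hd_add, hd_smul, hd_smul]
  ring

/-- the strict polygon is contained in the interior -/
lemma strict_int {P : Finset (Finset HPl)} {S : Finset HPl} (hS : S ∈ P) {z : V}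
    (hz : ∀ h ∈ S, hd h z < h.2) : z ∈ interior (pset P) := by
  rw [mem_interior]
  refine ⟨{y | ∀ h ∈ S, hd h y < h.2}, ?_, ?_, hz⟩
  · intro y hy
    exact ⟨S, hS, fun h hh => (hy h hh).le⟩
  · have : {y : V | ∀ h ∈ S, hd h y < h.2} = ⋂ h ∈ S, {y | hd h y < h.2} := by
      ext y
      simp
    rw [this]
    exact isOpen_biInter_finset fun h _ => isOpen_lt (hd_cont h) continuous_const

lemma ev_ex {Q : ℝ → Prop} (h : ∀ᶠ s in 𝓝[>] (0 : ℝ), Q s) :
    ∃ s₀ > (0 : ℝ), ∀ s : ℝ, 0 < s → s < s₀ → Q s := by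
  obtain ⟨u, hu, hsub⟩ := mem_nhdsGT_iff_exists_Ioo_subset.1 h
  exact ⟨u, hu, fun s hs hs' => hsub ⟨hs, hs'⟩⟩

lemma tend_flag (x u v : V) :
    Tendsto (fun s : ℝ => x + s • u + s ^ 2 • v) (𝓝[>] (0 : ℝ)) (𝓝 x) := by
  have h1 : Tendsto (fun s : ℝ => x + s • u + s ^ 2 • v) (𝓝 0)
      (𝓝 (x + (0 : ℝ) • u + (0 : ℝ) ^ 2 • v)) := by
    apply Continuous.tendsto
    fun_prop
  have h2 : x + (0 : ℝ) • u + (0 : ℝ) ^ 2 • v = x := by
    rw [zero_pow two_ne_zero, zero_smul, zero_smul, add_zero, add_zero]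
  rw [h2] at h1
  exact h1.mono_left nhdsWithin_le_nhds

end Flg

open Flg

theorem p_INTF : T_INTF := by
  intro P hP u v huv
  have hout : ∀ x ∉ fset P u v, ∀ᶠ s in 𝓝[>] (0 : ℝ), x + s • u + s ^ 2 • v ∉ pset P := by
    intro x hx
    have h1 : ∀ S ∈ P, ∀ᶠ s in 𝓝[>] (0 : ℝ), x + s • u + s ^ 2 • v ∉ poly S := by
      intro S hS
      have h2 : ¬ ∀ h ∈ S, lx (h.2 - hd h x) (-hd h u) (-hd h v) := fun h2 => hx ⟨S, hS, h2⟩
      push Not at h2
      obtain ⟨h, hh, h3⟩ := h2
      have h4 : -hd h u ≠ 0 ∨ -hd h v ≠ 0 := by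
        rcases hd_ne (hP.nz S hS h hh) huv with h5 | h5
        · exact Or.inl (neg_ne_zero.2 h5)
        · exact Or.inr (neg_ne_zero.2 h5)
      filter_upwards [not_lx_ev h3 h4] with s hs hmem
      rw [form_eq] at hs
      have := hmem h hh
      linarith
    have h2 : ∀ᶠ s in 𝓝[>] (0 : ℝ), ∀ S ∈ P, x + s • u + s ^ 2 • v ∉ poly S := by
      rw [Filter.eventually_all_finset]
      exact h1
    filter_upwards [h2] with s hs hmem
    obtain ⟨S, hS, h3⟩ := hmem
    exact hs S hS h3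
  refine ⟨?_, ?_, ?_, fun x hx => ev_ex (hout x hx)⟩
  · rintro x ⟨S, hS, hx⟩
    refine ⟨S, hS, fun h hh => ?_⟩
    rcases hx h hh with h1 | ⟨h1, -⟩
    · linarith
    · linarith
  · intro x hx
    by_contra hcon
    have h1 := hout x hcon
    have h2 : ∀ᶠ s in 𝓝[>] (0 : ℝ), x + s • u + s ^ 2 • v ∈ interior (pset P) :=
      (tend_flag x u v).eventually (isOpen_interior.mem_nhds hx)
    obtain ⟨s, h3, h4⟩ := (h1.and h2).exists
    exact h3 (interior_subset h4)
  · rintro x ⟨S, hS, hx⟩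
    apply ev_ex
    have h1 : ∀ᶠ s in 𝓝[>] (0 : ℝ), ∀ h ∈ S,
        0 < (h.2 - hd h x) + s * (-hd h u) + s ^ 2 * (-hd h v) := by
      rw [Filter.eventually_all_finset]
      intro h hh
      exact lx_ev (hx h hh)
    filter_upwards [h1] with s hs
    apply strict_int hS
    intro h hh
    have := hs h hh
    rw [form_eq] at this
    linarith

end Pool.Agent.PTP
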