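import Pool.Agent.PTP.Targets

/-! PTP: NZ, there is a nonzero corner. -/

set_option autoImplicit false

namespace Pool.Agent.PTP

open Pool.Agent.PTR Filter Topology
open Pool.Agent.PTR.OL (V ii dif difs FLC InHull ii_of_mem ii_of_not ii_congr)

namespace NZ

lemma hd_add (h : HPl) (x y : V) : hd h (x + y) = hd h x + hd h y := by
  simp only [hd, Prod.fst_add, Prod.snd_add]; ring

lemma hd_smul (h : HPl) (s : ℝ) (y : V) : hd h (s • y) = s * hd h y := by
  simp only [hd, Prod.smul_fst, Prod.smul_snd, smul_eq_mul]; ring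

lemma hd_neg (h : HPl) (y : V) : hd h (-y) = -hd h y := by
  simp only [hd, Prod.fst_neg, Prod.snd_neg]; ring

lemma hd_sub (h : HPl) (x y : V) : hd h (x - y) = hd h x - hd h y := by
  simp only [hd, Prod.fst_sub, Prod.snd_sub]; ring

/-- A point with `hd h (x + s u) ≤ h.2` for small `s`. -/
lemma small (S : Finset HPl) (x u : V)
    (hS : ∀ h ∈ S, hd h x < h.2 ∨ (hd h x = h.2 ∧ hd h u ≤ 0)) :
    ∃ s₀ > 0, ∀ s : ℝ, 0 < s → s < s₀ → x + s • u ∈ poly S := by
  classical
  have key : ∀ h ∈ S, ∃ s₀ > 0, ∀ s : ℝ, 0 < s → s < s₀ → hd h (x + s • u) ≤ h.2 := by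
    intro h hh
    rcases hS h hh with h1 | ⟨h1, h2⟩
    · refine ⟨(h.2 - hd h x) / (|hd h u| + 1), by
        have : 0 < |hd h u| + 1 := by positivity
        have : 0 < h.2 - hd h x := by linarith
        positivity, ?_⟩
      intro s hs hs'
      have hp : 0 < |hd h u| + 1 := by positivity
      rw [lt_div_iff₀ hp] at hs'
      rw [hd_add, hd_smul]
      have h3 : s * hd h u ≤ s * |hd h u| := mul_le_mul_of_nonneg_left (le_abs_self _) hs.le
      nlinarith
    · refine ⟨1, one_pos, ?_⟩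
      intro s hs _
      rw [hd_add, hd_smul]
      nlinarith
  choose! f hf hf' using key
  rcases S.eq_empty_or_nonempty with rfl | hne
  · exact ⟨1, one_pos, fun s _ _ => by intro h hh; simp at hh⟩
  · refine ⟨S.inf' hne f, ?_, ?_⟩
    · rw [gt_iff_lt, Finset.lt_inf'_iff]
      exact fun h hh => hf h hh
    · intro s hs hs' h hh
      exact hf' h hh s hs (hs'.trans_le (Finset.inf'_le _ hh))

lemma fset_sub (P : Finset (Finset HPl)) (u v : V) : fset P u v ⊆ pset P := by
  rintro x ⟨S, hS, hx⟩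
  refine ⟨S, hS, fun h hh => ?_⟩
  rcases hx h hh with h1 | ⟨h1, _⟩ <;> linarith

/-- A line through an interior point which avoids the crossing points. -/
lemma exists_dir (D : Set V) (hD : D.Finite) (x : V) (hx : x ∉ D) :
    ∃ u : V, u ≠ 0 ∧ ∀ s : ℝ, x + s • u ∉ D := by
  have hfin : ((fun c : V => (c.2 - x.2) / (c.1 - x.1)) '' D).Finite := hD.image _
  obtain ⟨m, hm⟩ := hfin.infinite_compl.nonempty
  refine ⟨(1, m), fun h => one_ne_zero (congrArg Prod.fst h), fun s hs => ?_⟩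
  rcases eq_or_ne s 0 with rfl | hs0
  · apply hx; simpa using hs
  · apply hm
    refine ⟨_, hs, ?_⟩
    simp only [Prod.fst_add, Prod.snd_add, Prod.smul_fst, Prod.smul_snd, smul_eq_mul, mul_one,
      add_sub_cancel_left]
    field_simp

/-- The last point of a compact set on a ray. -/
lemma exists_last (C : Set V) (hC : IsCompact C) (x u : V) (hx : x ∈ C) (hu : u ≠ 0) :
    ∃ s₁ : ℝ, 0 ≤ s₁ ∧ x + s₁ • u ∈ C ∧ ∀ s, s₁ < s → x + s • u ∉ C := by
  have hK : IsCompact {s : ℝ | 0 ≤ s ∧ x + s • u ∈ C} := by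
    rw [Metric.isCompact_iff_isClosed_bounded]
    refine ⟨?_, ?_⟩
    · exact (isClosed_Ici (a := (0 : ℝ))).inter
        (hC.isClosed.preimage (by fun_prop : Continuous fun s : ℝ => x + s • u))
    · obtain ⟨r, hr⟩ := hC.isBounded.exists_norm_le
      have hup : 0 < ‖u‖ := norm_pos_iff.2 hu
      refine (Metric.isBounded_Icc (0 : ℝ) ((r + ‖x‖) / ‖u‖)).subset ?_
      rintro s ⟨hs0, hs⟩
      refine ⟨hs0, ?_⟩
      rw [le_div_iff₀ hup]
      have h1 := hr _ hs
      have h2 : ‖s • u‖ ≤ ‖x + s • u‖ + ‖x‖ := by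
        have := norm_sub_le (x + s • u) x
        simpa using this
      rw [norm_smul, Real.norm_eq_abs, abs_of_nonneg hs0] at h2
      linarith
  obtain ⟨s₁, hs₁, hmax⟩ := hK.exists_isGreatest ⟨0, le_refl _, by simpa using hx⟩
  refine ⟨s₁, hs₁.1, hs₁.2, fun s hs hsC => ?_⟩
  have := hmax ⟨hs₁.1.trans hs.le, hsC⟩
  linarith

/-- The exit point. -/
lemma exists_exit (P : Finset (Finset HPl)) (hP : PB P) (hcr : (crs P).Finite)
    (hC : IsCompact (pset P)) (hi : (interior (pset P)).Nonempty) :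
    ∃ e u x : V, rdet e u ≠ 0 ∧ x ∈ fset P e (-u) ∧ x ∉ fset P e u := by
  classical
  -- the start
  have hinf : (interior (pset P)).Infinite := by
    obtain ⟨z, hz⟩ := hi
    exact infinite_of_mem_nhds z (isOpen_interior.mem_nhds hz)
  obtain ⟨x₀, hx₀, hx₀c⟩ := (hinf.sdiff hcr).nonempty
  obtain ⟨u, hu, hline⟩ := exists_dir _ hcr x₀ hx₀c
  obtain ⟨s₁, hs₁, hin, hout⟩ := exists_last _ hC x₀ u (interior_subset hx₀) hu
  set x₁ := x₀ + s₁ • u with hx₁
  have hnc : x₁ ∉ crs P := hline s₁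
  have hout' : ∀ s : ℝ, 0 < s → x₁ + s • u ∉ pset P := by
    intro s hs
    have := hout (s₁ + s) (by linarith)
    rwa [add_smul, ← add_assoc] at this
  obtain ⟨S, hS, hxS⟩ := hin
  -- no polygon contains points after x₁
  have hno : ∀ S' ∈ P, ¬ ∀ h ∈ S', hd h x₁ < h.2 ∨ (hd h x₁ = h.2 ∧ hd h u ≤ 0) := by
    intro S' hS' hall
    obtain ⟨s₀, hs₀, hs⟩ := small S' x₁ u hall
    exact hout' (s₀ / 2) (by linarith) ⟨S', hS', hs _ (by linarith) (by linarith)⟩
  -- the active half plane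
  have hact : ∃ h ∈ S, hd h x₁ = h.2 ∧ 0 < hd h u := by
    by_contra hcon
    push Not at hcon
    apply hno S hS
    intro h hh
    rcases lt_or_eq_of_le (hxS h hh) with h1 | h1
    · exact Or.inl h1
    · exact Or.inr ⟨h1, hcon h hh h1⟩
  obtain ⟨h₀, hh₀, ha₀, hu₀⟩ := hact
  have hpar : ∀ S' ∈ P, ∀ h ∈ S', hd h x₁ = h.2 → h₀.1.1 * h.1.2 - h₀.1.2 * h.1.1 = 0 := by
    intro S' hS' h hh hh'
    by_contra hne
    exact hnc ⟨S, hS, h₀, hh₀, S', hS', h, hh, ha₀, hh', hne⟩
  have hdet : rdet ((-h₀.1.2, h₀.1.1) : V) u ≠ 0 := by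
    have : rdet ((-h₀.1.2, h₀.1.1) : V) u = - hd h₀ u := by
      simp only [rdet, hd]; ring
    rw [this]
    exact neg_ne_zero.2 hu₀.ne'
  have hde : ∀ S' ∈ P, ∀ h ∈ S', hd h x₁ = h.2 → hd h ((-h₀.1.2, h₀.1.1) : V) = 0 := by
    intro S' hS' h hh hh'
    have := hpar S' hS' h hh hh'
    simp only [hd]; linarith
  refine ⟨(-h₀.1.2, h₀.1.1), u, x₁, hdet, ⟨S, hS, ?_⟩, ?_⟩
  · intro h hh
    rcases lt_or_eq_of_le (hxS h hh) with h1 | h1
    · exact Or.inl (by linarith)
    · refine Or.inr ⟨by linarith, Or.inr ⟨by rw [hde S hS h hh h1, neg_zero], ?_⟩⟩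
      rw [hd_neg, neg_neg]
      -- positive multiple
      obtain ⟨y, hy⟩ := hP.ip S hS
      have hy0 := hy h₀ hh₀
      have hy1 := hy h hh
      have hp := hpar S hS h hh h1
      have hn0 := hP.nz S hS h₀ hh₀
      have hz0 : hd h₀ (y - x₁) < 0 := by rw [hd_sub]; linarith
      have hz1 : hd h (y - x₁) < 0 := by rw [hd_sub]; linarith
      -- hd h u * hd h₀ z = hd h₀ u * hd h z
      have hid : hd h u * hd h₀ (y - x₁) = hd h₀ u * hd h (y - x₁) := by
        simp only [hd]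
        linear_combination (-(u.1 * (y - x₁).2) + u.2 * (y - x₁).1) * hp
      have : 0 < hd h u := by
        by_contra hle
        push Not at hle
        have h2 : 0 ≤ hd h u * hd h₀ (y - x₁) := mul_nonneg_of_nonpos_of_nonpos hle hz0.le
        have h3 : hd h₀ u * hd h (y - x₁) < 0 := mul_neg_of_pos_of_neg hu₀ hz1
        linarith
      exact this
  · rintro ⟨S', hS', hx⟩
    apply hno S' hS'
    intro h hh
    rcases hx h hh with h1 | ⟨h1, h2⟩
    · exact Or.inl (by linarith)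
    · right
      have h1' : hd h x₁ = h.2 := by linarith
      refine ⟨h1', ?_⟩
      rcases h2 with h2 | ⟨_, h3⟩
      · rw [hde S' hS' h hh h1', neg_zero] at h2
        exact absurd h2 (lt_irrefl _)
      · linarith

/-- The jump across the line. -/
noncomputable def J (P : Finset (Finset HPl)) (e n x : V) : ℤ :=
  ii (fset P e n) x - ii (fset P e (-n)) x

lemma J_fwd (hL : T_LOC) (P : Finset (Finset HPl)) (e n x : V) : ∃ ε₀ > 0, ∀ s : ℝ, 0 < s →
    s < ε₀ → J P e n (x + s • e) = J P e n x := by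
  obtain ⟨a, ha, ha'⟩ := hL P e n x
  obtain ⟨b, hb, hb'⟩ := hL P e (-n) x
  refine ⟨min a b, lt_min ha hb, fun s hs hs' => ?_⟩
  have h1 := (ha' s hs (hs'.trans_le (min_le_left _ _))).1
  have h2 := (hb' s hs (hs'.trans_le (min_le_right _ _))).1
  rw [J, J, ii_congr h1, ii_congr h2]

lemma J_bwd (hL : T_LOC) (P : Finset (Finset HPl)) (e n x : V) : ∃ ε₀ > 0, ∀ s : ℝ, 0 < s →
    s < ε₀ → J P e n (x + s • (-e)) = J P (-e) n x := by
  obtain ⟨a, ha, ha'⟩ := hL P (-e) n x
  obtain ⟨b, hb, hb'⟩ := hL P (-e) (-n) x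
  refine ⟨min a b, lt_min ha hb, fun s hs hs' => ?_⟩
  have h1 := (ha' s hs (hs'.trans_le (min_le_left _ _))).2
  have h2 := (hb' s hs (hs'.trans_le (min_le_right _ _))).2
  rw [neg_neg] at h1 h2
  rw [J, J, ii_congr h1, ii_congr h2]

lemma J_const (hL : T_LOC) (P : Finset (Finset HPl)) (e n : V)
    (h0 : ∀ x, J P e n x = J P (-e) n x) (x : V) (s : ℝ) :
    J P e n (x + s • e) = J P e n x := by
  have hloc : IsLocallyConstant (fun s : ℝ => J P e n (x + s • e)) := by
    rw [IsLocallyConstant.iff_eventually_eq]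
    intro s
    obtain ⟨a, ha, ha'⟩ := J_fwd hL P e n (x + s • e)
    obtain ⟨b, hb, hb'⟩ := J_bwd hL P e n (x + s • e)
    filter_upwards [Ioo_mem_nhds (show s - b < s by linarith) (show s < s + a by linarith)]
      with t ht
    rcases lt_trichotomy t s with h | h | h
    · have h1 := hb' (s - t) (by linarith) (by linarith [ht.1])
      rw [← h0] at h1
      rw [← h1]
      congr 1
      rw [smul_neg, sub_smul]
      abel
    · rw [h]
    · have h1 := ha' (t - s) (by linarith) (by linarith [ht.2])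
      rw [← h1]
      congr 1
      rw [sub_smul]
      abel
  have := hloc.apply_eq_of_preconnectedSpace s 0
  simpa using this

end NZ

open NZ in
theorem p_NZ_of (hL : T_LOC) (hB : T_BODY) (hC : T_CRF) : T_NZ := by
  intro P hP
  obtain ⟨hcomp, hint, _⟩ := hB P hP
  obtain ⟨e, u, x, hdet, hin, hout⟩ := exists_exit P hP (hC P) hcomp hint
  by_contra hcon
  push Not at hcon
  have h0 : ∀ y, J P e u y = J P (-e) u y := by
    intro y
    have := hcon e u y hdet
    rw [kk] at this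
    rw [J, J]
    linarith
  have he : e ≠ 0 := by
    rintro rfl
    apply hdet
    simp [rdet]
  have hJ : J P e u x = -1 := by
    rw [J, ii_of_not hout, ii_of_mem hin]
    norm_num
  obtain ⟨s₁, _, _, hs⟩ := exists_last _ hcomp x e (fset_sub P _ _ hin) he
  have h1 := J_const hL P e u h0 x (s₁ + 1)
  have h2 := hs (s₁ + 1) (by linarith)
  rw [hJ, J, ii_of_not (fun h => h2 (fset_sub P _ _ h)),
    ii_of_not (fun h => h2 (fset_sub P _ _ h))] at h1
  norm_num at h1

end Pool.Agent.PTP
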