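import Pool.Agent.PTP.Targets

/-!
# PTP: target PFLC (theorem R5)

A polygonal body with a tiling of finite local complexity has a doubly periodic tiling.
-/

set_option autoImplicit false

namespace Pool.Agent.PTP

open Pool.Agent.PTR Filter Topology
open Pool.Agent.PTR.OL (V ii dif difs FLC InHull)

theorem p_PFLC_of (hREL : T_REL) (hCFT : T_CFT) (hTE : T_TE) (hFLCR : PTL.T_FLCR) (hET : T_ET)
    (hINTF : T_INTF) (hBODY : T_BODY) : T_PFLC := by
  intro P hP T hT hF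
  have huv : rdet ((1, 0) : V) (0, 1) ≠ 0 := by simp [rdet]
  obtain ⟨r, hr⟩ := (hBODY P hP).1.isBounded.exists_norm_le
  have hb : ∃ r : ℝ, ∀ z ∈ fset P ((1, 0) : V) (0, 1), ‖z‖ ≤ r :=
    ⟨r, fun z hz => hr z ((hINTF P hP (1, 0) (0, 1) huv).1 z hz)⟩
  obtain ⟨L, hL, h⟩ := hREL P hP
  obtain ⟨T', hT', p, v, hpv, h1, h2⟩ := hFLCR (fset P ((1, 0) : V) (0, 1)) hb T
    (hTE P hP T hT _ _ huv) hF L hL (h T (hCFT P hP T hT).1)
  exact ⟨T', hET P hP T' _ _ huv hT', p, v, hpv, h1, h2⟩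

end Pool.Agent.PTP
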