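import Pool.Agent.PTP.Targets

/-!
# PTP: target REL

The relation satisfied by all corner free sets: `OL.special` for a nonzero corner.
-/

set_option autoImplicit false

namespace Pool.Agent.PTP

open Pool.Agent.PTR Filter Topology
open Pool.Agent.PTR.OL (V ii dif difs FLC InHull)

theorem p_REL_of (hNZ : T_NZ) (hKKD : T_KKD) : T_REL := by
  classical
  intro P hP
  obtain ⟨e, n, x, hen, hx⟩ := hNZ P hP
  have hmem : x ∈ cD P := hKKD P hP e n x hen hx
  refine ⟨_, ?_, fun K hK => OL.special (cD P) (kk P e n) (ii K) (OL.ii_bdd K)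
    (fun z => hK e n hen z) hmem hx⟩
  intro w hw
  obtain ⟨v, hv, rfl⟩ := List.mem_map.1 hw
  rw [Finset.mem_toList, Finset.mem_erase] at hv
  exact smul_ne_zero (Nat.factorial_ne_zero _) (sub_ne_zero.2 hv.1)

end Pool.Agent.PTP
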