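import Pool.Agent.PTP.P_SEP

/-!
# PTP: tilings are exact covers for every flag (TE, ET)
-/

set_option autoImplicit false

namespace Pool.Agent.PTP

open Pool.Agent.PTR Filter Topology
open Pool.Agent.PTR.OL (V ii dif difs FLC InHull)

theorem p_TE_of (hI : T_INTF) (hB : T_BODY) : T_TE := by
  intro P hP T hT u v huv z
  obtain ⟨i1, i2, i3, i4⟩ := hI P hP u v huv
  obtain ⟨hcpt, -, -⟩ := hB P hP
  obtain ⟨K, hK⟩ := hcpt.isBounded.exists_norm_le
  obtain ⟨ρ, -, hsep⟩ := p_SEP_of hB P hP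
  obtain ⟨-, hfin⟩ := hsep T hT.2
  -- the tiles of the points near `z`
  have hc : ∀ n : ℕ, ∃ t ∈ T, z + ((1 : ℝ) / (n + 1)) • u + ((1 : ℝ) / (n + 1)) ^ 2 • v - t ∈
      pset P := fun n => hT.1 _
  choose t ht1 ht2 using hc
  have hb : ∀ n, t n ∈ {t | t ∈ T ∧ ‖t‖ ≤ ‖z‖ + ‖u‖ + ‖v‖ + K} := by
    intro n
    refine ⟨ht1 n, ?_⟩
    have h1 := hK _ (ht2 n)
    have hs0 : (0 : ℝ) ≤ (1 : ℝ) / (n + 1) := by positivity
    have hs1 : (1 : ℝ) / (n + 1) ≤ 1 := by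
      rw [div_le_one (by positivity)]
      have : (0 : ℝ) ≤ n := Nat.cast_nonneg n
      linarith
    have h2 : ‖((1 : ℝ) / (n + 1)) • u‖ ≤ ‖u‖ := by
      rw [norm_smul, Real.norm_of_nonneg hs0]
      exact mul_le_of_le_one_left (norm_nonneg _) hs1
    have h3 : ‖((1 : ℝ) / (n + 1)) ^ 2 • v‖ ≤ ‖v‖ := by
      rw [norm_smul, Real.norm_of_nonneg (by positivity)]
      exact mul_le_of_le_one_left (norm_nonneg _) (pow_le_one₀ hs0 hs1)
    have h4 : t n = (z + ((1 : ℝ) / (n + 1)) • u + ((1 : ℝ) / (n + 1)) ^ 2 • v) -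
        (z + ((1 : ℝ) / (n + 1)) • u + ((1 : ℝ) / (n + 1)) ^ 2 • v - t n) := by abel
    calc ‖t n‖ ≤ ‖z + ((1 : ℝ) / (n + 1)) • u + ((1 : ℝ) / (n + 1)) ^ 2 • v‖ +
          ‖z + ((1 : ℝ) / (n + 1)) • u + ((1 : ℝ) / (n + 1)) ^ 2 • v - t n‖ := by
            conv_lhs => rw [h4]
            exact norm_sub_le _ _
      _ ≤ (‖z‖ + ‖u‖ + ‖v‖) + K := by
            refine add_le_add ?_ h1
            refine (norm_add_le _ _).trans (add_le_add ?_ h3)
            exact (norm_add_le _ _).trans (add_le_add (le_refl _) h2)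
  obtain ⟨s, -, hs⟩ : ∃ s ∈ {t | t ∈ T ∧ ‖t‖ ≤ ‖z‖ + ‖u‖ + ‖v‖ + K}, {n | t n = s}.Infinite := by
    by_contra hno
    push Not at hno
    have h1 : (Set.univ : Set ℕ) ⊆
        ⋃ s ∈ {t | t ∈ T ∧ ‖t‖ ≤ ‖z‖ + ‖u‖ + ‖v‖ + K}, {n | t n = s} := by
      intro n _
      exact Set.mem_biUnion (hb n) rfl
    refine Set.infinite_univ (Set.Finite.subset ((hfin _).biUnion fun s hs => ?_) h1)
    exact hno s hs
  have hsT : s ∈ T := by
    obtain ⟨n, hn⟩ := hs.nonempty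
    rw [← (show t n = s from hn)]
    exact ht1 n
  have hmem : z - s ∈ fset P u v := by
    by_contra hnot
    obtain ⟨s₀, hs₀, h⟩ := i4 _ hnot
    obtain ⟨N, hN⟩ := exists_nat_gt (1 / s₀)
    obtain ⟨n, hn, hnN⟩ := hs.exists_gt N
    have hpos : (0 : ℝ) < 1 / ((n : ℝ) + 1) := by positivity
    have hlt : 1 / ((n : ℝ) + 1) < s₀ := by
      rw [div_lt_iff₀ (by positivity)]
      rw [div_lt_iff₀ hs₀] at hN
      have : (N : ℝ) < n := Nat.cast_lt.2 hnN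
      nlinarith
    refine h _ hpos hlt ?_
    have h5 := ht2 n
    rw [show t n = s from hn] at h5
    have h6 : z - s + (1 / ((n : ℝ) + 1)) • u + (1 / ((n : ℝ) + 1)) ^ 2 • v =
        z + (1 / ((n : ℝ) + 1)) • u + (1 / ((n : ℝ) + 1)) ^ 2 • v - s := by abel
    rw [h6]
    exact h5
  refine ⟨s, ⟨hsT, hmem⟩, ?_⟩
  · rintro s' ⟨hs'T, hs'⟩
    by_contra hne
    obtain ⟨a, ha, h1⟩ := i3 _ hmem
    obtain ⟨b, hb', h2⟩ := i3 _ hs'
    have hpos : 0 < min a b / 2 := by positivity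
    have hlt : min a b / 2 < min a b := by linarith [lt_min ha hb']
    have h3 := h1 _ hpos (lt_of_lt_of_le hlt (min_le_left _ _))
    have h4 := h2 _ hpos (lt_of_lt_of_le hlt (min_le_right _ _))
    refine hne (hT.2 s' hs'T s hsT (z + (min a b / 2) • u + (min a b / 2) ^ 2 • v) ?_ ?_)
    · have h5 : z + (min a b / 2) • u + (min a b / 2) ^ 2 • v - s' =
          z - s' + (min a b / 2) • u + (min a b / 2) ^ 2 • v := by abel
      rw [h5]
      exact h4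
    · have h5 : z + (min a b / 2) • u + (min a b / 2) ^ 2 • v - s =
          z - s + (min a b / 2) • u + (min a b / 2) ^ 2 • v := by abel
      rw [h5]
      exact h3

theorem p_ET_of (hI : T_INTF) : T_ET := by
  intro P hP T u v huv hT
  obtain ⟨i1, i2, -, -⟩ := hI P hP u v huv
  refine ⟨fun z => ?_, fun t ht t' ht' z h1 h2 => ?_⟩
  · obtain ⟨t, ⟨ht, hz⟩, -⟩ := hT z
    exact ⟨t, ht, i1 _ hz⟩
  · obtain ⟨s, -, hs⟩ := hT z
    rw [hs t ⟨ht, i2 _ h1⟩, hs t' ⟨ht', i2 _ h2⟩]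

end Pool.Agent.PTP
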