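import Pool.Agent.PTP.P_SEP

/-!
# PTP: ultralimits of tilings (ULT, ULB, CLS, SFL)
-/

set_option autoImplicit false

namespace Pool.Agent.PTP

open Pool.Agent.PTR Filter Topology
open Pool.Agent.PTR.OL (V ii dif difs FLC InHull)

/-- Two sequences of tiles with the same limit are eventually equal. -/
lemma ULT_eq {P : Finset (Finset HPl)} (hS : T_SEP) (hP : PB P) {U : Ultrafilter ℕ}
    {Tn : ℕ → Set V} (hT : ∀ n, Til (pset P) (Tn n)) {s : V} {f g : ℕ → V}
    (hf : ∀ᶠ n in (U : Filter ℕ), f n ∈ Tn n) (hg : ∀ᶠ n in (U : Filter ℕ), g n ∈ Tn n)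
    (hf' : Tendsto f (U : Filter ℕ) (𝓝 s)) (hg' : Tendsto g (U : Filter ℕ) (𝓝 s)) :
    ∀ᶠ n in (U : Filter ℕ), f n = g n := by
  obtain ⟨ρ, hρ, hsep⟩ := hS P hP
  have h1 : Tendsto (fun n => ‖f n - g n‖) (U : Filter ℕ) (𝓝 0) := by
    have := (hf'.sub hg').norm
    rwa [sub_self, norm_zero] at this
  filter_upwards [hf, hg, h1.eventually (gt_mem_nhds hρ)] with n g1 g2 g3
  by_contra hne
  exact absurd ((hsep (Tn n) (hT n).2).1 _ g1 _ g2 hne) (not_le.2 g3)

theorem p_ULT_of (hB : T_BODY) : T_ULT := by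
  intro P hP U Tn hT
  obtain ⟨hc, -, -⟩ := hB P hP
  obtain ⟨K, hK⟩ := hc.isBounded.exists_norm_le
  refine ⟨⟨fun z => ?_, ?_⟩, ?_⟩
  · have h1 : ∀ n, ∃ t ∈ Tn n, z - t ∈ pset P := fun n => (hT n).1 z
    choose t ht1 ht2 using h1
    obtain ⟨s, hs⟩ := ultra_conv U t (‖z‖ + K) (Eventually.of_forall fun n => by
      have h2 : t n = z - (z - t n) := by abel
      rw [h2]
      exact (norm_sub_le _ _).trans (add_le_add (le_refl _) (hK _ (ht2 n))))
    refine ⟨s, ⟨t, Eventually.of_forall ht1, hs⟩, ?_⟩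
    exact hc.isClosed.mem_of_tendsto (tendsto_const_nhds.sub hs) (Eventually.of_forall ht2)
  · rintro s ⟨t, ht1, ht2⟩ s' ⟨t', ht1', ht2'⟩ z hz hz'
    have e1 : ∀ᶠ n in (U : Filter ℕ), z - t n ∈ interior (pset P) :=
      (tendsto_const_nhds.sub ht2).eventually (isOpen_interior.mem_nhds hz)
    have e2 : ∀ᶠ n in (U : Filter ℕ), z - t' n ∈ interior (pset P) :=
      (tendsto_const_nhds.sub ht2').eventually (isOpen_interior.mem_nhds hz')
    have h4 : ∀ᶠ n in (U : Filter ℕ), t n = t' n := by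
      filter_upwards [ht1, ht1', e1, e2] with n g1 g2 g3 g4
      exact (hT n).2 _ g1 _ g2 z g3 g4
    exact tendsto_nhds_unique (ht2.congr' h4) ht2'
  · have h1 : ∀ t : V, ∃ f : ℕ → V, t ∈ Lim U Tn →
        (∀ᶠ n in (U : Filter ℕ), f n ∈ Tn n) ∧ Tendsto f (U : Filter ℕ) (𝓝 t) := by
      intro t
      by_cases ht : t ∈ Lim U Tn
      · obtain ⟨f, hf⟩ := ht
        exact ⟨f, fun _ => hf⟩
      · exact ⟨fun _ => 0, fun h => absurd h ht⟩
    choose f hf using h1
    refine ⟨fun t n => f t n - t, fun t ht => ⟨?_, ?_⟩⟩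
    · filter_upwards [(hf t ht).1] with n hn
      rw [add_sub_cancel]
      exact hn
    · have := (hf t ht).2.sub (tendsto_const_nhds (x := t))
      rwa [sub_self] at this

theorem p_ULB_of (hS : T_SEP) : T_ULB := by
  intro P hP U Tn hT δ hδ f R hf hR
  obtain ⟨s, hs⟩ := ultra_conv U f R hR
  have hs' : s ∈ Lim U Tn := ⟨f, hf, hs⟩
  refine ⟨s, hs', ?_⟩
  refine ULT_eq hS hP hT hf (hδ s hs').1 hs ?_
  have := (tendsto_const_nhds (x := s)).add (hδ s hs').2
  rwa [add_zero] at this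

theorem p_CLS_of (hS : T_SEP) (hC : T_CFT) : T_CLS := by
  intro P hP U Tn hT δ hδ g hg e n hen z
  -- the points of the class and the tiles of `Tn m`
  have key : ∀ w : V, ∀ᶠ m in (U : Filter ℕ),
      (w ∈ {t | t ∈ Lim U Tn ∧ ∀ᶠ n in (U : Filter ℕ), δ t n = g n} ↔ w + g m ∈ Tn m) := by
    intro w
    by_cases hw : w ∈ {t | t ∈ Lim U Tn ∧ ∀ᶠ n in (U : Filter ℕ), δ t n = g n}
    · filter_upwards [(hδ w hw.1).1, hw.2] with m h1 h2
      rw [h2] at h1
      exact ⟨fun _ => h1, fun _ => hw⟩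
    · have h1 : ∀ᶠ m in (U : Filter ℕ), ¬ w + g m ∈ Tn m := by
        rw [Ultrafilter.eventually_not]
        intro h2
        have h3 : Tendsto (fun m => w + g m) (U : Filter ℕ) (𝓝 w) := by
          have := (tendsto_const_nhds (x := w)).add hg
          rwa [add_zero] at this
        have h4 : w ∈ Lim U Tn := ⟨fun m => w + g m, h2, h3⟩
        have h5 : Tendsto (fun m => w + δ w m) (U : Filter ℕ) (𝓝 w) := by
          have := (tendsto_const_nhds (x := w)).add (hδ w h4).2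
          rwa [add_zero] at this
        have h6 := ULT_eq hS hP hT (hδ w h4).1 h2 h5 h3
        exact hw ⟨h4, h6.mono fun m hm => add_left_cancel hm⟩
      filter_upwards [h1] with m h2
      exact ⟨fun h => absurd h hw, fun h => absurd h h2⟩
  have hall : ∀ᶠ m in (U : Filter ℕ), ∀ v ∈ cD P,
      (z - v ∈ {t | t ∈ Lim U Tn ∧ ∀ᶠ n in (U : Filter ℕ), δ t n = g n} ↔
        z - v + g m ∈ Tn m) :=
    (Filter.eventually_all_finset (cD P)).2 fun v _ => key (z - v)
  obtain ⟨m, hm⟩ := hall.exists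
  have h1 := (hC P hP (Tn m) (hT m)).1 e n hen (z + g m)
  rw [← h1]
  unfold cs
  refine Finset.sum_congr rfl fun v hv => ?_
  have h2 : z + g m - v = z - v + g m := by abel
  rw [h2]
  congr 1
  exact OL.ii_congr (hm v hv)

theorem p_SFL : T_SFL := by
  intro P hP U Tn e c he hF s hs
  obtain ⟨t, ht1, ht2⟩ := hs
  have hlim : ∀ x : V, Tendsto (fun n => rdet e (t n + x)) (U : Filter ℕ)
      (𝓝 (rdet e (s + x))) := by
    intro x
    have h1 : Continuous (fun w : V => rdet e (w + x)) := by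
      unfold rdet
      fun_prop
    exact (h1.tendsto s).comp ht2
  have h2 : (∀ᶠ n in (U : Filter ℕ), ∀ x ∈ pset P, rdet e (t n + x) ≤ c) ∨
      ∀ᶠ n in (U : Filter ℕ), ∀ x ∈ pset P, c ≤ rdet e (t n + x) := by
    rw [← Ultrafilter.eventually_or]
    filter_upwards [ht1] with n hn
    exact hF n _ hn
  rcases h2 with h2 | h2
  · exact Or.inl fun x hx => le_of_tendsto (hlim x) (h2.mono fun n hn => hn x hx)
  · exact Or.inr fun x hx => ge_of_tendsto (hlim x) (h2.mono fun n hn => hn x hx)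

end Pool.Agent.PTP
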