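import Pool.Agent.PTP.P_BODY

/-! PTP, section A: WD. -/

set_option autoImplicit false

namespace Pool.Agent.PTP

open Pool.Agent.PTR Filter Topology
open Pool.Agent.PTR.OL (V ii dif difs FLC InHull)

namespace WDx

lemma rcont (e : V) : Continuous (rdet e) := by
  unfold rdet
  exact (continuous_const.mul continuous_snd).sub (continuous_const.mul continuous_fst)

lemma rsmul (e z : V) (s : ℝ) : rdet e (s • z) = s * rdet e z := by
  simp only [rdet, Prod.smul_fst, Prod.smul_snd, smul_eq_mul]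
  ring

lemma rperp {e : V} (he : e ≠ 0) : 0 < rdet e (-e.2, e.1) := by
  simp only [rdet]
  have h : e.1 ≠ 0 ∨ e.2 ≠ 0 := by
    by_contra hcon
    push Not at hcon
    exact he (Prod.ext hcon.1 hcon.2)
  rcases h with h | h
  · have := mul_self_pos.2 h
    nlinarith [mul_self_nonneg e.2]
  · have := mul_self_pos.2 h
    nlinarith [mul_self_nonneg e.1]

end WDx

open Flg WDx

theorem p_WD : T_WD := by
  intro P hP e he
  obtain ⟨hc, ⟨x0, hx0⟩, hcl⟩ := p_BODY P hP
  have hx0C : x0 ∈ pset P := interior_subset hx0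
  obtain ⟨xM, hxM, hM⟩ := hc.exists_isMaxOn ⟨x0, hx0C⟩ (rcont e).continuousOn
  obtain ⟨xm, hxm, hm⟩ := hc.exists_isMinOn ⟨x0, hx0C⟩ (rcont e).continuousOn
  have hM' : ∀ x ∈ pset P, rdet e x ≤ rdet e xM := fun x hx => hM hx
  have hm' : ∀ x ∈ pset P, rdet e xm ≤ rdet e x := fun x hx => hm hx
  have hg : IsGreatest {d : ℝ | ∃ x ∈ pset P, ∃ y ∈ pset P, d = rdet e x - rdet e y}
      (rdet e xM - rdet e xm) := by
    refine ⟨⟨xM, hxM, xm, hxm, rfl⟩, ?_⟩
    rintro d ⟨x, hx, y, hy, rfl⟩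
    linarith [hM' x hx, hm' y hy]
  have hw : wd (pset P) e = rdet e xM - rdet e xm := hg.csSup_eq
  -- a point of the body strictly above the point `x` when a small push stays in the body
  have hpos : 0 < wd (pset P) e := by
    rw [hw]
    have h1 : Tendsto (fun s : ℝ => x0 + s • ((-e.2, e.1) : V)) (𝓝 0)
        (𝓝 (x0 + (0 : ℝ) • ((-e.2, e.1) : V))) := by
      apply Continuous.tendsto
      fun_prop
    rw [zero_smul, add_zero] at h1
    have h2 : ∀ᶠ s in 𝓝[>] (0 : ℝ), x0 + s • ((-e.2, e.1) : V) ∈ interior (pset P) :=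
      (h1.mono_left nhdsWithin_le_nhds).eventually (isOpen_interior.mem_nhds hx0)
    obtain ⟨s₀, hs₀, hs⟩ := ev_ex h2
    have h3 := interior_subset (hs (s₀ / 2) (by linarith) (by linarith))
    have h4 := hM' _ h3
    rw [rdet_add, rsmul] at h4
    have h5 := hm' _ hx0C
    have h6 : 0 < s₀ / 2 * rdet e (-e.2, e.1) := mul_pos (by linarith) (rperp he)
    linarith
  refine ⟨hpos, ?_, ⟨xM, hxM, xm, hxm, hw.symm⟩, ⟨rdet e xm, ?_⟩, ?_⟩
  · intro x hx y hy
    rw [hw]
    linarith [hM' x hx, hm' y hy]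
  · rintro u v hu x ⟨S, hS, hx⟩
    have hxC : x ∈ pset P := by
      refine ⟨S, hS, fun h hh => ?_⟩
      rcases hx h hh with h1 | ⟨h1, -⟩
      · linarith
      · linarith
    refine ⟨hm' x hxC, ?_⟩
    have h1 : ∀ᶠ s in 𝓝[>] (0 : ℝ), x + s • u + s ^ 2 • v ∈ pset P := by
      have h2 : ∀ᶠ s in 𝓝[>] (0 : ℝ), ∀ h ∈ S,
          0 < (h.2 - hd h x) + s * (-hd h u) + s ^ 2 * (-hd h v) := by
        rw [Filter.eventually_all_finset]
        exact fun h hh => lx_ev (hx h hh)
      filter_upwards [h2] with s hs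
      refine ⟨S, hS, fun h hh => ?_⟩
      have h3 := hs h hh
      rw [form_eq] at h3
      linarith
    have h2 : ∀ᶠ s in 𝓝[>] (0 : ℝ), 0 < 0 + s * rdet e u + s ^ 2 * rdet e v :=
      lx_ev (Or.inr ⟨rfl, Or.inl hu⟩)
    obtain ⟨s, hs1, hs2⟩ := (h1.and h2).exists
    have h3 := hM' _ hs1
    rw [rdet_add, rdet_add, rsmul, rsmul] at h3
    rw [hw]
    linarith
  · intro hI d hd
    have key : ∀ z ∈ pset P, ∀ η > (0 : ℝ), ∃ y ∈ interior (pset P), |rdet e y - rdet e z| < η := by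
      intro z hz η hη
      rw [← hcl] at hz
      have h1 : {y | |rdet e y - rdet e z| < η} ∈ 𝓝 z := by
        apply IsOpen.mem_nhds
        · exact isOpen_lt ((rcont e).sub continuous_const).abs continuous_const
        · simpa using hη
      obtain ⟨y, hy1, hy2⟩ := mem_closure_iff_nhds.1 hz _ h1
      exact ⟨y, hy2, hy1⟩
    obtain ⟨x, hx, hx'⟩ := key xM hxM ((wd (pset P) e - |d|) / 2) (by linarith)
    obtain ⟨y, hy, hy'⟩ := key xm hxm ((wd (pset P) e - |d|) / 2) (by linarith)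
    rw [abs_lt] at hx' hy'
    have hd1 : |d| < rdet e x - rdet e y := by
      rw [hw] at hx' hy' hd
      linarith [hx'.1, hy'.2]
    have hA : rdet e x - rdet e y ∈ {d : ℝ | ∃ x ∈ interior (pset P), ∃ y ∈ interior (pset P),
        d = rdet e x - rdet e y} := ⟨x, hx, y, hy, rfl⟩
    have hB : rdet e y - rdet e x ∈ {d : ℝ | ∃ x ∈ interior (pset P), ∃ y ∈ interior (pset P),
        d = rdet e x - rdet e y} := ⟨y, hy, x, hx, rfl⟩
    have h5 : d ∈ Set.Icc (rdet e y - rdet e x) (rdet e x - rdet e y) := by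
      have := abs_lt.1 hd1
      exact ⟨by linarith [this.1], this.2.le⟩
    exact hI.out hB hA h5

end Pool.Agent.PTP
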