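import Pool.Agent.PTP.R6
import Pool.Agent.PTP.Final
import Pool.Agent.PTP.J_JD
import Pool.Agent.PTP.J_SLIDE
import Pool.Agent.PTP.P_A1
import Pool.Agent.PTP.P_BODY
import Pool.Agent.PTP.P_CRF
import Pool.Agent.PTP.P_EDGE
import Pool.Agent.PTP.P_FC
import Pool.Agent.PTP.P_FF
import Pool.Agent.PTP.P_FLAGS
import Pool.Agent.PTP.P_GLU
import Pool.Agent.PTP.P_HG
import Pool.Agent.PTP.P_HP
import Pool.Agent.PTP.P_HRL
import Pool.Agent.PTP.P_HW
import Pool.Agent.PTP.P_INJ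
import Pool.Agent.PTP.P_INTF
import Pool.Agent.PTP.P_NZ
import Pool.Agent.PTP.P_PFLC
import Pool.Agent.PTP.P_REL
import Pool.Agent.PTP.P_SEP
import Pool.Agent.PTP.P_STA
import Pool.Agent.PTP.P_STK
import Pool.Agent.PTP.P_STF
import Pool.Agent.PTP.P_STZ
import Pool.Agent.PTP.P_SUM
import Pool.Agent.PTP.P_TE
import Pool.Agent.PTP.P_ULT
import Pool.Agent.PTP.P_WD
import Pool.Agent.PTL.All

/-!
# PTP: unconditional theorems
-/

set_option autoImplicit false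

namespace Pool.Agent.PTP

theorem p_TE : T_TE := p_TE_of p_INTF p_BODY

theorem p_ET : T_ET := p_ET_of p_INTF

theorem p_SEP : T_SEP := p_SEP_of p_BODY

theorem p_SUM : T_SUM := p_SUM_of p_TE p_KKD

theorem p_CFT : T_CFT := p_CFT_of p_TE p_KKD p_INTF

theorem p_NZ : T_NZ := p_NZ_of p_LOC p_BODY p_CRF

theorem p_REL : T_REL := p_REL_of p_NZ p_KKD

/-- Polygonal bodies with a tiling of finite local complexity. -/
theorem p_PFLC : T_PFLC := p_PFLC_of p_REL p_CFT p_TE PTL.p_FLCR p_ET p_INTF p_BODY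

theorem p_ULT : T_ULT := p_ULT_of p_BODY

theorem p_ULB : T_ULB := p_ULB_of p_SEP

theorem p_CLS : T_CLS := p_CLS_of p_SEP p_CFT

theorem p_FOUR : T_FOUR := FOUR_of p_ULT p_TE p_SUM p_CLS

theorem p_JD : T_JD := JD_of p_ULT p_ULB p_TE p_EDGE p_LOC p_LINF p_INTF p_BODY p_SEP

theorem p_SLIDE : T_SLIDE :=
  SLIDE_of p_FF p_ULT p_TE p_PERT p_SCAL p_LOC p_FOUR p_JD p_DIRF p_INTF p_BODY

theorem p_FC : T_FC := p_FC_of p_WD

theorem p_SLF : T_SLF := p_SLF_of p_FC p_INTF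

theorem p_A0 : T_A0 := p_A0_of p_ULT p_ULB p_SLIDE p_SLF

theorem p_HRL : T_HRL := p_HRL_of p_CFT p_REL p_BODY

theorem p_HW : T_HW := p_HW_of p_ULT p_ULB p_SLIDE p_SLF p_HRL p_INJ p_WD

theorem p_HP : T_HP := p_HP_of p_HW p_HRL p_FC p_WD p_BODY

theorem p_HG : T_HG := p_HG_of p_GLU p_TE p_ET p_WD p_INTF

theorem p_STB : T_STB := p_STB_of p_WD

theorem p_STZ : T_STZ := p_STZ_of p_ULT p_TE p_INTF p_JD p_BODY

theorem p_STF : T_STF :=
  p_STF_of p_STK p_STZ p_SLIDE p_SLF p_ULT p_ULB p_SFL p_WD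

theorem p_A1 : T_A1 :=
  p_A1_of p_STA p_STB p_STF p_STK p_TE p_ET p_WD p_BODY p_INTF

/-- Polygonal bodies with the interval condition. -/
theorem p_R6 : T_R6 := R6_of p_A0 p_PFLC p_A1 p_HW p_HP p_HG

end Pool.Agent.PTP
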