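import Pool.Agent.PTR.Lim
import Pool.Agent.PTR.Rel
import Pool.Agent.PTR.OneD
import Pool.Agent.PTR.PerCase
import Pool.Agent.PTR.HPP
import Pool.Agent.PTL.Targets

/-!
# PTP: definitions

Polygonal bodies, flags, tilings, corners, faults, ultralimits.  See ideas row 2604
(MP_eac546_co).
-/

set_option autoImplicit false

namespace Pool.Agent.PTP

open Pool.Agent.PTR Filter Topology
open Pool.Agent.PTR.OL (V ii dif difs FLC InHull)

/-! ## Polygonal bodies -/

/-- A half plane `a x + b y ≤ c` is given by `((a, b), c)`. -/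
abbrev HPl : Type := V × ℝ

/-- The linear form of a half plane. -/
def hd (h : HPl) (x : V) : ℝ := h.1.1 * x.1 + h.1.2 * x.2

/-- The polygon given by a finite set of half planes. -/
def poly (S : Finset HPl) : Set V := {x | ∀ h ∈ S, hd h x ≤ h.2}

/-- The union of finitely many polygons. -/
def pset (P : Finset (Finset HPl)) : Set V := {x | ∃ S ∈ P, x ∈ poly S}

/-- There is at least one polygon, no linear form is zero, every polygon is bounded and has an
interior point. -/
structure PB (P : Finset (Finset HPl)) : Prop where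
  ne : P.Nonempty
  nz : ∀ S ∈ P, ∀ h ∈ S, h.1 ≠ 0
  bd : ∀ S ∈ P, ∃ r : ℝ, ∀ x ∈ poly S, ‖x‖ ≤ r
  ip : ∀ S ∈ P, ∃ x, ∀ h ∈ S, hd h x < h.2

/-- `e` is parallel to a bounding line. -/
def IsDir (P : Finset (Finset HPl)) (e : V) : Prop := e ≠ 0 ∧ ∃ S ∈ P, ∃ h ∈ S, hd h e = 0

/-! ## Flags -/

/-- Lexicographic positivity. -/
def lx (p q r : ℝ) : Prop := 0 < p ∨ (p = 0 ∧ (0 < q ∨ (q = 0 ∧ 0 < r)))

/-- `x` is in the polygon for the flag `(u, v)`: the points `x + s u + s^2 v`, `s > 0` small, are in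
the interior of the polygon. -/
def fpol (u v : V) (S : Finset HPl) : Set V :=
  {x | ∀ h ∈ S, lx (h.2 - hd h x) (-hd h u) (-hd h v)}

/-- The same for the union of the polygons. -/
def fset (P : Finset (Finset HPl)) (u v : V) : Set V := {x | ∃ S ∈ P, x ∈ fpol u v S}

/-- The side of the flag `(u, v)` with respect to the direction `e`: the flag is above the line. -/
def sd (e u v : V) : Prop := 0 < rdet e u ∨ (rdet e u = 0 ∧ 0 < rdet e v)

/-! ## Tilings and faults -/

/-- A tiling by translates of a closed set. -/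
def Til (C T : Set V) : Prop :=
  (∀ z, ∃ t ∈ T, z - t ∈ C) ∧
    ∀ t ∈ T, ∀ t' ∈ T, ∀ z, z - t ∈ interior C → z - t' ∈ interior C → t = t'

/-- `C` has a doubly periodic tiling. -/
def TDP (C : Set V) : Prop :=
  ∃ T, Til C T ∧ ∃ p v : V, LinearIndependent ℝ ![p, v] ∧ Per p T ∧ Per v T

/-- The differences of the heights of interior points form an interval. -/
def Iv (C : Set V) (e : V) : Prop :=
  {d : ℝ | ∃ x ∈ interior C, ∃ y ∈ interior C, d = rdet e x - rdet e y}.OrdConnected

/-- The width of `C`: the largest difference of heights. -/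
noncomputable def wd (C : Set V) (e : V) : ℝ :=
  sSup {d : ℝ | ∃ x ∈ C, ∃ y ∈ C, d = rdet e x - rdet e y}

/-- (Strong) fault: every tile is below or above the line of height `c`. -/
def SF (C : Set V) (e : V) (T : Set V) (c : ℝ) : Prop :=
  ∀ t ∈ T, (∀ x ∈ C, rdet e (t + x) ≤ c) ∨ (∀ x ∈ C, c ≤ rdet e (t + x))

/-- The tiles above the height `c`. -/
def Abv (C : Set V) (e : V) (T : Set V) (c : ℝ) : Set V :=
  {t | t ∈ T ∧ ∀ x ∈ C, c ≤ rdet e (t + x)}

/-- A tiling of the strip between the heights `0` and `h`. -/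
def Stp (C : Set V) (e : V) (h : ℝ) (T : Set V) : Prop :=
  0 < h ∧ (∀ z, 0 < rdet e z → rdet e z < h → ∃ t ∈ T, z - t ∈ C) ∧
    (∀ t ∈ T, ∀ t' ∈ T, ∀ z, z - t ∈ interior C → z - t' ∈ interior C → t = t') ∧
    ∀ t ∈ T, ∀ x ∈ C, 0 ≤ rdet e (t + x) ∧ rdet e (t + x) ≤ h

/-- The stack of the translates by the multiples of `w`. -/
def Stk (w : V) (T : Set V) : Set V := {t | ∃ k : ℤ, t + k • w ∈ T}

/-! ## Corners -/

/-- Crossing points of two bounding lines. -/
def crs (P : Finset (Finset HPl)) : Set V :=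
  {x | ∃ S ∈ P, ∃ h ∈ S, ∃ S' ∈ P, ∃ h' ∈ S', hd h x = h.2 ∧ hd h' x = h'.2 ∧
    h.1.1 * h'.1.2 - h.1.2 * h'.1.1 ≠ 0}

open Classical in
/-- The crossing points as a finite set. -/
noncomputable def cD (P : Finset (Finset HPl)) : Finset V :=
  if h : (crs P).Finite then h.toFinset else ∅

/-- The corner function. -/
noncomputable def kk (P : Finset (Finset HPl)) (e n : V) (x : V) : ℤ :=
  ii (fset P e n) x - ii (fset P e (-n)) x - ii (fset P (-e) n) x + ii (fset P (-e) (-n)) x

/-- The points covered by the tiles in `K`, for the flag `(u, v)`. -/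
def cv (P : Finset (Finset HPl)) (u v : V) (K : Set V) : Set V := {z | ∃ t ∈ K, z - t ∈ fset P u v}

/-- The sum of the corners at the point `z`. -/
noncomputable def cs (P : Finset (Finset HPl)) (e n : V) (K : Set V) (z : V) : ℤ :=
  ∑ v ∈ cD P, kk P e n v * ii K (z - v)

/-- `K` is corner free. -/
def Cf (P : Finset (Finset HPl)) (K : Set V) : Prop :=
  ∀ e n : V, rdet e n ≠ 0 → ∀ z, cs P e n K z = 0

/-! ## Displacements -/

/-- `δ t` is the displacement of the tile `t` of the limit tiling. -/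
def Ds (U : Ultrafilter ℕ) (Tn : ℕ → Set V) (δ : V → ℕ → V) : Prop :=
  ∀ t ∈ Lim U Tn, (∀ᶠ n in (U : Filter ℕ), t + δ t n ∈ Tn n) ∧
    Tendsto (δ t) (U : Filter ℕ) (𝓝 0)

/-- Two tiles of the limit tiling have the same displacement. -/
def Sm (U : Ultrafilter ℕ) (δ : V → ℕ → V) (t t' : V) : Prop :=
  ∀ᶠ n in (U : Filter ℕ), δ t n = δ t' n

/-- `e` is a slide direction: all displacements differ by vectors parallel to `e`, and the
displacement of the tile at a flag depends only on the height of the point and the side of the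
flag. -/
def Sl (P : Finset (Finset HPl)) (U : Ultrafilter ℕ) (Tn : ℕ → Set V) (δ : V → ℕ → V) (e : V) :
    Prop :=
  (∀ t ∈ Lim U Tn, ∀ t' ∈ Lim U Tn,
    ∀ᶠ n in (U : Filter ℕ), rdet e (δ t n) = rdet e (δ t' n)) ∧
  ∀ u v u' v' z z' t t' : V, t ∈ Lim U Tn → t' ∈ Lim U Tn → rdet u v ≠ 0 → rdet u' v' ≠ 0 →
    rdet e z = rdet e z' → (sd e u v ↔ sd e u' v') → z - t ∈ fset P u v → z' - t' ∈ fset P u' v' →
    Sm U δ t t'

end Pool.Agent.PTP
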