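import Pool.Agent.PTP.P_CRF

/-!
# PTP: KKD is proved in `P_CRF`
-/

set_option autoImplicit false
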