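import Pool.Agent.PTP.Targets

/-!
# The main theorem from the cases
-/

set_option autoImplicit false

namespace Pool.Agent.PTP

open Pool.Agent.PTR Filter Topology
open Pool.Agent.PTR.OL (V ii dif difs FLC InHull)

theorem R6_of (hA0 : T_A0) (hPFLC : T_PFLC) (hA1 : T_A1) (hHW : T_HW) (hHP : T_HP)
    (hHG : T_HG) : T_R6 := by
  rintro P hP hI ⟨T, hT⟩
  by_cases hns : NS P
  · by_cases hf : ∃ e, IsDir P e ∧ ∃ T' c, Til (pset P) T' ∧ SF (pset P) e T' c
    · obtain ⟨e, he, T', c, hT', hc⟩ := hf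
      obtain ⟨p, hp, hpe, hper⟩ := hHP P hP hI hns e he T' c hT' hc
      exact hHG P hP e he.1 T' c hT' hc (hHW P hP hI hns e he T' c hT' hc) p hp hpe hper
    · refine hPFLC P hP T hT ?_
      by_contra hcon
      exact hf (hA0 P hP hI T hT hcon)
  · simp only [NS, not_forall] at hns
    obtain ⟨e, he, T', c, c', hT', hcc, hc, hc', -⟩ := hns
    exact hA1 P hP hI e he T' c c' hT' hcc hc hc'

end Pool.Agent.PTP
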